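import Mathlib

/-!
Arithmetic of MP_100167_gt: algebraic units with bounded conjugates.
-/

open Finset

namespace MPG

/-- A nonzero element of a field satisfying an integral Laurent relation with top coefficient `1` is
integral. -/
theorem integral_of_rel {K α : Type*} [Field K] [DecidableEq α] (S : Finset α) (a : α → ℤ) (n : α → ℤ)
    (g : α) (hg : g ∈ S) (ha : |a g| = 1) (hn : ∀ h ∈ S, h ≠ g → n h < n g) (t : K) (ht : t ≠ 0)
    (hrel : ∑ h ∈ S, (a h : K) * t ^ (n h) = 0) : IsIntegral ℤ t := by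
  classical
  -- shift the exponents
  obtain ⟨N, hN⟩ : ∃ N : ℕ, ∀ h ∈ S, 0 ≤ n h + N := by
    refine ⟨∑ h ∈ S, (n h).natAbs, fun h hh => ?_⟩
    have h1 : (n h).natAbs ≤ ∑ h ∈ S, (n h).natAbs :=
      Finset.single_le_sum (f := fun h => (n h).natAbs) (fun _ _ => Nat.zero_le _) hh
    have h2 : ((n h).natAbs : ℤ) ≤ ((∑ h ∈ S, (n h).natAbs : ℕ) : ℤ) := by exact_mod_cast h1
    have h3 : -((n h).natAbs : ℤ) ≤ n h := by omega
    linarith
  let m : α → ℕ := fun h => (n h + N).toNat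
  have hm : ∀ h ∈ S, t ^ (m h) = t ^ (n h) * t ^ N := by
    intro h hh
    have h1 : ((m h : ℕ) : ℤ) = n h + N := Int.toNat_of_nonneg (hN h hh)
    rw [← zpow_natCast t (m h), h1, zpow_add₀ ht, zpow_natCast]
  have hrel' : ∑ h ∈ S, (a h : K) * t ^ (m h) = 0 := by
    have : ∑ h ∈ S, (a h : K) * t ^ (m h) = (∑ h ∈ S, (a h : K) * t ^ (n h)) * t ^ N := by
      rw [Finset.sum_mul]
      refine Finset.sum_congr rfl fun h hh => ?_
      rw [hm h hh, mul_assoc]
    rw [this, hrel, zero_mul]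
  have hlt : ∀ h ∈ S, h ≠ g → m h < m g := by
    intro h hh hne
    have h1 := hN h hh
    have h2 := hn h hh hne
    show (n h + N).toNat < (n g + N).toNat
    omega
  let q : Polynomial ℤ := ∑ h ∈ S.erase g, Polynomial.C (a g * a h) * Polynomial.X ^ (m h)
  have hq : q.degree < (m g : ℕ) := by
    rw [← Polynomial.mem_degreeLT]
    refine Submodule.sum_mem _ fun h hh => ?_
    rw [Polynomial.mem_degreeLT]
    refine lt_of_le_of_lt (Polynomial.degree_C_mul_X_pow_le _ _) ?_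
    exact_mod_cast hlt h (Finset.mem_of_mem_erase hh) (Finset.ne_of_mem_erase hh)
  have hmon : (Polynomial.X ^ (m g) + q).Monic := Polynomial.monic_X_pow_add hq
  refine ⟨_, hmon, ?_⟩
  have haa : (a g : K) * (a g : K) = 1 := by
    have h2 : a g * a g = 1 := by
      have h1 := abs_mul_abs_self (a g)
      rw [ha] at h1
      linarith
    rw [← Int.cast_mul, h2, Int.cast_one]
  have e1 : ∑ h ∈ S, (a h : K) * t ^ (m h) =
      (a g : K) * t ^ (m g) + ∑ h ∈ S.erase g, (a h : K) * t ^ (m h) :=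
    (Finset.add_sum_erase S _ hg).symm
  rw [e1] at hrel'
  have e2 : (a g : K) * ((a g : K) * t ^ (m g) + ∑ h ∈ S.erase g, (a h : K) * t ^ (m h)) = 0 := by
    rw [hrel', mul_zero]
  simp only [q, Polynomial.eval₂_add, Polynomial.eval₂_X_pow, Polynomial.eval₂_finsetSum,
    Polynomial.eval₂_mul, Polynomial.eval₂_C]
  rw [mul_add, ← mul_assoc, haa, one_mul, Finset.mul_sum] at e2
  rw [← e2]
  congr 1
  refine Finset.sum_congr rfl fun h _ => ?_
  simp [mul_assoc]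

/-- Norm argument. -/
theorem eq_zero_of_conj {K : Type*} [Field K] [NumberField K] (x : K) (hx : IsIntegral ℤ x)
    (h : ∀ φ : K →+* ℂ, ‖φ x‖ < 1) : x = 0 := by
  by_contra hne
  obtain ⟨φ⟩ : Nonempty (K →+* ℂ) := inferInstance
  let y : NumberField.RingOfIntegers K := ⟨x, hx⟩
  have hy : y ≠ 0 := by
    intro h0
    exact hne (congrArg Subtype.val h0)
  have h1 := NumberField.InfinitePlace.one_le_of_lt_one (w := NumberField.InfinitePlace.mk φ) hy
    (fun z _ => by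
      rw [← NumberField.InfinitePlace.norm_embedding_eq]
      exact h _)
  rw [NumberField.InfinitePlace.apply] at h1
  exact absurd (h φ) (not_lt.mpr h1)

/-- Core: three algebraic integers with bounded conjugates and one linear relation with large coprime
coefficients are proportional to a bounded integer vector. Case `|p| ≤ |q|`. -/
theorem core_aux {K : Type*} [Field K] [NumberField K] (C : ℝ) (hC : 0 ≤ C) (n : ℕ) (hn : 2 * C < n)
    (x y w : K) (hx : IsIntegral ℤ x) (hy : IsIntegral ℤ y)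
    (bby : ∀ φ : K →+* ℂ, ‖φ y‖ ≤ C) (bw : ∀ φ : K →+* ℂ, ‖φ w‖ ≤ C)
    (p q : ℤ) (hpq : |p| ≤ |q|) (hq : 2 * n * C < |q|) (hrel : (q : K) * x - p * y = w)
    (hne : ¬ (x = 0 ∧ y = 0)) :
    ∃ k l c : ℤ, |k| ≤ n ∧ |l| ≤ n + 1 ∧ |(c : ℝ)| ≤ n * C ∧ ∃ ρ : K, x = l * ρ ∧ y = k * ρ ∧ w = c * ρ := by
  have hn0 : 0 < n := by
    have : (0 : ℝ) < n := by linarith
    exact_mod_cast this
  have hn1 : (0 : ℝ) < n := by exact_mod_cast hn0
  have hq0 : (0 : ℝ) < |(q : ℝ)| := by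
    have h1 : (0 : ℝ) ≤ 2 * n * C := by positivity
    have h2 : ((|q| : ℤ) : ℝ) = |(q : ℝ)| := by push_cast; rfl
    rw [h2] at hq
    linarith
  have hqc : 2 * n * C < |(q : ℝ)| := by
    have h2 : ((|q| : ℤ) : ℝ) = |(q : ℝ)| := by push_cast; rfl
    rwa [h2] at hq
  have hqne : (q : ℝ) ≠ 0 := abs_pos.mp hq0
  have hqneK : (q : K) ≠ 0 := by
    have : q ≠ 0 := by
      intro h; apply hqne; rw [h]; simp
    exact_mod_cast this
  obtain ⟨j, k, hk0, hkn, hjk⟩ := Real.exists_int_int_abs_mul_sub_le ((p : ℝ) / q) hn0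
  have hk0' : (0 : ℝ) < k := by exact_mod_cast hk0
  have hkn' : (k : ℝ) ≤ n := by exact_mod_cast hkn
  have hkK : (k : K) ≠ 0 := by
    have : k ≠ 0 := hk0.ne'
    exact_mod_cast this
  have hz : (k : K) * x - j * y = 0 := by
    refine eq_zero_of_conj _ ?_ ?_
    · exact (((isIntegral_algebraMap (R := ℤ) (x := k)).mul hx)).sub
        ((isIntegral_algebraMap (R := ℤ) (x := j)).mul hy)
    · intro φ
      have e1 : (q : ℂ) * φ ((k : K) * x - j * y) = ((k * p - j * q : ℤ) : ℂ) * φ y + k * φ w := by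
        have e0 : (q : K) * ((k : K) * x - j * y) = ((k * p - j * q : ℤ) : K) * y + k * w := by
          push_cast
          linear_combination (k : K) * hrel
        have := congrArg φ e0
        simpa using this
      have hqC : (q : ℂ) ≠ 0 := by
        have : q ≠ 0 := by
          intro h; apply hqne; rw [h]; simp
        exact_mod_cast this
      have e2 : ‖(q : ℂ)‖ * ‖φ ((k : K) * x - j * y)‖ ≤ |(k * p - j * q : ℝ)| * C + k * C := by
        rw [← norm_mul, e1]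
        refine (norm_add_le _ _).trans ?_
        rw [norm_mul, norm_mul]
        have n1 : ‖((k * p - j * q : ℤ) : ℂ)‖ = |(k * p - j * q : ℝ)| := by
          rw [Complex.norm_intCast]; push_cast; rfl
        have n2 : ‖((k : ℤ) : ℂ)‖ = k := by
          rw [Complex.norm_intCast]; exact abs_of_pos hk0'
        rw [n1, n2]
        have b1 := bby φ
        have b2 := bw φ
        gcongr
      have n3 : ‖(q : ℂ)‖ = |(q : ℝ)| := Complex.norm_intCast q
      rw [n3] at e2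
      have e3 : |(k * p - j * q : ℝ)| ≤ |(q : ℝ)| / (n + 1) := by
        have : (k * p - j * q : ℝ) = q * (k * ((p : ℝ) / q) - j) := by
          field_simp
        rw [this, abs_mul]
        calc |(q : ℝ)| * |k * ((p : ℝ) / q) - j| ≤ |(q : ℝ)| * (1 / (n + 1)) := by gcongr
          _ = |(q : ℝ)| / (n + 1) := by ring
      by_contra hcon
      push Not at hcon
      have e4 : |(q : ℝ)| ≤ |(q : ℝ)| / (n + 1) * C + n * C := by
        calc |(q : ℝ)| = |(q : ℝ)| * 1 := by ring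
          _ ≤ |(q : ℝ)| * ‖φ ((k : K) * x - j * y)‖ := by gcongr
          _ ≤ |(k * p - j * q : ℝ)| * C + k * C := e2
          _ ≤ |(q : ℝ)| / (n + 1) * C + n * C := by gcongr
      have e5 : |(q : ℝ)| / (n + 1) * C ≤ |(q : ℝ)| / 2 := by
        rw [div_mul_eq_mul_div, div_le_div_iff₀ (by positivity) (by norm_num)]
        nlinarith
      linarith
  have hkw : (k : K) * w = ((j * q - k * p : ℤ) : K) * y := by
    push_cast
    linear_combination (-(k : K)) * hrel + (q : K) * hz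
  have hy0 : y ≠ 0 := by
    intro h0
    apply hne
    refine ⟨?_, h0⟩
    rw [h0, mul_zero, sub_zero] at hz
    exact (mul_eq_zero.mp hz).resolve_left hkK
  refine ⟨k, j, j * q - k * p, ?_, ?_, ?_, y / k, ?_, ?_, ?_⟩
  · rw [abs_of_pos hk0]; exact hkn
  · have h1 : |(j : ℝ)| ≤ n + 1 := by
      have h2 : |(j : ℝ)| ≤ |k * ((p : ℝ) / q)| + |k * ((p : ℝ) / q) - j| := by
        have := abs_sub_abs_le_abs_sub (j : ℝ) (k * ((p : ℝ) / q))
        rw [abs_sub_comm] at this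
        linarith
      have h3 : |k * ((p : ℝ) / q)| ≤ n := by
        rw [abs_mul, abs_of_pos hk0', abs_div]
        have h4 : |(p : ℝ)| ≤ |(q : ℝ)| := by exact_mod_cast hpq
        have h5 : |(p : ℝ)| / |(q : ℝ)| ≤ 1 := by
          rw [div_le_one hq0]; exact h4
        calc (k : ℝ) * (|(p : ℝ)| / |(q : ℝ)|) ≤ n * 1 := by gcongr
          _ = n := mul_one _
      have h6 : 1 / ((n : ℝ) + 1) ≤ 1 := by
        rw [div_le_one (by positivity)]; linarith
      linarith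
    exact_mod_cast h1
  · by_contra hcon
    push Not at hcon
    apply hy0
    refine eq_zero_of_conj _ hy fun φ => ?_
    have e1 := congrArg φ hkw
    have e2 : (k : ℂ) * φ w = ((j * q - k * p : ℤ) : ℂ) * φ y := by simpa using e1
    have e3 := congrArg norm e2
    rw [norm_mul, norm_mul, Complex.norm_intCast, Complex.norm_intCast, abs_of_pos hk0'] at e3
    have b2 := bw φ
    have hpos : 0 < |((j * q - k * p : ℤ) : ℝ)| := lt_of_le_of_lt (by positivity) hcon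
    by_contra h1
    push Not at h1
    have : |((j * q - k * p : ℤ) : ℝ)| ≤ n * C := by
      calc |((j * q - k * p : ℤ) : ℝ)| = |((j * q - k * p : ℤ) : ℝ)| * 1 := by ring
        _ ≤ |((j * q - k * p : ℤ) : ℝ)| * ‖φ y‖ := by gcongr
        _ = k * ‖φ w‖ := e3.symm
        _ ≤ n * C := by gcongr
    linarith
  · rw [mul_div_assoc', eq_div_iff hkK]
    linear_combination hz
  · field_simp
  · rw [mul_div_assoc', eq_div_iff hkK]
    linear_combination hkw

/-- Core, both cases. -/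
theorem core {K : Type*} [Field K] [NumberField K] (C : ℝ) (hC : 0 ≤ C) (n : ℕ) (hn : 2 * C < n)
    (x y w : K) (hx : IsIntegral ℤ x) (hy : IsIntegral ℤ y)
    (bx : ∀ φ : K →+* ℂ, ‖φ x‖ ≤ C) (bby : ∀ φ : K →+* ℂ, ‖φ y‖ ≤ C) (bw : ∀ φ : K →+* ℂ, ‖φ w‖ ≤ C)
    (p q : ℤ) (hq : 2 * n * C < ((max |p| |q| : ℤ) : ℝ)) (hrel : (q : K) * x - p * y = w)
    (hne : ¬ (x = 0 ∧ y = 0)) :
    ∃ k l c : ℤ, |k| ≤ n + 1 ∧ |l| ≤ n + 1 ∧ |(c : ℝ)| ≤ n * C ∧
      ∃ ρ : K, x = k * ρ ∧ y = l * ρ ∧ w = c * ρ := by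
  rcases le_total |p| |q| with h | h
  · rw [max_eq_right h] at hq
    obtain ⟨k, l, c, hk, hl, hc, ρ, h1, h2, h3⟩ :=
      core_aux C hC n hn x y w hx hy bby bw p q h hq hrel hne
    exact ⟨l, k, c, hl, by linarith, hc, ρ, h1, h2, h3⟩
  · rw [max_eq_left h] at hq
    obtain ⟨k, l, c, hk, hl, hc, ρ, h1, h2, h3⟩ :=
      core_aux C hC n hn y x (-w) hy hx bx (by intro φ; rw [map_neg, norm_neg]; exact bw φ) q p h hq
        (by linear_combination -hrel) (by tauto)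
    refine ⟨k, l, -c, by linarith, hl, by push_cast; rwa [abs_neg], ρ, h2, h1, ?_⟩
    push_cast
    linear_combination -h3

open IntermediateField in
/-- The arithmetic of a real `T > 0` satisfying an integral Laurent relation whose extreme coefficients are
`±1`. -/
theorem arith_main {α : Type*} [DecidableEq α] (S : Finset α) (a n : α → ℤ) (g₀ g₁ : α)
    (h0 : g₀ ∈ S) (h1 : g₁ ∈ S) (a0 : |a g₀| = 1) (a1 : |a g₁| = 1)
    (n0 : ∀ h ∈ S, h ≠ g₀ → n h < n g₀) (n1 : ∀ h ∈ S, h ≠ g₁ → n g₁ < n h)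
    (T : ℝ) (hT : 0 < T) (hrel : ∑ h ∈ S, (a h : ℝ) * T ^ (n h) = 0) (B : ℝ)
    (hB : ∀ z : ℂ, z ≠ 0 → ∑ h ∈ S, (a h : ℂ) * z ^ (n h) = 0 → ∀ h ∈ S, ‖z‖ ^ (n h) ≤ B)
    (b₁ b₂ b₃ : α → ℤ) (C : ℝ) (hC : 0 ≤ C)
    (c1 : ∑ h ∈ S, |((a h * b₁ h : ℤ) : ℝ)| * B ≤ C)
    (c2 : ∑ h ∈ S, |((a h * b₂ h : ℤ) : ℝ)| * B ≤ C)
    (c3 : ∑ h ∈ S, |((a h * b₃ h : ℤ) : ℝ)| * B ≤ C)
    (N : ℕ) (hN : 2 * C < N) (p q : ℤ) (hpq : 2 * N * C < ((max |p| |q| : ℤ) : ℝ))
    (hlin : (q : ℝ) * (∑ h ∈ S, ((a h * b₁ h : ℤ) : ℝ) * T ^ (n h)) -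
      p * (∑ h ∈ S, ((a h * b₂ h : ℤ) : ℝ) * T ^ (n h)) = ∑ h ∈ S, ((a h * b₃ h : ℤ) : ℝ) * T ^ (n h))
    (hne : ¬ ((∑ h ∈ S, ((a h * b₁ h : ℤ) : ℝ) * T ^ (n h)) = 0 ∧
      (∑ h ∈ S, ((a h * b₂ h : ℤ) : ℝ) * T ^ (n h)) = 0)) :
    ∃ k l c : ℤ, |k| ≤ N + 1 ∧ |l| ≤ N + 1 ∧ |(c : ℝ)| ≤ N * C ∧
      ∃ ρ : ℝ, (∑ h ∈ S, ((a h * b₁ h : ℤ) : ℝ) * T ^ (n h)) = k * ρ ∧
        (∑ h ∈ S, ((a h * b₂ h : ℤ) : ℝ) * T ^ (n h)) = l * ρ ∧
        (∑ h ∈ S, ((a h * b₃ h : ℤ) : ℝ) * T ^ (n h)) = c * ρ := by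
  have iT : IsIntegral ℤ T := integral_of_rel S a n g₀ h0 a0 n0 T hT.ne' hrel
  have iTinv : IsIntegral ℤ T⁻¹ := by
    refine integral_of_rel S a (fun h => - n h) g₁ h1 a1 (fun h hh hne => ?_) T⁻¹ (inv_ne_zero hT.ne') ?_
    · have h5 := n1 h hh hne
      omega
    · rw [← hrel]
      refine Finset.sum_congr rfl fun h _ => ?_
      rw [inv_zpow, zpow_neg, inv_inv]
  have iTQ : IsIntegral ℚ T := iT.tower_top
  have : FiniteDimensional ℚ ℚ⟮T⟯ := adjoin.finiteDimensional iTQ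
  have : NumberField ℚ⟮T⟯ := ⟨⟩
  let t : ℚ⟮T⟯ := AdjoinSimple.gen ℚ T
  have ht : (t : ℝ) = T := AdjoinSimple.coe_gen ℚ T
  have htne : t ≠ 0 := by
    intro h
    have : (t : ℝ) = 0 := by rw [h]; rfl
    rw [ht] at this
    exact hT.ne' this
  have inj : Function.Injective (algebraMap ℚ⟮T⟯ ℝ) := (algebraMap ℚ⟮T⟯ ℝ).injective
  have hamap : algebraMap ℚ⟮T⟯ ℝ t = T := ht
  have it : IsIntegral ℤ t := by
    rw [← isIntegral_algebraMap_iff inj, hamap]; exact iT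
  have itinv : IsIntegral ℤ t⁻¹ := by
    rw [← isIntegral_algebraMap_iff inj, map_inv₀, hamap]; exact iTinv
  have ipow : ∀ m : ℤ, IsIntegral ℤ (t ^ m) := by
    intro m
    rcases le_total 0 m with hm | hm
    · obtain ⟨k, rfl⟩ := Int.eq_ofNat_of_zero_le hm
      rw [zpow_natCast]
      exact it.pow k
    · obtain ⟨k, hk⟩ := Int.eq_ofNat_of_zero_le (neg_nonneg.mpr hm)
      have hm' : m = -(k : ℤ) := by omega
      rw [hm', zpow_neg, zpow_natCast, ← inv_pow]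
      exact itinv.pow k
  let F : (α → ℤ) → ℚ⟮T⟯ := fun b => ∑ h ∈ S, ((a h * b h : ℤ) : ℚ⟮T⟯) * t ^ (n h)
  have iF : ∀ b, IsIntegral ℤ (F b) := by
    intro b
    refine IsIntegral.sum _ fun h _ => ?_
    exact (isIntegral_algebraMap (R := ℤ) (x := a h * b h)).mul (ipow _)
  have mF : ∀ b, algebraMap ℚ⟮T⟯ ℝ (F b) = ∑ h ∈ S, ((a h * b h : ℤ) : ℝ) * T ^ (n h) := by
    intro b
    simp only [F, map_sum, map_mul, map_zpow₀, hamap, map_intCast]
  have relK : ∑ h ∈ S, ((a h : ℤ) : ℚ⟮T⟯) * t ^ (n h) = 0 := by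
    apply inj
    rw [map_zero, map_sum, ← hrel]
    refine Finset.sum_congr rfl fun h _ => ?_
    rw [map_mul, map_zpow₀, hamap, map_intCast]
  have bF : ∀ b : α → ℤ, ∑ h ∈ S, |((a h * b h : ℤ) : ℝ)| * B ≤ C → ∀ φ : ℚ⟮T⟯ →+* ℂ, ‖φ (F b)‖ ≤ C := by
    intro b hb φ
    have hz : φ t ≠ 0 := by
      rw [Ne, map_eq_zero]; exact htne
    have hz2 : ∑ h ∈ S, (a h : ℂ) * (φ t) ^ (n h) = 0 := by
      have := congrArg φ relK
      rw [map_zero, map_sum] at this
      rw [← this]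
      refine Finset.sum_congr rfl fun h _ => ?_
      rw [map_mul, map_zpow₀, map_intCast]
    have hz3 := hB (φ t) hz hz2
    refine le_trans ?_ hb
    simp only [F, map_sum]
    refine (norm_sum_le _ _).trans ?_
    refine Finset.sum_le_sum fun h hh => ?_
    rw [map_mul, map_zpow₀, map_intCast, norm_mul, norm_zpow, Complex.norm_intCast]
    have := hz3 h hh
    gcongr
  obtain ⟨k, l, c, hk, hl, hc, ρ, e1, e2, e3⟩ := core C hC N hN (F b₁) (F b₂) (F b₃) (iF _) (iF _)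
    (bF _ c1) (bF _ c2) (bF _ c3) p q hpq
    (by
      apply inj
      rw [map_sub, map_mul, map_mul, mF, mF, mF, map_intCast, map_intCast]
      exact hlin)
    (by
      rintro ⟨z1, z2⟩
      apply hne
      rw [← mF, ← mF, z1, z2, map_zero]
      exact ⟨rfl, rfl⟩)
  refine ⟨k, l, c, hk, hl, hc, algebraMap ℚ⟮T⟯ ℝ ρ, ?_, ?_, ?_⟩
  · rw [← mF, e1, map_mul, map_intCast]
  · rw [← mF, e2, map_mul, map_intCast]
  · rw [← mF, e3, map_mul, map_intCast]

end MPG
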