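import Mathlib

/-!
Bound for the conjugates: roots of an integral Laurent relation whose extreme exponents are separated.
-/

open Finset

namespace MPG

theorem one_side {α : Type*} [DecidableEq α] (S : Finset α) (a n : α → ℤ) (g : α) (hg : g ∈ S)
    (ha : |a g| = 1) (z : ℂ) (hz : z ≠ 0) (hrel : ∑ h ∈ S, (a h : ℂ) * z ^ (n h) = 0) (κ : ℝ)
    (hw : ∀ h ∈ S, h ≠ g → ‖z‖ ^ (n h) ≤ ‖z‖ ^ (n g) * Real.exp (-κ)) :
    κ ≤ Real.log (∑ h ∈ S, |(a h : ℝ)|) := by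
  have hzpos : 0 < ‖z‖ := norm_pos_iff.mpr hz
  have hpos : 0 < ‖z‖ ^ (n g) := zpow_pos hzpos _
  have e1 : (a g : ℂ) * z ^ (n g) = - ∑ h ∈ S.erase g, (a h : ℂ) * z ^ (n h) := by
    have := Finset.add_sum_erase S (fun h => (a h : ℂ) * z ^ (n h)) hg
    rw [hrel] at this
    exact eq_neg_of_add_eq_zero_left this
  have e2 := congrArg norm e1
  have hag : |(a g : ℝ)| = 1 := by exact_mod_cast ha
  rw [norm_neg, norm_mul, norm_zpow, Complex.norm_intCast, hag, one_mul] at e2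
  have e3 : ‖z‖ ^ (n g) ≤ (∑ h ∈ S, |(a h : ℝ)|) * (‖z‖ ^ (n g) * Real.exp (-κ)) := by
    calc ‖z‖ ^ (n g) ≤ ∑ h ∈ S.erase g, ‖(a h : ℂ) * z ^ (n h)‖ := by rw [e2]; exact norm_sum_le _ _
      _ ≤ ∑ h ∈ S.erase g, |(a h : ℝ)| * (‖z‖ ^ (n g) * Real.exp (-κ)) := by
          refine Finset.sum_le_sum fun h hh => ?_
          rw [norm_mul, norm_zpow, Complex.norm_intCast]
          have := hw h (Finset.mem_of_mem_erase hh) (Finset.ne_of_mem_erase hh)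
          gcongr
      _ = (∑ h ∈ S.erase g, |(a h : ℝ)|) * (‖z‖ ^ (n g) * Real.exp (-κ)) := by rw [Finset.sum_mul]
      _ ≤ (∑ h ∈ S, |(a h : ℝ)|) * (‖z‖ ^ (n g) * Real.exp (-κ)) := by
          have : ∑ h ∈ S.erase g, |(a h : ℝ)| ≤ ∑ h ∈ S, |(a h : ℝ)| :=
            Finset.sum_le_sum_of_subset_of_nonneg (Finset.erase_subset _ _) (fun _ _ _ => abs_nonneg _)
          have h5 : 0 ≤ ‖z‖ ^ (n g) * Real.exp (-κ) := by positivity
          gcongr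
  set A := ∑ h ∈ S, |(a h : ℝ)| with hA
  have hA1 : 1 ≤ A := by
    rw [hA, ← hag]
    exact Finset.single_le_sum (f := fun h => |(a h : ℝ)|) (fun _ _ => abs_nonneg _) hg
  have e4 : 1 ≤ A * Real.exp (-κ) := by
    have : ‖z‖ ^ (n g) * 1 ≤ ‖z‖ ^ (n g) * (A * Real.exp (-κ)) := by
      calc ‖z‖ ^ (n g) * 1 = ‖z‖ ^ (n g) := mul_one _
        _ ≤ A * (‖z‖ ^ (n g) * Real.exp (-κ)) := e3
        _ = ‖z‖ ^ (n g) * (A * Real.exp (-κ)) := by ring
    exact le_of_mul_le_mul_left this hpos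
  rw [Real.le_log_iff_exp_le (by linarith)]
  rw [Real.exp_neg] at e4
  have h6 := Real.exp_pos κ
  have : Real.exp κ * 1 ≤ Real.exp κ * (A * (Real.exp κ)⁻¹) := by gcongr
  calc Real.exp κ = Real.exp κ * 1 := (mul_one _).symm
    _ ≤ Real.exp κ * (A * (Real.exp κ)⁻¹) := this
    _ = A := by field_simp

theorem conj_bound {α : Type*} [DecidableEq α] (S : Finset α) (a n : α → ℤ) (g₀ g₁ : α)
    (h0 : g₀ ∈ S) (h1 : g₁ ∈ S) (a0 : |a g₀| = 1) (a1 : |a g₁| = 1) (D δ G : ℝ) (hD : 0 < D)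
    (hδ : 0 < δ)
    (d0 : ∀ h ∈ S, h ≠ g₀ → (n h : ℝ) ≤ n g₀ - D * δ)
    (d1 : ∀ h ∈ S, h ≠ g₁ → (n g₁ : ℝ) + D * δ ≤ n h)
    (hG : ∀ h ∈ S, |(n h : ℝ)| ≤ D * G)
    (z : ℂ) (hz : z ≠ 0) (hrel : ∑ h ∈ S, (a h : ℂ) * z ^ (n h) = 0) :
    ∀ h ∈ S, ‖z‖ ^ (n h) ≤ Real.exp (G * Real.log (∑ h ∈ S, |(a h : ℝ)|) / δ) := by
  have hzpos : 0 < ‖z‖ := norm_pos_iff.mpr hz
  set L := Real.log ‖z‖ with hL
  set A := Real.log (∑ h ∈ S, |(a h : ℝ)|) with hA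
  have hpow : ∀ h, ‖z‖ ^ (n h) = Real.exp (n h * L) := by
    intro h
    rw [hL, mul_comm, Real.exp_mul, Real.exp_log hzpos, Real.rpow_intCast]
  have hA0 : 0 ≤ A := by
    rw [hA]
    apply Real.log_nonneg
    have hag : |(a g₀ : ℝ)| = 1 := by exact_mod_cast a0
    rw [← hag]
    exact Finset.single_le_sum (f := fun h => |(a h : ℝ)|) (fun _ _ => abs_nonneg _) h0
  have hLb : D * δ * |L| ≤ A := by
    rcases le_total 0 L with hL0 | hL0
    · rw [abs_of_nonneg hL0]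
      refine one_side S a n g₀ h0 a0 z hz hrel (D * δ * L) fun h hh hne => ?_
      rw [hpow, hpow, ← Real.exp_add, Real.exp_le_exp]
      have := d0 h hh hne
      nlinarith
    · rw [abs_of_nonpos hL0]
      refine one_side S a n g₁ h1 a1 z hz hrel (D * δ * -L) fun h hh hne => ?_
      rw [hpow, hpow, ← Real.exp_add, Real.exp_le_exp]
      have := d1 h hh hne
      nlinarith
  intro h hh
  rw [hpow, Real.exp_le_exp, le_div_iff₀ hδ]
  have h2 := hG h hh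
  have h3 : (n h : ℝ) * L ≤ D * G * |L| := by
    calc (n h : ℝ) * L ≤ |(n h : ℝ) * L| := le_abs_self _
      _ = |(n h : ℝ)| * |L| := abs_mul _ _
      _ ≤ D * G * |L| := by gcongr
  have hG0 : 0 ≤ G := by
    have : 0 ≤ D * G := (abs_nonneg _).trans h2
    exact nonneg_of_mul_nonneg_right this hD
  calc (n h : ℝ) * L * δ ≤ D * G * |L| * δ := by gcongr
    _ = G * (D * δ * |L|) := by ring
    _ ≤ G * A := by gcongr

end MPG
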