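import Mathlib

/-!
# MP_100167_gt: minimum points of fibered faces of Dehn fillings, abstract form

A `Datum` collects what is used of a fibered face: the Teichmueller polynomial
`Θ = ∑_{g ∈ S} a_g · g ∈ ℤ[ℤ^ι]`, its two opposite vertices `g₀, g₁` (coefficients `±1`) cutting out the
fibered cone, the functional `e` (the Thurston norm on the cone), and the classes `μ, lam` of a basis of a
peripheral torus.
-/

namespace MPG

variable {ι : Type} [Fintype ι]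

/-- pairing of an integral covector with a real vector. -/
def pr (g : ι → ℤ) (x : ι → ℝ) : ℝ := ∑ i, (g i : ℝ) * x i

/-- `Θ(e^X) = ∑_{g ∈ S} a_g e^{g(X)}`. -/
noncomputable def E (S : Finset (ι → ℤ)) (a : (ι → ℤ) → ℤ) (X : ι → ℝ) : ℝ :=
  ∑ g ∈ S, (a g : ℝ) * Real.exp (pr g X)

/-- derivative of `E` at `X` in the direction `v`. -/
noncomputable def Phi (S : Finset (ι → ℤ)) (a : (ι → ℤ) → ℤ) (X v : ι → ℝ) : ℝ :=
  ∑ g ∈ S, (a g : ℝ) * pr g v * Real.exp (pr g X)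

/-- The open cone of the `x` at which `g₀` is the strict maximum and `g₁` the strict minimum of `S`. -/
def Cone (S : Finset (ι → ℤ)) (g₀ g₁ : ι → ℤ) : Set (ι → ℝ) :=
  {x | (∀ g ∈ S, g ≠ g₀ → pr g x < pr g₀ x) ∧ (∀ g ∈ S, g ≠ g₁ → pr g₁ x < pr g x)}

/-- `s` is the entropy of `x`: `e^s` is the largest real root `> 1` of `∑ a_g u^{g(x)}`. -/
def IsEnt (S : Finset (ι → ℤ)) (a : (ι → ℤ) → ℤ) (x : ι → ℝ) (s : ℝ) : Prop :=
  0 < s ∧ E S a (s • x) = 0 ∧ ∀ s', s < s' → E S a (s' • x) ≠ 0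

/-- What is used of a fibered face with a peripheral torus. -/
structure Datum (ι : Type) [Fintype ι] where
  S : Finset (ι → ℤ)
  a : (ι → ℤ) → ℤ
  g₀ : ι → ℤ
  g₁ : ι → ℤ
  e : ι → ℤ
  μ : ι → ℤ
  lam : ι → ℤ
  g₀_mem : g₀ ∈ S
  g₁_mem : g₁ ∈ S
  ne : g₀ ≠ g₁
  a₀ : a g₀ = 1
  a₁ : |a g₁| = 1
  /-- entropy exists on the cone -/
  ent : ∀ x ∈ Cone S g₀ g₁, ∃ s, IsEnt S a x s
  /-- the root is simple -/
  simple : ∀ x ∈ Cone S g₀ g₁, IsEnt S a x 1 → Phi S a x x ≠ 0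
  /-- strict concavity of `1 / entropy` on the cone (Fried, Matsumoto, McMullen) -/
  convex : ∀ x ∈ Cone S g₀ g₁, ∀ y ∈ Cone S g₀ g₁, (∀ c : ℝ, y ≠ c • x) →
    ∀ s t u, IsEnt S a x s → IsEnt S a y t → IsEnt S a (x + y) u → 1 / s + 1 / t < 1 / u
  /-- the three classes are linearly independent -/
  indep : LinearIndependent ℤ ![e, μ, lam]
  /-- classes in the cone are nonzero on the torus -/
  torus : ∀ x ∈ Cone S g₀ g₁, pr μ x ≠ 0 ∨ pr lam x ≠ 0

variable (D : Datum ι)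

/-- The fibered cone. -/
def Datum.cone : Set (ι → ℝ) := Cone D.S D.g₀ D.g₁

/-- The fibered face of the filling of slope `p μ + q lam`: classes `x` in the cone vanishing on the slope
(so `x|_T = t · (dual class)`), with norm `e(x) - |t| = 1`. -/
def Datum.Face (p q : ℤ) : Set (ι → ℝ) :=
  {x | x ∈ D.cone ∧ ∃ t : ℝ, pr D.μ x = -q * t ∧ pr D.lam x = p * t ∧ pr D.e x - |t| = 1}

/-- `m` is a minimum point of the entropy on the face. -/
def Datum.IsMinPt (p q : ℤ) (m : ι → ℝ) : Prop :=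
  m ∈ D.Face p q ∧ ∃ s, IsEnt D.S D.a m s ∧
    ∀ m' ∈ D.Face p q, ∀ s', IsEnt D.S D.a m' s' → s ≤ s'

def Rational (m : ι → ℝ) : Prop := ∀ i, ∃ r : ℚ, m i = r

/-- GOAL: for every compact subset `K` of the fibered cone, only finitely many slopes have a rational minimum
point in `K`. -/
def Goal : Prop :=
  ∀ K : Set (ι → ℝ), IsCompact K → K ⊆ D.cone →
    {s : ℤ × ℤ | IsCoprime s.1 s.2 ∧ ∃ m ∈ K, Rational m ∧ D.IsMinPt s.1 s.2 m}.Finite

end MPG
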