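import Mathlib
import Pool.Agent.MPG.Defs

/-!
Geometry of MP_100167_gt: calculus with `E`, minimum points, uniqueness of the point with given normal.
-/

open Finset Filter Topology

namespace MPG

variable {ι : Type} [Fintype ι]

theorem pr_add (g : ι → ℤ) (x y : ι → ℝ) : pr g (x + y) = pr g x + pr g y := by
  simp [pr, mul_add, Finset.sum_add_distrib]

theorem pr_smul (g : ι → ℤ) (c : ℝ) (x : ι → ℝ) : pr g (c • x) = c * pr g x := by
  simp only [pr, Pi.smul_apply, smul_eq_mul, Finset.mul_sum]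
  exact Finset.sum_congr rfl fun i _ => by ring

theorem pr_sub (g : ι → ℤ) (x y : ι → ℝ) : pr g (x - y) = pr g x - pr g y := by
  simp [pr, mul_sub, Finset.sum_sub_distrib]

theorem pr_zero (g : ι → ℤ) : pr g (0 : ι → ℝ) = 0 := by simp [pr]

/-- `pr g` as a continuous linear map. -/
noncomputable def prL (g : ι → ℤ) : (ι → ℝ) →L[ℝ] ℝ :=
  ∑ i, (g i : ℝ) • ContinuousLinearMap.proj (R := ℝ) (φ := fun _ : ι => ℝ) i

theorem prL_apply (g : ι → ℤ) (x : ι → ℝ) : prL g x = pr g x := by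
  simp [prL, pr]

theorem continuous_pr (g : ι → ℤ) : Continuous (pr g) := by
  have : pr g = fun x => prL g x := by funext x; rw [prL_apply]
  rw [this]; exact (prL g).continuous

theorem Phi_add (S : Finset (ι → ℤ)) (a : (ι → ℤ) → ℤ) (X v w : ι → ℝ) :
    Phi S a X (v + w) = Phi S a X v + Phi S a X w := by
  simp only [Phi, pr_add, ← Finset.sum_add_distrib]
  exact Finset.sum_congr rfl fun g _ => by ring

theorem Phi_smul (S : Finset (ι → ℤ)) (a : (ι → ℤ) → ℤ) (X v : ι → ℝ) (c : ℝ) :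
    Phi S a X (c • v) = c * Phi S a X v := by
  simp only [Phi, pr_smul, Finset.mul_sum]
  exact Finset.sum_congr rfl fun g _ => by ring

theorem Phi_sub (S : Finset (ι → ℤ)) (a : (ι → ℤ) → ℤ) (X v w : ι → ℝ) :
    Phi S a X (v - w) = Phi S a X v - Phi S a X w := by
  simp only [Phi, pr_sub, ← Finset.sum_sub_distrib]
  exact Finset.sum_congr rfl fun g _ => by ring

/-- the derivative of `E`. -/
noncomputable def dE (S : Finset (ι → ℤ)) (a : (ι → ℤ) → ℤ) (X : ι → ℝ) : (ι → ℝ) →L[ℝ] ℝ :=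
  ∑ g ∈ S, (a g : ℝ) • (Real.exp (prL g X) • prL g)

theorem dE_apply (S : Finset (ι → ℤ)) (a : (ι → ℤ) → ℤ) (X v : ι → ℝ) :
    dE S a X v = Phi S a X v := by
  simp only [dE, Phi, _root_.sum_apply, smul_apply, smul_eq_mul,
    prL_apply]
  exact Finset.sum_congr rfl fun g _ => by ring

theorem hasStrictFDerivAt_E (S : Finset (ι → ℤ)) (a : (ι → ℤ) → ℤ) (X : ι → ℝ) :
    HasStrictFDerivAt (E S a) (dE S a X) X := by
  have h : E S a = fun X => ∑ g ∈ S, (a g : ℝ) * Real.exp (prL g X) := by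
    funext X; simp only [E, prL_apply]
  rw [h]
  refine HasStrictFDerivAt.fun_sum fun g _ => ?_
  exact ((prL g).hasStrictFDerivAt.exp).const_mul _

theorem continuous_E (S : Finset (ι → ℤ)) (a : (ι → ℤ) → ℤ) : Continuous (E S a) :=
  continuous_iff_continuousAt.mpr fun X => (hasStrictFDerivAt_E S a X).hasFDerivAt.continuousAt

theorem cone_smul {S : Finset (ι → ℤ)} {g₀ g₁ : ι → ℤ} {x : ι → ℝ} (hx : x ∈ Cone S g₀ g₁) {c : ℝ}
    (hc : 0 < c) : c • x ∈ Cone S g₀ g₁ := by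
  refine ⟨fun g hg hne => ?_, fun g hg hne => ?_⟩
  · rw [pr_smul, pr_smul]; exact mul_lt_mul_of_pos_left (hx.1 g hg hne) hc
  · rw [pr_smul, pr_smul]; exact mul_lt_mul_of_pos_left (hx.2 g hg hne) hc

theorem cone_add {S : Finset (ι → ℤ)} {g₀ g₁ : ι → ℤ} {x y : ι → ℝ} (hx : x ∈ Cone S g₀ g₁)
    (hy : y ∈ Cone S g₀ g₁) : x + y ∈ Cone S g₀ g₁ := by
  refine ⟨fun g hg hne => ?_, fun g hg hne => ?_⟩
  · rw [pr_add, pr_add]; exact add_lt_add (hx.1 g hg hne) (hy.1 g hg hne)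
  · rw [pr_add, pr_add]; exact add_lt_add (hx.2 g hg hne) (hy.2 g hg hne)

theorem eventually_cone {S : Finset (ι → ℤ)} {g₀ g₁ : ι → ℤ} {m : ι → ℝ} (hm : m ∈ Cone S g₀ g₁)
    (v : ι → ℝ) : ∀ᶠ ε in 𝓝 (0 : ℝ), m + ε • v ∈ Cone S g₀ g₁ := by
  have key : ∀ g h : ι → ℤ, pr g m < pr h m → ∀ᶠ ε in 𝓝 (0 : ℝ), pr g (m + ε • v) < pr h (m + ε • v) := by
    intro g h hlt
    have c1 : Continuous fun ε : ℝ => pr g (m + ε • v) := (continuous_pr g).comp (by fun_prop)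
    have c2 : Continuous fun ε : ℝ => pr h (m + ε • v) := (continuous_pr h).comp (by fun_prop)
    have h0 : pr g (m + (0 : ℝ) • v) < pr h (m + (0 : ℝ) • v) := by simpa using hlt
    exact (c1.continuousAt.eventually_lt c2.continuousAt h0)
  have e1 : ∀ᶠ ε in 𝓝 (0 : ℝ), ∀ g ∈ S, g ≠ g₀ → pr g (m + ε • v) < pr g₀ (m + ε • v) := by
    rw [Filter.eventually_all_finset]
    intro g hg
    by_cases hne : g = g₀
    · exact Filter.Eventually.of_forall fun ε h => absurd hne h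
    · exact (key g g₀ (hm.1 g hg hne)).mono fun ε h _ => h
  have e2 : ∀ᶠ ε in 𝓝 (0 : ℝ), ∀ g ∈ S, g ≠ g₁ → pr g₁ (m + ε • v) < pr g (m + ε • v) := by
    rw [Filter.eventually_all_finset]
    intro g hg
    by_cases hne : g = g₁
    · exact Filter.Eventually.of_forall fun ε h => absurd hne h
    · exact (key g₁ g (hm.2 g hg hne)).mono fun ε h _ => h
  filter_upwards [e1, e2] with ε h1 h2 using ⟨h1, h2⟩

theorem IsEnt.smul {S : Finset (ι → ℤ)} {a : (ι → ℤ) → ℤ} {x : ι → ℝ} {s : ℝ} (h : IsEnt S a x s)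
    {c : ℝ} (hc : 0 < c) : IsEnt S a (c • x) (s / c) := by
  refine ⟨div_pos h.1 hc, ?_, fun s' hs' => ?_⟩
  · rw [smul_smul, div_mul_cancel₀ _ hc.ne']; exact h.2.1
  · rw [smul_smul]
    exact h.2.2 _ (by rwa [div_lt_iff₀ hc] at hs')

theorem IsEnt.unique {S : Finset (ι → ℤ)} {a : (ι → ℤ) → ℤ} {x : ι → ℝ} {s t : ℝ}
    (h : IsEnt S a x s) (h' : IsEnt S a x t) : s = t := by
  rcases lt_trichotomy s t with hlt | heq | hgt
  · exact absurd h'.2.1 (h.2.2 t hlt)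
  · exact heq
  · exact absurd h.2.1 (h'.2.2 s hgt)

/-- `E` is positive far out. -/
theorem E_pos_of {S : Finset (ι → ℤ)} {a : (ι → ℤ) → ℤ} {g₀ : ι → ℤ} (h0 : g₀ ∈ S) (a0 : a g₀ = 1)
    (x : ι → ℝ) (δ : ℝ) (hx : ∀ g ∈ S, g ≠ g₀ → pr g x + δ ≤ pr g₀ x) (s : ℝ) (hs0 : 0 ≤ s)
    (hs : Real.log (∑ g ∈ S, |(a g : ℝ)|) < s * δ) : 0 < E S a (s • x) := by
  classical
  set A := ∑ g ∈ S, |(a g : ℝ)| with hA
  have hA1 : 1 ≤ A := by
    have : |(a g₀ : ℝ)| = 1 := by rw [a0]; simp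
    rw [hA, ← this]
    exact Finset.single_le_sum (f := fun h => |(a h : ℝ)|) (fun _ _ => abs_nonneg _) h0
  have hAs : A < Real.exp (s * δ) := by
    rwa [← Real.log_lt_iff_lt_exp (by linarith)]
  have e1 : E S a (s • x) = Real.exp (s * pr g₀ x) +
      ∑ g ∈ S.erase g₀, (a g : ℝ) * Real.exp (s * pr g x) := by
    rw [E, ← Finset.add_sum_erase S _ h0]
    simp only [pr_smul, a0, Int.cast_one, one_mul]
  have e2 : -(A * Real.exp (s * pr g₀ x - s * δ)) ≤
      ∑ g ∈ S.erase g₀, (a g : ℝ) * Real.exp (s * pr g x) := by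
    have h1 : -(∑ g ∈ S.erase g₀, |(a g : ℝ)| * Real.exp (s * pr g₀ x - s * δ)) ≤
        ∑ g ∈ S.erase g₀, (a g : ℝ) * Real.exp (s * pr g x) := by
      rw [← Finset.sum_neg_distrib]
      refine Finset.sum_le_sum fun g hg => ?_
      have h2 := hx g (Finset.mem_of_mem_erase hg) (Finset.ne_of_mem_erase hg)
      have h3 : Real.exp (s * pr g x) ≤ Real.exp (s * pr g₀ x - s * δ) := by
        rw [Real.exp_le_exp]; nlinarith
      have h4 := neg_abs_le (a g : ℝ)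
      have h5 := Real.exp_pos (s * pr g x)
      have h6 := abs_nonneg (a g : ℝ)
      calc -(|(a g : ℝ)| * Real.exp (s * pr g₀ x - s * δ)) ≤ -(|(a g : ℝ)| * Real.exp (s * pr g x)) := by
            apply neg_le_neg; gcongr
        _ = (-|(a g : ℝ)|) * Real.exp (s * pr g x) := by ring
        _ ≤ (a g : ℝ) * Real.exp (s * pr g x) := by gcongr
    refine le_trans ?_ h1
    apply neg_le_neg
    rw [← Finset.sum_mul]
    have : ∑ h ∈ S.erase g₀, |(a h : ℝ)| ≤ A :=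
      Finset.sum_le_sum_of_subset_of_nonneg (Finset.erase_subset _ _) (fun _ _ _ => abs_nonneg _)
    gcongr
  rw [e1]
  have e3 : Real.exp (s * pr g₀ x - s * δ) = Real.exp (s * pr g₀ x) / Real.exp (s * δ) :=
    Real.exp_sub _ _
  have h7 := Real.exp_pos (s * pr g₀ x)
  have h8 := Real.exp_pos (s * δ)
  have h9 : A * Real.exp (s * pr g₀ x - s * δ) < Real.exp (s * pr g₀ x) := by
    rw [e3, mul_div_assoc', div_lt_iff₀ h8]
    nlinarith
  linarith

/-- uniform gap at a point of the cone. -/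
theorem gap_point {S : Finset (ι → ℤ)} {g₀ : ι → ℤ} (x : ι → ℝ)
    (hx : ∀ g ∈ S, g ≠ g₀ → pr g x < pr g₀ x) :
    ∃ δ > 0, ∀ g ∈ S, g ≠ g₀ → pr g x + δ ≤ pr g₀ x := by
  classical
  by_cases hne : (S.erase g₀).Nonempty
  · obtain ⟨g', hg', hmin⟩ := Finset.exists_min_image (S.erase g₀) (fun g => pr g₀ x - pr g x) hne
    refine ⟨pr g₀ x - pr g' x, ?_, fun g hg h => ?_⟩
    · have := hx g' (Finset.mem_of_mem_erase hg') (Finset.ne_of_mem_erase hg')
      linarith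
    · have := hmin g (Finset.mem_erase.mpr ⟨h, hg⟩)
      linarith
  · refine ⟨1, one_pos, fun g hg h => ?_⟩
    exact absurd ⟨g, Finset.mem_erase.mpr ⟨h, hg⟩⟩ hne

/-- beyond the entropy `E` is positive. -/
theorem E_pos_beyond {S : Finset (ι → ℤ)} {a : (ι → ℤ) → ℤ} {g₀ g₁ : ι → ℤ} (h0 : g₀ ∈ S)
    (a0 : a g₀ = 1) {x : ι → ℝ} (hx : x ∈ Cone S g₀ g₁) {s : ℝ} (hs : IsEnt S a x s) (s' : ℝ)
    (hs' : s < s') : 0 < E S a (s' • x) := by
  obtain ⟨δ, hδ, hd⟩ := gap_point x hx.1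
  by_contra hcon
  push Not at hcon
  set A := Real.log (∑ g ∈ S, |(a g : ℝ)|) with hA
  let M := max s' ((|A| + 1) / δ)
  have hM : 0 < E S a (M • x) := by
    refine E_pos_of h0 a0 x δ hd M ?_ ?_
    · exact le_trans (le_of_lt (lt_trans hs.1 hs')) (le_max_left _ _)
    · have h1 : (|A| + 1) / δ ≤ M := le_max_right _ _
      rw [div_le_iff₀ hδ] at h1
      have := le_abs_self A
      linarith
  have hcont : ContinuousOn (fun r : ℝ => E S a (r • x)) (Set.Icc s' M) :=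
    ((continuous_E S a).comp (by fun_prop)).continuousOn
  have := intermediate_value_Icc (le_max_left s' ((|A| + 1) / δ)) hcont
  obtain ⟨r, hr, hr0⟩ := this ⟨hcon, hM.le⟩
  exact hs.2.2 r (lt_of_lt_of_le hs' hr.1) hr0

end MPG
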