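import Mathlib
import Pool.Agent.MPG.Geo

/-!
Lagrange condition at a minimum point, and uniqueness of the point of the unit entropy hypersurface with a
given normal direction.
-/

open Finset Filter Topology

namespace MPG

variable {ι : Type} [Fintype ι]

/-- Moving in a direction of positive derivative lowers the entropy. -/
theorem lagrange_one {S : Finset (ι → ℤ)} {a : (ι → ℤ) → ℤ} {g₀ g₁ : ι → ℤ} (h0 : g₀ ∈ S)
    (a0 : a g₀ = 1) {m : ι → ℝ} (hm : m ∈ Cone S g₀ g₁) {s₀ : ℝ} (hs : IsEnt S a m s₀)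
    (v : ι → ℝ) (hv : 0 < Phi S a (s₀ • m) v) :
    ∀ᶠ ε in 𝓝 (0 : ℝ), 0 < ε → ∀ s, s₀ ≤ s → 0 < E S a (s • (m + ε • v)) := by
  classical
  obtain ⟨δ, hδ, hd⟩ := gap_point m hm.1
  have hs0 : 0 < s₀ := hs.1
  set A := Real.log (∑ g ∈ S, |(a g : ℝ)|) with hA
  -- far region
  have far1 : ∀ᶠ ε in 𝓝 (0 : ℝ), ∀ g ∈ S, g ≠ g₀ → pr g (m + ε • v) + δ / 2 ≤ pr g₀ (m + ε • v) := by
    rw [Filter.eventually_all_finset]
    intro g hg
    by_cases hne : g = g₀
    · exact Filter.Eventually.of_forall fun ε h => absurd hne h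
    · have c1 : Continuous fun ε : ℝ => pr g (m + ε • v) + δ / 2 :=
        ((continuous_pr g).comp (by fun_prop)).add continuous_const
      have c2 : Continuous fun ε : ℝ => pr g₀ (m + ε • v) := (continuous_pr g₀).comp (by fun_prop)
      have hlt : pr g (m + (0 : ℝ) • v) + δ / 2 < pr g₀ (m + (0 : ℝ) • v) := by
        have := hd g hg hne
        simp only [zero_smul, add_zero]; linarith
      exact (c1.continuousAt.eventually_lt c2.continuousAt hlt).mono fun ε h _ => h.le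
  let M : ℝ := max s₀ ((|A| + 1) / (δ / 2))
  have far2 : ∀ᶠ ε in 𝓝 (0 : ℝ), ∀ s, M ≤ s → 0 < E S a (s • (m + ε • v)) := by
    filter_upwards [far1] with ε h s hMs
    have h1 : (|A| + 1) / (δ / 2) ≤ s := le_trans (le_max_right _ _) hMs
    have h2 : s₀ ≤ s := le_trans (le_max_left _ _) hMs
    refine E_pos_of h0 a0 _ (δ / 2) h s (by linarith) ?_
    rw [div_le_iff₀ (by positivity)] at h1
    have := le_abs_self A
    linarith
  -- compact region
  have near : ∀ᶠ ε in 𝓝 (0 : ℝ), ∀ s ∈ Set.Icc s₀ M, 0 < ε → s₀ ≤ s → 0 < E S a (s • (m + ε • v)) := by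
    refine isCompact_Icc.eventually_forall_of_forall_eventually fun s hsI => ?_
    have cont : Continuous fun z : ℝ × ℝ => E S a (z.2 • (m + z.1 • v)) :=
      (continuous_E S a).comp (by fun_prop)
    rcases eq_or_lt_of_le hsI.1 with heq | hlt
    · -- s = s₀
      subst heq
      have hst := (hasStrictFDerivAt_E S a (s₀ • m)).isLittleO
      have hd0 : 0 < Phi S a (s₀ • m) v := hv
      -- choose the constant
      have hnorm : (0 : ℝ) < ‖v‖ + 1 := by positivity
      let κ : ℝ := Phi S a (s₀ • m) v / (2 * (‖v‖ + 1))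
      have hκ : 0 < κ := by positivity
      have hO := (Asymptotics.isLittleO_iff.mp hst) hκ
      -- pull back to (ε, s)
      have hcontpair : Tendsto (fun z : ℝ × ℝ => (z.2 • (m + z.1 • v), z.2 • m)) (𝓝 (0, s₀))
          (𝓝 (s₀ • m, s₀ • m)) := by
        have hc : Continuous fun z : ℝ × ℝ => (z.2 • (m + z.1 • v), z.2 • m) := by fun_prop
        have := hc.tendsto (0, s₀)
        simpa using this
      have hO' := hcontpair.eventually hO
      filter_upwards [hO'] with z hz hz1 hz2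
      have e1 : z.2 • (m + z.1 • v) - z.2 • m = (z.2 * z.1) • v := by
        rw [smul_add, smul_smul, add_sub_cancel_left]
      rw [e1] at hz
      have e2 : (dE S a (s₀ • m)) ((z.2 * z.1) • v) = z.2 * z.1 * Phi S a (s₀ • m) v := by
        rw [dE_apply, Phi_smul]
      simp only [e1, e2] at hz
      have hz2pos : 0 < z.2 := lt_of_lt_of_le hs0 hz2
      have hpos : 0 < z.2 * z.1 := mul_pos hz2pos hz1
      rw [norm_smul, Real.norm_of_nonneg hpos.le, Real.norm_eq_abs] at hz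
      have hz3 := (abs_le.mp hz).1
      have hE0 : 0 ≤ E S a (z.2 • m) := by
        rcases eq_or_lt_of_le hz2 with h | h
        · rw [← h, hs.2.1]
        · exact (E_pos_beyond h0 a0 hm hs z.2 h).le
      have hκ2 : κ * (z.2 * z.1 * ‖v‖) < z.2 * z.1 * Phi S a (s₀ • m) v := by
        have h5 : κ * ‖v‖ < Phi S a (s₀ • m) v := by
          have h6 : κ * ‖v‖ ≤ κ * (‖v‖ + 1) := by gcongr; linarith
          have h7 : κ * (‖v‖ + 1) = Phi S a (s₀ • m) v / 2 := by
            simp only [κ]; field_simp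
          linarith
        calc κ * (z.2 * z.1 * ‖v‖) = z.2 * z.1 * (κ * ‖v‖) := by ring
          _ < z.2 * z.1 * Phi S a (s₀ • m) v := by gcongr
      linarith
    · have h1 : 0 < E S a (s • (m + (0 : ℝ) • v)) := by
        rw [zero_smul, add_zero]; exact E_pos_beyond h0 a0 hm hs s hlt
      have h2 : ∀ᶠ z : ℝ × ℝ in 𝓝 ((0 : ℝ), s), 0 < E S a (z.2 • (m + z.1 • v)) :=
        cont.continuousAt.eventually_const_lt h1
      exact h2.mono fun z hz _ _ => hz
  filter_upwards [far2, near] with ε hf hn hε s hs'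
  rcases le_total s M with h | h
  · exact hn s ⟨hs', h⟩ hε hs'
  · exact hf s h

variable (D : Datum ι)

/-- Lagrange condition. -/
theorem lagrange {p q : ℤ} {m : ι → ℝ} (t : ℝ) (hm : m ∈ D.cone) (ht1 : pr D.μ m = -q * t)
    (ht2 : pr D.lam m = p * t) (ht3 : pr D.e m - |t| = 1) (ht : t ≠ 0) {s₀ : ℝ}
    (hs : IsEnt D.S D.a m s₀)
    (hmin : ∀ m' ∈ D.Face p q, ∀ s', IsEnt D.S D.a m' s' → s₀ ≤ s')
    (v : ι → ℝ) (τ : ℝ) (hv1 : pr D.μ v = -q * τ) (hv2 : pr D.lam v = p * τ)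
    (hv3 : pr D.e v = SignType.sign t * τ) : Phi D.S D.a (s₀ • m) v ≤ 0 := by
  by_contra hcon
  push Not at hcon
  have h1 := lagrange_one D.g₀_mem D.a₀ hm hs v hcon
  have h2 := eventually_cone hm v
  have h3 : ∀ᶠ ε in 𝓝 (0 : ℝ), |t + ε * τ| = |t| + ε * (SignType.sign t * τ) := by
    rcases lt_or_gt_of_ne ht with hneg | hpos
    · have hc : Continuous fun ε : ℝ => t + ε * τ := by fun_prop
      have : ∀ᶠ ε in 𝓝 (0 : ℝ), t + ε * τ < 0 :=
        hc.continuousAt.eventually_lt continuousAt_const (by simpa using hneg)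
      filter_upwards [this] with ε hε
      rw [abs_of_neg hε, abs_of_neg hneg, sign_neg hneg]
      simp; ring
    · have hc : Continuous fun ε : ℝ => t + ε * τ := by fun_prop
      have : ∀ᶠ ε in 𝓝 (0 : ℝ), 0 < t + ε * τ :=
        hc.continuousAt.eventually_const_lt (by simpa using hpos)
      filter_upwards [this] with ε hε
      rw [abs_of_pos hε, abs_of_pos hpos, sign_pos hpos]
      simp
  have h4 : ∀ᶠ ε in 𝓝[>] (0 : ℝ), False := by
    have h5 : ∀ᶠ ε in 𝓝[>] (0 : ℝ), 0 < ε := eventually_mem_nhdsWithin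
    filter_upwards [h1.filter_mono nhdsWithin_le_nhds, h2.filter_mono nhdsWithin_le_nhds,
      h3.filter_mono nhdsWithin_le_nhds, h5] with ε a1 a2 a3 a4
    have hF : m + ε • v ∈ D.Face p q := by
      refine ⟨a2, t + ε * τ, ?_, ?_, ?_⟩
      · rw [pr_add, pr_smul, ht1, hv1]; ring
      · rw [pr_add, pr_smul, ht2, hv2]; ring
      · rw [pr_add, pr_smul, hv3, a3]; linarith
    obtain ⟨s', hs'⟩ := D.ent _ a2
    have h6 := hmin _ hF s' hs'
    have h7 := a1 a4 s' h6
    rw [hs'.2.1] at h7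
    exact lt_irrefl _ h7
  exact (h4.exists).elim fun _ h => h

/-- Slopes from the right. -/
theorem phi_nonneg {S : Finset (ι → ℤ)} {a : (ι → ℤ) → ℤ} (X v : ι → ℝ) (hX : E S a X = 0)
    (h : ∀ᶠ τ in 𝓝[>] (0 : ℝ), 0 ≤ E S a (X + τ • v)) : 0 ≤ Phi S a X v := by
  have hd : HasDerivAt (fun τ : ℝ => E S a (X + τ • v)) (Phi S a X v) 0 := by
    have h1 := (hasStrictFDerivAt_E S a (X + (0 : ℝ) • v)).hasFDerivAt
    have h2 : HasDerivAt (fun τ : ℝ => X + τ • v) v 0 := by
      simpa using ((hasDerivAt_id (0 : ℝ)).smul_const v).const_add X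
    have h3 := h1.comp_hasDerivAt (0 : ℝ) h2
    rw [zero_smul, add_zero, dE_apply] at h3
    exact h3
  have ht := hd.tendsto_slope_zero_right
  refine ge_of_tendsto ht ?_
  have h5 : ∀ᶠ τ in 𝓝[>] (0 : ℝ), 0 < τ := eventually_mem_nhdsWithin
  filter_upwards [h, h5] with τ h1 h2
  simp only [zero_add, zero_smul, add_zero, hX, sub_zero, smul_eq_mul]
  positivity

theorem phi_self_pos {X : ι → ℝ} (hX : X ∈ D.cone) (h1 : IsEnt D.S D.a X 1) :
    0 < Phi D.S D.a X X := by
  have h2 : 0 ≤ Phi D.S D.a X X := by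
    refine phi_nonneg X X (by simpa using h1.2.1) ?_
    have h5 : ∀ᶠ τ in 𝓝[>] (0 : ℝ), 0 < τ := eventually_mem_nhdsWithin
    filter_upwards [h5] with τ hτ
    have : X + τ • X = (1 + τ) • X := by rw [add_smul, one_smul]
    rw [this]
    exact (E_pos_beyond D.g₀_mem D.a₀ hX h1 (1 + τ) (by linarith)).le
  exact lt_of_le_of_ne h2 (Ne.symm (D.simple X hX h1))

/-- strict convexity along a segment. -/
theorem seg {X Y : ι → ℝ} (hX : X ∈ D.cone) (hY : Y ∈ D.cone) (h1 : IsEnt D.S D.a X 1)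
    (h2 : IsEnt D.S D.a Y 1) (hne : X ≠ Y) (τ : ℝ) (hτ0 : 0 < τ) (hτ1 : τ < 1) :
    ∃ u, u < 1 ∧ IsEnt D.S D.a ((1 - τ) • X + τ • Y) u := by
  have hx : (1 - τ) • X ∈ D.cone := cone_smul hX (by linarith)
  have hy : τ • Y ∈ D.cone := cone_smul hY hτ0
  obtain ⟨u, hu⟩ := D.ent _ (cone_add hx hy)
  refine ⟨u, ?_, hu⟩
  have hprop : ∀ c : ℝ, τ • Y ≠ c • ((1 - τ) • X) := by
    intro c hc
    have hY' : Y = (c * (1 - τ) / τ) • X := by
      have : τ⁻¹ • (τ • Y) = τ⁻¹ • (c • ((1 - τ) • X)) := by rw [hc]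
      rw [smul_smul, inv_mul_cancel₀ hτ0.ne', one_smul, smul_smul, smul_smul] at this
      rw [this]
      congr 1
      field_simp
    set c' := c * (1 - τ) / τ with hc'
    have hpos : 0 < c' := by
      have q1 := hX.2 D.g₀ D.g₀_mem D.ne
      have q2 := hY.2 D.g₀ D.g₀_mem D.ne
      rw [hY', pr_smul, pr_smul] at q2
      by_contra hle
      push Not at hle
      nlinarith
    have h3 := h1.smul hpos
    rw [← hY'] at h3
    have h4 := h3.unique h2
    have h5 : c' = 1 := by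
      rw [div_eq_iff hpos.ne'] at h4; linarith
    apply hne
    rw [hY', h5, one_smul]
  have h3 := D.convex _ hx _ hy hprop (1 / (1 - τ)) (1 / τ) u (h1.smul (by linarith)) (h2.smul hτ0) hu
  rw [one_div_one_div, one_div_one_div] at h3
  have h4 : 1 < 1 / u := by linarith
  rwa [lt_div_iff₀ hu.1, one_mul] at h4

theorem normal_ineq {X Y : ι → ℝ} (hX : X ∈ D.cone) (hY : Y ∈ D.cone) (h1 : IsEnt D.S D.a X 1)
    (h2 : IsEnt D.S D.a Y 1) : 0 ≤ Phi D.S D.a X (Y - X) := by
  by_cases hne : X = Y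
  · rw [hne, sub_self]
    have : Phi D.S D.a Y ((0 : ℝ) • (0 : ι → ℝ)) = 0 := by rw [Phi_smul, zero_mul]
    rw [zero_smul] at this
    rw [this]
  refine phi_nonneg X (Y - X) (by simpa using h1.2.1) ?_
  have h5 : ∀ᶠ τ in 𝓝[>] (0 : ℝ), 0 < τ := eventually_mem_nhdsWithin
  have h6 : ∀ᶠ τ in 𝓝[>] (0 : ℝ), τ < 1 :=
    (eventually_lt_nhds (show (0 : ℝ) < 1 by norm_num)).filter_mono nhdsWithin_le_nhds
  filter_upwards [h5, h6] with τ hτ0 hτ1
  obtain ⟨u, hu1, hu⟩ := seg D hX hY h1 h2 hne τ hτ0 hτ1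
  have hc : (1 - τ) • X + τ • Y ∈ D.cone := cone_add (cone_smul hX (by linarith)) (cone_smul hY hτ0)
  have h7 := E_pos_beyond D.g₀_mem D.a₀ hc hu 1 hu1
  rw [one_smul] at h7
  have h8 : X + τ • (Y - X) = (1 - τ) • X + τ • Y := by
    rw [smul_sub, sub_smul, one_smul]; abel
  rw [h8]; exact h7.le

/-- the Gauss map is injective. -/
theorem gauss_inj {X Y : ι → ℝ} (hX : X ∈ D.cone) (hY : Y ∈ D.cone) (h1 : IsEnt D.S D.a X 1)
    (h2 : IsEnt D.S D.a Y 1) (κ : ℝ) (hκ : ∀ v, Phi D.S D.a Y v = κ * Phi D.S D.a X v) : X = Y := by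
  by_contra hne
  have n1 := normal_ineq D hX hY h1 h2
  have n2 := normal_ineq D hY hX h2 h1
  have p1 := phi_self_pos D hX h1
  have p2 := phi_self_pos D hY h2
  rw [hκ] at n2 p2
  rw [Phi_sub] at n1 n2
  set nX := Phi D.S D.a X X
  set nY := Phi D.S D.a X Y
  have hκpos : 0 < κ := by
    by_contra hle
    push Not at hle
    nlinarith
  have heq : nY = nX := by nlinarith
  obtain ⟨u, hu1, hu⟩ := seg D hX hY h1 h2 hne (1 / 2) (by norm_num) (by norm_num)
  have hc : (1 - (1 / 2 : ℝ)) • X + (1 / 2 : ℝ) • Y ∈ D.cone :=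
    cone_add (cone_smul hX (by norm_num)) (cone_smul hY (by norm_num))
  have hu0 := hu.1
  have h3 := hu.smul hu0
  rw [div_self hu0.ne'] at h3
  have n3 := normal_ineq D hX (cone_smul hc hu0) h1 h3
  rw [Phi_sub, Phi_smul, Phi_add, Phi_smul, Phi_smul] at n3
  change 0 ≤ u * ((1 - 1 / 2) * nX + 1 / 2 * nY) - nX at n3
  rw [heq] at n3
  nlinarith

end MPG
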