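import Mathlib

/-!
Real estimates for the fillings of the magic manifold with large slope.
-/

namespace MPG.Large

open Real

theorem exp_bounds : (3.315 : ℝ) < exp (6 / 5) ∧ exp (6 / 5) < 3.4 := by
  constructor
  · have h := Real.sum_le_exp_of_nonneg (show (0 : ℝ) ≤ 6 / 5 by norm_num) 6
    refine lt_of_lt_of_le ?_ h
    simp [Finset.sum_range_succ, Nat.factorial]
    norm_num
  · have h1 : exp (6 / 5) = exp 1 * exp (1 / 5) := by rw [← exp_add]; norm_num
    have h2 : exp (1 / 5) ≤ 1.25 := by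
      have h3 := Real.one_sub_le_exp_neg (1 / 5 : ℝ)
      rw [exp_neg] at h3
      have h4 := exp_pos (1 / 5 : ℝ)
      have h5 : (1 - 1 / 5 : ℝ) * exp (1 / 5) ≤ 1 := by
        calc (1 - 1 / 5 : ℝ) * exp (1 / 5) ≤ (exp (1 / 5))⁻¹ * exp (1 / 5) := by gcongr
          _ = 1 := inv_mul_cancel₀ h4.ne'
      linarith
    have h3 := Real.exp_one_lt_d9
    rw [h1]
    have h4 := exp_pos (1 / 5 : ℝ)
    have h5 := exp_pos (1 : ℝ)
    nlinarith

theorem sinh_bounds : (3 / 2 : ℝ) < sinh (6 / 5) ∧ sinh (6 / 5) < 1.555 := by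
  obtain ⟨h1, h2⟩ := exp_bounds
  have h3 := exp_pos (6 / 5 : ℝ)
  rw [sinh_eq, exp_neg]
  constructor
  · have h4 : (exp (6 / 5))⁻¹ < 0.302 := by
      rw [inv_lt_comm₀ h3 (by norm_num)]
      refine lt_of_le_of_lt ?_ h1
      norm_num
    linarith
  · have h4 : (0.29 : ℝ) < (exp (6 / 5))⁻¹ := by
      rw [lt_inv_comm₀ (by norm_num) h3]
      refine lt_trans h2 ?_
      norm_num
    linarith

theorem beta_lower {β : ℝ} (hβ : 0 < β) (h : 0.999 * cosh β ≤ β * sinh β) : 3 / 2 < sinh β := by
  by_contra hcon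
  push Not at hcon
  have hS : 0 < sinh β := sinh_pos_iff.mpr hβ
  have hb : β < 6 / 5 := sinh_lt_sinh.mp (lt_of_le_of_lt hcon sinh_bounds.1)
  have hc := cosh_sq β
  have hc0 := cosh_pos β
  have h1 : (0.999 * cosh β) ^ 2 ≤ (β * sinh β) ^ 2 := by gcongr
  have h2 : (β * sinh β) ^ 2 ≤ (6 / 5 * sinh β) ^ 2 := by gcongr
  have h3 : sinh β ^ 2 ≤ (3 / 2) ^ 2 := by gcongr
  nlinarith

theorem beta_upper {β : ℝ} (hβ : 0 < β) (h : β * sinh β ≤ 1.001 * cosh β) : sinh β ^ 2 < 49 / 20 := by
  by_contra hcon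
  push Not at hcon
  have hS : 0 < sinh β := sinh_pos_iff.mpr hβ
  have hb : 6 / 5 < β := by
    apply sinh_lt_sinh.mp
    have h1 := sinh_bounds.2
    have h2 : (1.555 : ℝ) ^ 2 < sinh β ^ 2 := lt_of_lt_of_le (by norm_num) hcon
    exact lt_trans h1 (lt_of_pow_lt_pow_left₀ 2 hS.le h2)
  have hc := cosh_sq β
  have hc0 := cosh_pos β
  have h1 : (β * sinh β) ^ 2 ≤ (1.001 * cosh β) ^ 2 := by gcongr
  have h2 : (6 / 5 * sinh β) ^ 2 ≤ (β * sinh β) ^ 2 := by gcongr
  nlinarith

theorem exp_neg_upper {y : ℝ} (hy : 0 ≤ y) : exp (-y) ≤ 1 - y + y ^ 2 / 2 := by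
  have h1 : 0 < exp y := exp_pos y
  have h2 : 1 + y + y ^ 2 / 2 ≤ exp y := Real.quadratic_le_exp_of_nonneg hy
  have h3 : exp (-y) * exp y = 1 := by rw [← exp_add]; simp
  have h4 := exp_pos (-y)
  have h5 : exp (-y) * (1 + y + y ^ 2 / 2) ≤ 1 := by
    calc exp (-y) * (1 + y + y ^ 2 / 2) ≤ exp (-y) * exp y := by gcongr
      _ = 1 := h3
  have h6 : (1 - y + y ^ 2 / 2) * (1 + y + y ^ 2 / 2) = 1 + y ^ 4 / 4 := by ring
  have h7 : 0 < 1 + y + y ^ 2 / 2 := by positivity
  by_contra hcon
  push Not at hcon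
  have h8 : (1 - y + y ^ 2 / 2) * (1 + y + y ^ 2 / 2) < exp (-y) * (1 + y + y ^ 2 / 2) := by gcongr
  have h9 : 0 ≤ y ^ 4 / 4 := by positivity
  linarith

theorem exp_upper {y : ℝ} (hy : 0 ≤ y) (hy1 : y ≤ 1 / 2) : exp y ≤ 1 + 2 * y := by
  have h1 := Real.one_sub_le_exp_neg y
  have h2 := exp_pos y
  have h3 : exp (-y) * exp y = 1 := by rw [← exp_add]; simp
  have h4 : (1 - y) * exp y ≤ 1 := by
    calc (1 - y) * exp y ≤ exp (-y) * exp y := by gcongr
      _ = 1 := h3
  by_contra hcon
  push Not at hcon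
  have h5 : (1 - y) * (1 + 2 * y) < (1 - y) * exp y := by
    apply mul_lt_mul_of_pos_left hcon; linarith
  nlinarith

theorem sinh_upper {y : ℝ} (hy : 0 ≤ y) (hy1 : y ≤ 1 / 2) : sinh y ≤ 2 * y := by
  rw [sinh_eq]
  have h1 := exp_upper hy hy1
  have h2 := Real.one_sub_le_exp_neg y
  linarith

theorem cosh_sub_le {a y : ℝ} (ha : 0 ≤ a) : cosh a - cosh (a - y) ≤ y * sinh a := by
  rw [cosh_sub]
  have h1 : sinh a ≤ cosh a := (sinh_lt_cosh a).le
  have h2 : 0 ≤ sinh a := sinh_nonneg_iff.mpr ha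
  have h3 : 1 ≤ cosh y := one_le_cosh y
  have h4 : sinh y - y ≤ cosh y - 1 := by
    have h5 := Real.cosh_sub_sinh y
    have h6 := Real.one_sub_le_exp_neg y
    linarith
  have h7 : sinh a * (sinh y - y) ≤ sinh a * (cosh y - 1) := by gcongr
  have h8 : sinh a * (cosh y - 1) ≤ cosh a * (cosh y - 1) := by
    have : 0 ≤ cosh y - 1 := by linarith
    gcongr
  nlinarith

/-- The real estimates. -/
theorem real_est {s a c β : ℝ} (hs : 100000 ≤ s) (hβ : 0 < β) (hβa : β < a) (hac : a - c = β / s)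
    (hcosh : cosh a = cosh β + cosh c) (h1 : s * sinh β ≤ sinh a) (h2 : sinh c ≤ s * sinh β) :
    3 / 2 < sinh β ∧ sinh β ^ 2 < 49 / 20 ∧ 2 / s * cosh a ≤ 2 * sinh β + 24 / s ∧ 3 * s ≤ exp a := by
  have hs0 : 0 < s := by linarith
  set y := β / s with hy
  have hy0 : 0 < y := div_pos hβ hs0
  have hys : y * s = β := by rw [hy]; field_simp
  have ha0 : 0 < a := lt_trans hβ hβa
  have hc : c = a - y := by linarith
  have hc0 : 0 < c := by
    have : y < a / s := by rw [hy]; gcongr
    have h3 : a / s ≤ a := div_le_self ha0.le (by linarith)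
    linarith
  have hS0 : 0 < sinh β := sinh_pos_iff.mpr hβ
  have hC1 : 1 ≤ cosh β := one_le_cosh β
  have hSC : sinh β < cosh β := sinh_lt_cosh β
  have hCS : cosh β ≤ sinh β + 1 := by
    have h5 := Real.cosh_sub_sinh β
    have h6 : exp (-β) ≤ 1 := by rw [exp_le_one_iff]; linarith
    linarith
  -- star
  have star : (1 - exp (-y)) * (s * sinh β - 1 / 2) ≤ cosh β := by
    have e1 : cosh a - cosh c = (1 - exp (-y)) * ((exp a - exp (-c)) / 2) := by
      rw [cosh_eq, cosh_eq]
      have e2 : exp c = exp a * exp (-y) := by rw [← exp_add, hc, sub_eq_add_neg]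
      have e3 : exp (-a) = exp (-c) * exp (-y) := by rw [← exp_add]; congr 1; linarith
      rw [e2, e3]; ring
    have e4 : exp (-c) ≤ 1 := by rw [exp_le_one_iff]; linarith
    have e5 : s * sinh β ≤ exp a / 2 := by
      refine h1.trans ?_
      rw [sinh_eq]
      have := exp_pos (-a)
      linarith
    have e6 : 0 ≤ 1 - exp (-y) := by
      have : exp (-y) ≤ 1 := by rw [exp_le_one_iff]; linarith
      linarith
    have e7 : s * sinh β - 1 / 2 ≤ (exp a - exp (-c)) / 2 := by linarith
    calc (1 - exp (-y)) * (s * sinh β - 1 / 2) ≤ (1 - exp (-y)) * ((exp a - exp (-c)) / 2) := by gcongr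
      _ = cosh a - cosh c := e1.symm
      _ = cosh β := by linarith
  have hself : β ≤ sinh β := (Real.self_le_sinh_iff.mpr hβ.le)
  -- β < 3 and the upper estimate
  have both : β < 3 ∧ β * sinh β ≤ 1.001 * cosh β := by
    by_cases hpos' : 0 ≤ s * sinh β - 1 / 2
    · have hy1 : y < 1 := by
        by_contra hcon
        push Not at hcon
        have f1 : exp (-y) ≤ 0.5 := by
          have h5 : exp (-y) ≤ exp (-1) := by rw [exp_le_exp]; linarith
          refine h5.trans ?_
          rw [exp_neg, inv_le_comm₀ (exp_pos _) (by norm_num)]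
          have h6 := Real.exp_one_gt_d9
          norm_num
          linarith
        have f2 : s ≤ β := by
          rw [hy, le_div_iff₀ hs0] at hcon; linarith
        have f4 : 0.5 * (s * sinh β - 1 / 2) ≤ (1 - exp (-y)) * (s * sinh β - 1 / 2) := by
          apply mul_le_mul_of_nonneg_right _ hpos'; linarith
        nlinarith
      have hexp1 : y - y ^ 2 / 2 ≤ 1 - exp (-y) := by
        have := exp_neg_upper hy0.le
        linarith
      have star2 : (y - y ^ 2 / 2) * (s * sinh β - 1 / 2) ≤ cosh β :=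
        le_trans (mul_le_mul_of_nonneg_right hexp1 hpos') star
      have hβ3 : β < 3 := by
        by_contra hcon
        push Not at hcon
        have f1 : y / 2 ≤ y - y ^ 2 / 2 := by nlinarith
        have f2 : y / 2 * (s * sinh β - 1 / 2) ≤ cosh β :=
          le_trans (mul_le_mul_of_nonneg_right f1 hpos') star2
        have f3 : y / 2 * (s * sinh β - 1 / 2) = β * sinh β / 2 - y / 4 := by
          rw [← hys]; ring
        rw [f3] at f2
        have f5 : 3 + 3 ^ 3 / 6 ≤ sinh β := by
          refine le_trans ?_ (sinh_le_sinh.mpr hcon)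
          rw [sinh_eq]
          have h7 := Real.sum_le_exp_of_nonneg (show (0 : ℝ) ≤ 3 by norm_num) 6
          simp [Finset.sum_range_succ, Nat.factorial] at h7
          have h8 : exp (-3) ≤ 1 := by rw [exp_le_one_iff]; norm_num
          norm_num at h7 ⊢
          linarith
        nlinarith
      refine ⟨hβ3, ?_⟩
      have hysmall : y ≤ 0.00003 := by
        rw [hy, div_le_iff₀ hs0]; nlinarith
      have f1 : (y - y ^ 2 / 2) * (s * sinh β - 1 / 2) =
          (1 - y / 2) * (β * sinh β) - y / 2 * (1 - y / 2) := by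
        rw [← hys]; ring
      rw [f1] at star2
      have f2 : y / 2 * (1 - y / 2) ≤ y / 2 := by nlinarith
      have f3 : β * sinh β ≤ 3 * cosh β := by nlinarith
      nlinarith
    · push Not at hpos'
      have f1 : s * β < 1 / 2 := by
        have : s * β ≤ s * sinh β := by gcongr
        linarith
      have f2 : β < 1 / 2 := by nlinarith
      have f3 : sinh β < 1 / 2 := by nlinarith
      refine ⟨by linarith, ?_⟩
      nlinarith
  obtain ⟨hβ3, up⟩ := both
  have hysmall : y ≤ 0.00003 := by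
    rw [hy, div_le_iff₀ hs0]; nlinarith
  -- lower
  have ha_eq : sinh a ≤ exp y * (s * sinh β) + sinh y := by
    have e1 : sinh a = exp y * sinh c + exp (-c) * sinh y := by
      have e2 : a = c + y := by linarith
      rw [e2, sinh_add]
      have e3 := Real.cosh_sub_sinh c
      have e4 := Real.cosh_add_sinh y
      rw [← e4]
      have e5 : cosh c = sinh c + exp (-c) := by linarith
      rw [e5]; ring
    have e4 : exp (-c) ≤ 1 := by rw [exp_le_one_iff]; linarith
    have e5 : 0 ≤ sinh y := sinh_nonneg_iff.mpr hy0.le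
    rw [e1]
    have e6 : exp y * sinh c ≤ exp y * (s * sinh β) := by
      have := exp_pos y
      gcongr
    have e7 : exp (-c) * sinh y ≤ 1 * sinh y := by gcongr
    linarith
  have hey : exp y ≤ 1 + 2 * y := exp_upper hy0.le (by linarith)
  have hsy : sinh y ≤ 2 * y := sinh_upper hy0.le (by linarith)
  have low : 0.999 * cosh β ≤ β * sinh β := by
    have f1 : cosh β ≤ y * sinh a := by
      have := cosh_sub_le (y := y) ha0.le
      rw [← hc] at this
      linarith
    have f2 : y * sinh a ≤ y * (exp y * (s * sinh β) + sinh y) := by gcongr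
    have f3 : y * (exp y * (s * sinh β) + sinh y) = exp y * (β * sinh β) + y * sinh y := by
      rw [← hys]; ring
    have f4 : exp y * (β * sinh β) ≤ (1 + 2 * y) * (β * sinh β) := by
      have : 0 ≤ β * sinh β := by positivity
      gcongr
    have f5 : y * sinh y ≤ y * (2 * y) := by gcongr
    nlinarith
  have g1 := beta_lower hβ low
  have g2 := beta_upper hβ up
  refine ⟨g1, g2, ?_, ?_⟩
  · have f0 : sinh β < 1.6 := by nlinarith
    have f1 : cosh a ≤ sinh a + 1 := by
      have h5 := Real.cosh_sub_sinh a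
      have h6 : exp (-a) ≤ 1 := by rw [exp_le_one_iff]; linarith
      linarith
    have f2 : exp y * (s * sinh β) ≤ (1 + 2 * y) * (s * sinh β) := by
      have : 0 ≤ s * sinh β := by positivity
      gcongr
    have f3 : cosh a ≤ (1 + 2 * y) * (s * sinh β) + 2 := by linarith
    have f4 : (1 + 2 * y) * (s * sinh β) = s * sinh β + 2 * β * sinh β := by
      rw [← hys]; ring
    rw [f4] at f3
    have f5 : cosh a ≤ s * sinh β + 12 := by nlinarith
    calc 2 / s * cosh a ≤ 2 / s * (s * sinh β + 12) := by gcongr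
      _ = 2 * sinh β + 24 / s := by field_simp; ring
  · have f1 : sinh a ≤ exp a / 2 := by
      rw [sinh_eq]
      have := exp_pos (-a)
      linarith
    nlinarith

end MPG.Large
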