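import Mathlib
import Pool.Agent.MPG.LargeReal
import Pool.Agent.MAG.Alg

/-!
No rational minimum point for large slopes of the magic manifold.
-/

namespace MPG.Large

open Real

theorem cplx (w : ℂ) (hw : w ≠ 0) :
    ‖w - w⁻¹‖ ^ 2 = ‖w‖ ^ 2 + (‖w‖ ^ 2)⁻¹ - 2 + (2 * (|w.im| / ‖w‖)) ^ 2 ∧
    ‖(w - w⁻¹) ^ 2 - ((‖w‖ ^ 2 + (‖w‖ ^ 2)⁻¹ - 2 : ℝ) : ℂ)‖ ≤
      (‖w‖ ^ 2 + (‖w‖ ^ 2)⁻¹) * (2 * (|w.im| / ‖w‖)) := by
  have hpos : 0 < ‖w‖ := norm_pos_iff.mpr hw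
  have hn : ‖w‖ ^ 2 = w.re * w.re + w.im * w.im := by
    rw [← Complex.normSq_eq_norm_sq, Complex.normSq_apply]
  have hn0 : 0 < ‖w‖ ^ 2 := by positivity
  constructor
  · rw [← Complex.normSq_eq_norm_sq (w - w⁻¹), Complex.normSq_apply]
    have hre : (w - w⁻¹).re = w.re * (1 - (‖w‖ ^ 2)⁻¹) := by
      rw [Complex.sub_re, Complex.inv_re, Complex.normSq_eq_norm_sq]; ring
    have him : (w - w⁻¹).im = w.im * (1 + (‖w‖ ^ 2)⁻¹) := by
      rw [Complex.sub_im, Complex.inv_im, Complex.normSq_eq_norm_sq]; ring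
    rw [hre, him]
    have e1 : (2 * (|w.im| / ‖w‖)) ^ 2 = 4 * (w.im * w.im) * (‖w‖ ^ 2)⁻¹ := by
      rw [mul_pow, div_pow, sq_abs]; field_simp; ring
    rw [e1]
    have e2 : (‖w‖ ^ 2) * (‖w‖ ^ 2)⁻¹ = 1 := mul_inv_cancel₀ hn0.ne'
    set u := (‖w‖ ^ 2)⁻¹ with hu
    rw [hn] at e2 ⊢
    linear_combination (u - 2) * e2
  · have hconj : (w : ℂ) * (starRingEnd ℂ) w = ((‖w‖ ^ 2 : ℝ) : ℂ) := by
      rw [Complex.mul_conj, Complex.normSq_eq_norm_sq]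
    have hne : ((‖w‖ ^ 2 : ℝ) : ℂ) ≠ 0 := by exact_mod_cast hn0.ne'
    have hinv : w⁻¹ = (starRingEnd ℂ) w * (((‖w‖ ^ 2 : ℝ) : ℂ))⁻¹ := by
      apply inv_eq_of_mul_eq_one_right
      rw [← mul_assoc, hconj]
      exact mul_inv_cancel₀ hne
    have hsub : w - (starRingEnd ℂ) w = 2 * w.im * Complex.I := by
      apply Complex.ext <;> simp; ring
    have e1 : (w - w⁻¹) ^ 2 - ((‖w‖ ^ 2 + (‖w‖ ^ 2)⁻¹ - 2 : ℝ) : ℂ) =
        w * (w - (starRingEnd ℂ) w) - (starRingEnd ℂ) w * (w - (starRingEnd ℂ) w) *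
          ((((‖w‖ ^ 2 : ℝ) : ℂ))⁻¹) ^ 2 := by
      have hww : w * w⁻¹ = 1 := mul_inv_cancel₀ hw
      have hr : ((‖w‖ ^ 2 : ℝ) : ℂ) * (((‖w‖ ^ 2 : ℝ) : ℂ))⁻¹ = 1 := mul_inv_cancel₀ hne
      have hcast : ((‖w‖ ^ 2 + (‖w‖ ^ 2)⁻¹ - 2 : ℝ) : ℂ) =
          ((‖w‖ ^ 2 : ℝ) : ℂ) + (((‖w‖ ^ 2 : ℝ) : ℂ))⁻¹ - 2 := by push_cast; ring
      rw [hcast]
      set N : ℂ := ((‖w‖ ^ 2 : ℝ) : ℂ) with hN
      set b := (starRingEnd ℂ) w with hb
      rw [hinv] at hww ⊢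
      linear_combination (-2 : ℂ) * hww + hconj + (N⁻¹ ^ 2) * hconj + N⁻¹ * hr
    rw [e1]
    refine (norm_sub_le _ _).trans ?_
    rw [hsub]
    have hnI : ‖(2 : ℂ) * w.im * Complex.I‖ = 2 * |w.im| := by
      rw [norm_mul, norm_mul, Complex.norm_I, Complex.norm_real, Real.norm_eq_abs]; simp
    have hn1 : ‖((((‖w‖ ^ 2 : ℝ) : ℂ))⁻¹) ^ 2‖ = ((‖w‖ ^ 2)⁻¹) ^ 2 := by
      rw [norm_pow, norm_inv, Complex.norm_real, Real.norm_of_nonneg hn0.le]
    have hn2 : ‖w * ((2 : ℂ) * w.im * Complex.I)‖ = ‖w‖ * (2 * |w.im|) := by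
      rw [norm_mul, hnI]
    have hn3 : ‖(starRingEnd ℂ) w * ((2 : ℂ) * w.im * Complex.I) * ((((‖w‖ ^ 2 : ℝ) : ℂ))⁻¹) ^ 2‖ =
        ‖w‖ * (2 * |w.im|) * ((‖w‖ ^ 2)⁻¹) ^ 2 := by
      rw [norm_mul _ (((((‖w‖ ^ 2 : ℝ) : ℂ))⁻¹) ^ 2), hn1, norm_mul ((starRingEnd ℂ) w), hnI,
        RCLike.norm_conj]
    rw [hn2, hn3]
    apply le_of_eq
    field_simp

/-- the product is small at every conjugate. -/
theorem small_prod {s a β x : ℝ} (hs : 200000000 ≤ s) (hs' : (10 : ℝ) ^ 15 ≤ exp (log (3 * s) / 10000000))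
    (hβ : 0 < β) (ha : 0 < a) (g1 : 3 / 2 < sinh β) (g2 : sinh β ^ 2 < 49 / 20)
    (g3 : 2 / s * cosh a ≤ 2 * sinh β + 24 / s) (g4 : 3 * s ≤ exp a) (hx0 : 0 ≤ x) (hx1 : x ≤ 1)
    (w : ℂ) (hw : w ≠ 0) (hh : ‖w‖ ^ 2 + (‖w‖ ^ 2)⁻¹ = 2 * cosh (2 * β * x))
    (hS : ‖w - w⁻¹‖ ≤ 2 / s * cosh (a * x)) :
    ‖(w - w⁻¹) * ((w - w⁻¹) ^ 2 - 9) ^ 13‖ < 1 := by
  have hs0 : 0 < s := by linarith
  have hsinh : sinh β < 1.6 := by nlinarith
  have h24 : 24 / s ≤ 0.0000002 := by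
    rw [div_le_iff₀ hs0]; linarith
  rw [norm_mul, norm_pow]
  obtain ⟨c1, c2⟩ := cplx w hw
  rw [hh] at c1 c2
  set S := w - w⁻¹ with hSdef
  rcases le_or_gt x (1 - 1 / 10000000) with hx | hx
  · -- deep inside
    have e1 : cosh (a * x) ≤ exp (a * x) := by
      rw [cosh_eq]
      have : exp (-(a * x)) ≤ exp (a * x) := by
        rw [exp_le_exp]
        have : 0 ≤ a * x := by positivity
        linarith
      linarith
    have e2 : exp (a * x) ≤ exp a * exp (-(a / 10000000)) := by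
      rw [← exp_add, exp_le_exp]; nlinarith
    have e3 : exp a ≤ 2 * cosh a := by
      rw [cosh_eq]
      have := exp_pos (-a)
      linarith
    have e4 : exp (-(a / 10000000)) ≤ (10 : ℝ)⁻¹ ^ 15 := by
      rw [exp_neg, inv_pow]
      apply inv_anti₀ (by positivity)
      refine hs'.trans ?_
      rw [exp_le_exp]
      have : log (3 * s) ≤ a := by
        rw [log_le_iff_le_exp (by positivity)]; exact g4
      linarith
    have e5 : ‖S‖ ≤ (10 : ℝ)⁻¹ ^ 14 := by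
      calc ‖S‖ ≤ 2 / s * cosh (a * x) := hS
        _ ≤ 2 / s * (2 * cosh a * (10 : ℝ)⁻¹ ^ 15) := by
            have h6 : cosh (a * x) ≤ 2 * cosh a * (10 : ℝ)⁻¹ ^ 15 := by
              calc cosh (a * x) ≤ exp a * exp (-(a / 10000000)) := e1.trans e2
                _ ≤ 2 * cosh a * (10 : ℝ)⁻¹ ^ 15 := by
                    have := exp_pos a
                    have := cosh_pos a
                    gcongr
            gcongr
        _ = (2 / s * cosh a) * (2 * (10 : ℝ)⁻¹ ^ 15) := by ring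
        _ ≤ 4 * (2 * (10 : ℝ)⁻¹ ^ 15) := by
            have : 2 / s * cosh a ≤ 4 := by linarith
            gcongr
        _ ≤ (10 : ℝ)⁻¹ ^ 14 := by norm_num
    have e6 : ‖S ^ 2 - 9‖ ≤ 10 := by
      calc ‖S ^ 2 - 9‖ ≤ ‖S ^ 2‖ + ‖(9 : ℂ)‖ := norm_sub_le _ _
        _ = ‖S‖ ^ 2 + 9 := by rw [norm_pow]; norm_num
        _ ≤ 1 + 9 := by
            have : ‖S‖ ≤ 1 := e5.trans (by norm_num)
            have h0 := norm_nonneg S
            nlinarith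
        _ = 10 := by norm_num
    calc ‖S‖ * ‖S ^ 2 - 9‖ ^ 13 ≤ (10 : ℝ)⁻¹ ^ 14 * 10 ^ 13 := by gcongr
      _ < 1 := by norm_num
  · -- near the boundary circle
    have e1 : ‖S‖ ≤ 2 * sinh β + 24 / s := by
      refine hS.trans (le_trans ?_ g3)
      have : cosh (a * x) ≤ cosh a := by
        rw [cosh_le_cosh, abs_of_nonneg (by positivity), abs_of_pos ha]
        nlinarith
      gcongr
    have e2 : ‖S‖ ^ 2 ≤ (2 * sinh β) ^ 2 + 0.000002 := by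
      have h0 := norm_nonneg S
      have h1 : ‖S‖ ≤ 2 * sinh β + 0.0000002 := by linarith
      have h2 : ‖S‖ ^ 2 ≤ (2 * sinh β + 0.0000002) ^ 2 := by gcongr
      nlinarith
    have hcosh2 : cosh (2 * β) = 1 + 2 * sinh β ^ 2 := by
      rw [cosh_two_mul, cosh_sq]; ring
    have hself : β ≤ sinh β := (Real.self_le_sinh_iff.mpr hβ.le)
    have e3 : 2 * cosh (2 * β) - 2 * cosh (2 * β * x) ≤ 0.000004 := by
      have h1 := cosh_sub_le (a := 2 * β) (y := 2 * β * (1 - x)) (by positivity)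
      have h2 : 2 * β - 2 * β * (1 - x) = 2 * β * x := by ring
      rw [h2] at h1
      have h3 : sinh (2 * β) ≤ 5.9 := by
        have := (sinh_lt_cosh (2 * β)).le
        rw [hcosh2] at this
        linarith
      have h4 : 0 ≤ sinh (2 * β) := sinh_nonneg_iff.mpr (by positivity)
      have h5 : 2 * β * (1 - x) ≤ 3.2 * (1 / 10000000) := by
        have : 1 - x ≤ 1 / 10000000 := by linarith
        have h6 : 0 ≤ 1 - x := by linarith
        calc 2 * β * (1 - x) ≤ 3.2 * (1 - x) := by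
              apply mul_le_mul_of_nonneg_right _ h6; linarith
          _ ≤ 3.2 * (1 / 10000000) := by gcongr
      have h6 : 0 ≤ 2 * β * (1 - x) := by
        have : 0 ≤ 1 - x := by linarith
        positivity
      nlinarith
    have e4 : cosh (2 * β * x) ≤ cosh (2 * β) := by
      rw [cosh_le_cosh, abs_of_nonneg (by positivity), abs_of_pos (by positivity)]
      nlinarith
    set H := 2 * cosh (2 * β * x) with hH
    have hHle : H ≤ 11.8 := by rw [hH]; nlinarith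
    have hHge : 10.999996 ≤ H := by
      have : 9 < (2 * sinh β) ^ 2 := by nlinarith
      rw [hH]; nlinarith
    set v := 2 * (|w.im| / ‖w‖) with hv
    have hv0 : 0 ≤ v := by positivity
    have e5 : v ^ 2 ≤ 0.000006 := by
      have : (2 * sinh β) ^ 2 = 2 * cosh (2 * β) - 2 := by rw [hcosh2]; ring
      nlinarith
    have e6 : v ≤ 0.0025 := by
      by_contra hcon
      push Not at hcon
      nlinarith
    have e7 : ‖S ^ 2 - 9‖ ≤ 0.84 := by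
      have h1 : S ^ 2 - 9 = (S ^ 2 - ((H - 2 : ℝ) : ℂ)) + ((H - 11 : ℝ) : ℂ) := by
        push_cast; ring
      rw [h1]
      refine (norm_add_le _ _).trans ?_
      rw [Complex.norm_real, Real.norm_eq_abs]
      have h2 : |H - 11| ≤ 0.8 := by
        rw [abs_le]; constructor <;> linarith
      have h3 : ‖S ^ 2 - ((H - 2 : ℝ) : ℂ)‖ ≤ 0.03 := by
        refine c2.trans ?_
        nlinarith
      linarith
    have e8 : ‖S‖ ≤ 3.3 := by linarith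
    calc ‖S‖ * ‖S ^ 2 - 9‖ ^ 13 ≤ 3.3 * 0.84 ^ 13 := by gcongr
      _ < 1 := by norm_num

end MPG.Large
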