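import Mathlib
import Pool.Agent.MPG.LargeAlg
import Pool.Agent.MAG.Fin

/-!
No rational minimum point for large slopes of the magic manifold: the theorem.
-/

namespace MPG.Large

open Real IntermediateField Pool.Agent.MAG

theorem log_bound {i j k : ℤ} (hj : |j| < i) (hk : |k| < i) {r : ℝ} (hr : 0 < r)
    (hE : cosh (i * r) = cosh (j * r) + cosh (k * r)) {z : ℂ} (hz : z ≠ 0)
    (h : z ^ i + z ^ (-i) = z ^ j + z ^ (-j) + z ^ k + z ^ (-k)) : |log ‖z‖| ≤ r := by
  have h1 := conj_low hj hk hr hE hz h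
  have h2 := conj_low hj hk hr hE (inv_ne_zero hz) (s := z⁻¹) (by
    rw [inv_zpow', inv_zpow', inv_zpow', inv_zpow', inv_zpow', inv_zpow', neg_neg, neg_neg, neg_neg]
    linear_combination h)
  have hz0 : 0 < ‖z‖ := norm_pos_iff.2 hz
  rw [abs_le]
  constructor
  · exact (Real.le_log_iff_exp_le hz0).2 h1
  · rw [norm_inv] at h2
    have h3 : -r ≤ Real.log (‖z‖⁻¹) := (Real.le_log_iff_exp_le (inv_pos.2 hz0)).2 h2
    rw [Real.log_inv] at h3
    linarith

theorem norm_pow_sub {z : ℂ} (hz : z ≠ 0) (m : ℤ) :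
    ‖z ^ m - z ^ (-m)‖ ≤ 2 * cosh (m * log ‖z‖) := by
  have h5 := norm_sub_le (z ^ m) (z ^ (-m))
  rw [norm_zpow_exp hz, norm_zpow_exp hz] at h5
  have c1 := Real.cosh_eq (m * log ‖z‖)
  push_cast at h5
  rw [neg_mul] at h5
  linarith

theorem norm_sq_zpow {z : ℂ} (hz : z ≠ 0) (m : ℤ) :
    ‖z ^ m‖ ^ 2 + (‖z ^ m‖ ^ 2)⁻¹ = 2 * cosh (2 * (m * log ‖z‖)) := by
  rw [norm_zpow_exp hz, ← Real.exp_nat_mul, ← Real.exp_neg, Real.cosh_eq]
  push_cast
  ring

theorem two_sinh_eq' (r : ℝ) (m : ℤ) :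
    Real.exp r ^ m - Real.exp r ^ (-m) = 2 * Real.sinh (m * r) := by
  rw [Real.sinh_eq, ← Real.rpow_intCast, ← Real.rpow_intCast, ← Real.exp_mul, ← Real.exp_mul]
  push_cast
  rw [mul_comm r, mul_neg, mul_comm r]; ring

theorem two_cosh_eq' (r : ℝ) (m : ℤ) :
    Real.exp r ^ m + Real.exp r ^ (-m) = 2 * Real.cosh (m * r) := by
  rw [Real.cosh_eq, ← Real.rpow_intCast, ← Real.rpow_intCast, ← Real.exp_mul, ← Real.exp_mul]
  push_cast
  rw [mul_comm r, mul_neg, mul_comm r]; ring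

/-- the bound for the slopes -/
noncomputable def sbd : ℝ := 200000000 + exp (10000000 * log (10 ^ 15))

theorem sbd_spec {s : ℝ} (hs : sbd ≤ s) :
    200000000 ≤ s ∧ (10 : ℝ) ^ 15 ≤ exp (log (3 * s) / 10000000) := by
  unfold sbd at hs
  have h0 := exp_pos (10000000 * log (10 ^ 15))
  have h1 : 200000000 ≤ s := by linarith
  refine ⟨h1, ?_⟩
  rw [← Real.log_le_iff_le_exp (by positivity)]
  rw [le_div_iff₀ (by norm_num)]
  rw [Real.le_log_iff_exp_le (by positivity)]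
  have h2 : exp (log (10 ^ 15) * 10000000) = exp (10000000 * log (10 ^ 15)) := by
    congr 1; ring
  rw [h2]
  linarith

theorem large_slope {r : ℝ} (hr : 0 < r) {i j k : ℤ} (hj : |j| < i) (hk : |k| < i)
    (hE : cosh (i * r) = cosh (j * r) + cosh (k * r)) {P Q : ℤ} (hQ : 0 < Q)
    (hplane : ((Q : ℝ) + 1) * (j * r) = P * (i * r - k * r))
    (hL : sinh (i * r) + Q * sinh (k * r) = P * sinh (j * r)) :
    |(P : ℝ)| < sbd * (Q + 1) := by
  by_contra hcon
  push Not at hcon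
  have hQ0 : (0 : ℝ) < Q := by exact_mod_cast hQ
  have hQ1 : (0 : ℝ) < Q + 1 := by linarith
  have hsb : (0 : ℝ) < sbd := by unfold sbd; positivity
  have hP0 : 0 < |(P : ℝ)| := lt_of_lt_of_le (by positivity) hcon
  have hPne : (P : ℝ) ≠ 0 := abs_pos.mp hP0
  set s : ℝ := |(P : ℝ)| / (Q + 1) with hsdef
  have hs : sbd ≤ s := by
    rw [hsdef, le_div_iff₀ hQ1]; exact hcon
  obtain ⟨hs1, hs2⟩ := sbd_spec hs
  have hs0 : 0 < s := by linarith
  have hPs : |(P : ℝ)| = s * (Q + 1) := by rw [hsdef]; field_simp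
  have hjR : |(j : ℝ)| < i := by exact_mod_cast hj
  have hkR : |(k : ℝ)| < i := by exact_mod_cast hk
  have hiR : (0 : ℝ) < i := lt_of_le_of_lt (abs_nonneg _) hjR
  have ha : 0 < (i : ℝ) * r := mul_pos hiR hr
  have hkr : |(k : ℝ) * r| < i * r := by
    rw [abs_mul, abs_of_pos hr]; exact mul_lt_mul_of_pos_right hkR hr
  have hjr : |(j : ℝ) * r| < i * r := by
    rw [abs_mul, abs_of_pos hr]; exact mul_lt_mul_of_pos_right hjR hr
  have hac : 0 < (i : ℝ) * r - k * r := by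
    have := (abs_lt.mp hkr).2
    linarith
  have hj0 : (j : ℝ) * r ≠ 0 := by
    intro h0
    rw [h0, mul_zero] at hplane
    rcases mul_eq_zero.1 hplane.symm with h1 | h1
    · exact hPne h1
    · exact hac.ne' h1
  set β : ℝ := |(j : ℝ) * r| with hβdef
  have hβ : 0 < β := abs_pos.mpr hj0
  -- the plane
  have hplane' : (Q + 1) * β = |(P : ℝ)| * (i * r - k * r) := by
    have h1 := congrArg abs hplane
    rw [abs_mul ((Q : ℝ) + 1), abs_mul (P : ℝ), abs_of_pos hQ1, abs_of_pos hac] at h1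
    exact h1
  have hac' : (i : ℝ) * r - k * r = β / s := by
    rw [eq_div_iff hs0.ne', hsdef]
    field_simp
    linarith
  -- the sign of `j` is the sign of `P`
  have hsg : (P : ℝ) * sinh (j * r) = |(P : ℝ)| * sinh β := by
    rcases lt_or_gt_of_ne hPne with hneg | hpos
    · have h1 : (j : ℝ) * r < 0 := by
        by_contra hc
        push Not at hc
        have h2 : 0 ≤ ((Q : ℝ) + 1) * (j * r) := by positivity
        have h3 : (P : ℝ) * (i * r - k * r) < 0 := mul_neg_of_neg_of_pos hneg hac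
        linarith
      rw [hβdef, abs_of_neg hneg, abs_of_neg h1, sinh_neg]; ring
    · have h1 : 0 < (j : ℝ) * r := by
        by_contra hc
        push Not at hc
        have h2 : ((Q : ℝ) + 1) * (j * r) ≤ 0 := mul_nonpos_of_nonneg_of_nonpos hQ1.le hc
        have h3 : 0 < (P : ℝ) * (i * r - k * r) := mul_pos hpos hac
        linarith
      rw [hβdef, abs_of_pos hpos, abs_of_pos h1]
  have hL' : sinh (i * r) + Q * sinh (k * r) = s * (Q + 1) * sinh β := by
    rw [hL, hsg, hPs]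
  have hsinh : sinh ((k : ℝ) * r) < sinh (i * r) := by
    rw [sinh_lt_sinh]; linarith
  have h1 : s * sinh β ≤ sinh (i * r) := by
    have : (Q + 1) * (s * sinh β) ≤ (Q + 1) * sinh (i * r) := by nlinarith
    exact le_of_mul_le_mul_left this hQ1
  have h2 : sinh (k * r) ≤ s * sinh β := by
    have : (Q + 1) * sinh (k * r) ≤ (Q + 1) * (s * sinh β) := by nlinarith
    exact le_of_mul_le_mul_left this hQ1
  have hcoshj : cosh (j * r) = cosh β := by rw [hβdef, cosh_abs]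
  obtain ⟨g1, g2, g3, g4⟩ := real_est (s := s) (a := i * r) (c := k * r) (β := β) (by linarith)
    hβ hjr hac' (by rw [hE, hcoshj]) h1 h2
  -- the number field
  set T : ℝ := Real.exp r with hT
  have hT0 : T ≠ 0 := (Real.exp_pos r).ne'
  have heqT : T ^ i + T ^ (-i) = T ^ j + T ^ (-j) + T ^ k + T ^ (-k) := by
    have h1 := two_cosh_eq' r i
    have h2 := two_cosh_eq' r j
    have h3 := two_cosh_eq' r k
    linarith
  have hint : IsIntegral ℤ T := isIntegral_of_eq hT0 hj hk heqT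
  have hintQ : IsIntegral ℚ T := hint.tower_top
  haveI : FiniteDimensional ℚ ℚ⟮T⟯ := adjoin.finiteDimensional hintQ
  haveI : NumberField ℚ⟮T⟯ := ⟨⟩
  set τ : ℚ⟮T⟯ := AdjoinSimple.gen ℚ T with hτ
  have hτT : algebraMap ℚ⟮T⟯ ℝ τ = T := AdjoinSimple.algebraMap_gen ℚ T
  have hinj : Function.Injective (algebraMap ℚ⟮T⟯ ℝ) := (algebraMap ℚ⟮T⟯ ℝ).injective
  have hτ0 : τ ≠ 0 := by
    intro h0
    rw [h0, map_zero] at hτT
    exact hT0 hτT.symm
  have heqτ : τ ^ i + τ ^ (-i) = τ ^ j + τ ^ (-j) + τ ^ k + τ ^ (-k) := by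
    apply hinj
    simp only [map_add, map_zpow₀, hτT]
    exact heqT
  have hLT : (T ^ i - T ^ (-i)) + Q * (T ^ k - T ^ (-k)) = P * (T ^ j - T ^ (-j)) := by
    rw [two_sinh_eq', two_sinh_eq', two_sinh_eq']
    linear_combination 2 * hL
  have hLτ : (τ ^ i - τ ^ (-i)) + (Q : ℚ⟮T⟯) * (τ ^ k - τ ^ (-k))
      = (P : ℚ⟮T⟯) * (τ ^ j - τ ^ (-j)) := by
    apply hinj
    simp only [map_add, map_sub, map_mul, map_zpow₀, hτT, map_intCast]
    exact hLT
  have i1 : IsIntegral ℤ τ := isIntegral_of_eq hτ0 hj hk heqτ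
  have i2 : IsIntegral ℤ τ⁻¹ := isIntegral_of_eq (inv_ne_zero hτ0) hj hk (by
    rw [inv_zpow', inv_zpow', inv_zpow', inv_zpow', inv_zpow', inv_zpow', neg_neg, neg_neg,
      neg_neg]
    linear_combination heqτ)
  have iS : IsIntegral ℤ (τ ^ j - τ ^ (-j)) :=
    (isIntegral_zpow i1 i2 j).sub (isIntegral_zpow i1 i2 (-j))
  have i9 : IsIntegral ℤ (9 : ℚ⟮T⟯) := by
    have := isIntegral_algebraMap (R := ℤ) (A := ℚ⟮T⟯) (x := 9)
    simpa using this
  have hω : (τ ^ j - τ ^ (-j)) * ((τ ^ j - τ ^ (-j)) ^ 2 - 9) ^ 13 = 0 := by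
    refine eq_zero_of_small (iS.mul (((iS.pow 2).sub i9).pow 13)) ?_
    intro φ
    have hz : φ τ ≠ 0 := (map_ne_zero φ).2 hτ0
    have he : (φ τ) ^ i + (φ τ) ^ (-i) = (φ τ) ^ j + (φ τ) ^ (-j) + (φ τ) ^ k
        + (φ τ) ^ (-k) := by
      have h2 := congrArg φ heqτ
      simpa only [map_add, map_zpow₀] using h2
    have hlag : ((φ τ) ^ i - (φ τ) ^ (-i)) + (Q : ℂ) * ((φ τ) ^ k - (φ τ) ^ (-k))
        = (P : ℂ) * ((φ τ) ^ j - (φ τ) ^ (-j)) := by
      have h2 := congrArg φ hLτ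
      simpa only [map_add, map_sub, map_mul, map_zpow₀, map_intCast] using h2
    have ht := log_bound hj hk hr hE hz he
    set z := φ τ with hzdef
    set t := log ‖z‖ with htdef
    set w := z ^ j with hw
    have hw0 : w ≠ 0 := zpow_ne_zero _ hz
    have hwinv : z ^ (-j) = w⁻¹ := by rw [hw, zpow_neg]
    have hx0 : 0 ≤ |t| / r := by positivity
    have hx1 : |t| / r ≤ 1 := by rw [div_le_one hr]; exact ht
    have hh : ‖w‖ ^ 2 + (‖w‖ ^ 2)⁻¹ = 2 * cosh (2 * β * (|t| / r)) := by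
      rw [hw, norm_sq_zpow hz, ← htdef, ← cosh_abs]
      congr 2
      rw [abs_mul, abs_mul, hβdef, abs_mul, abs_of_pos hr]
      field_simp
      norm_num
      ring
    have hS : ‖w - w⁻¹‖ ≤ 2 / s * cosh (i * r * (|t| / r)) := by
      have e1 : (i : ℝ) * r * (|t| / r) = i * |t| := by field_simp
      rw [e1]
      have e2 : cosh ((k : ℝ) * t) ≤ cosh (i * |t|) := by
        rw [cosh_le_cosh, abs_mul, abs_mul, abs_abs, abs_of_pos hiR]
        exact mul_le_mul_of_nonneg_right hkR.le (abs_nonneg _)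
      have e3 : cosh ((i : ℝ) * t) = cosh (i * |t|) := by
        rw [← cosh_abs ((i : ℝ) * t), abs_mul, abs_of_pos hiR]
      have e4 : |(P : ℝ)| * ‖w - w⁻¹‖ ≤ (Q + 1) * (2 * cosh (i * |t|)) := by
        have e5 : |(P : ℝ)| * ‖w - w⁻¹‖ = ‖(P : ℂ) * (z ^ j - z ^ (-j))‖ := by
          rw [norm_mul, Complex.norm_intCast, hwinv, ← hw]
        rw [e5, ← hlag]
        refine (norm_add_le _ _).trans ?_
        rw [norm_mul, Complex.norm_intCast, abs_of_pos hQ0]
        have e6 := norm_pow_sub hz i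
        have e7 := norm_pow_sub hz k
        rw [← htdef] at e6 e7
        rw [e3] at e6
        have e8 : (Q : ℝ) * ‖z ^ k - z ^ (-k)‖ ≤ Q * (2 * cosh (i * |t|)) := by
          apply mul_le_mul_of_nonneg_left _ hQ0.le
          linarith
        linarith
      rw [hPs] at e4
      have e9 : (Q + 1) * (s * ‖w - w⁻¹‖) ≤ (Q + 1) * (2 * cosh (i * |t|)) := by linarith
      have e10 := le_of_mul_le_mul_left e9 hQ1
      rw [div_mul_eq_mul_div, le_div_iff₀ hs0]
      linarith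
    have hfin := small_prod (s := s) (a := i * r) (β := β) (x := |t| / r) hs1 hs2 hβ ha g1 g2 g3 g4
      hx0 hx1 w hw0 hh hS
    have e9 : φ ((τ ^ j - τ ^ (-j)) * ((τ ^ j - τ ^ (-j)) ^ 2 - 9) ^ 13) =
        (w - w⁻¹) * ((w - w⁻¹) ^ 2 - 9) ^ 13 := by
      rw [← hwinv, hw, hzdef]
      simp only [map_mul, map_sub, map_pow, map_zpow₀, map_ofNat]
    rw [e9]
    exact hfin
  have h5 := congrArg (algebraMap ℚ⟮T⟯ ℝ) hω
  simp only [map_mul, map_sub, map_pow, map_zpow₀, map_ofNat, hτT, map_zero] at h5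
  rw [two_sinh_eq'] at h5
  have hsq : sinh ((j : ℝ) * r) ^ 2 = sinh β ^ 2 := by
    rw [hβdef, ← sq_abs, ← abs_sinh, sq_abs]
  have h9 : 9 < (2 * sinh ((j : ℝ) * r)) ^ 2 := by
    rw [mul_pow, hsq]; nlinarith
  rcases mul_eq_zero.1 h5 with h6 | h6
  · rw [h6] at h9; norm_num at h9
  · have h7 := pow_eq_zero_iff (by norm_num) |>.1 h6
    linarith

end MPG.Large
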