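import Mathlib
import Pool.Agent.MPG.LargeMain

/-!
Only finitely many slopes of the magic manifold have a rational minimum point.
-/

namespace MPG.Large

open Real Pool.Agent.MAG

/-- a slope with a rational minimum point is bounded -/
theorem slope_le {p q : ℤ} (hq : 2 ≤ q) {x y z : ℚ} (hmin : IsMinPt p q x y z) :
    |(p : ℝ)| ≤ (2 * sbd + 1) * q := by
  have hq2 : (2 : ℝ) ≤ q := by exact_mod_cast hq
  have hcone := hmin.1.1
  obtain ⟨t, ht, -⟩ := exists_unique_dil hcone
  have ht0 : 0 < t := lt_trans one_pos ht.1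
  have hl : 0 < Real.log t := Real.log_pos ht.1
  have hexp := Real.exp_log ht0
  set l := Real.log t with hldef
  rw [← hexp] at ht
  have hlag := lagrange hq hmin hl ht
  have heq := (isDil_exp hl).1 ht
  obtain ⟨hb, hc⟩ := inCone_iff.1 hcone
  obtain ⟨D, hD, i, j, k, hi, hj, hk⟩ := rational_data x y z
  have hD0 : (0 : ℝ) < D := by exact_mod_cast hD
  have hr : 0 < l / D := div_pos hl hD0
  have ei : (i : ℝ) * (l / D) = ((x : ℝ) + y - z) / 2 * l := by rw [hi]; field_simp
  have ej : (j : ℝ) * (l / D) = ((x : ℝ) - y + z) / 2 * l := by rw [hj]; field_simp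
  have ek : (k : ℝ) * (l / D) = ((x : ℝ) - y - z) / 2 * l := by rw [hk]; field_simp
  have hji : |j| < i := by
    have : |(j : ℝ)| < i := by
      rw [hi, hj, abs_mul, abs_of_pos hD0]
      exact mul_lt_mul_of_pos_right hb hD0
    exact_mod_cast this
  have hki : |k| < i := by
    have : |(k : ℝ)| < i := by
      rw [hi, hk, abs_mul, abs_of_pos hD0]
      exact mul_lt_mul_of_pos_right hc hD0
    exact_mod_cast this
  have hplane : 2 * (q : ℝ) * (((x : ℝ) - y + z) / 2 * l)
      = (p - q) * (((x : ℝ) + y - z) / 2 * l - ((x : ℝ) - y - z) / 2 * l) := by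
    have := hmin.1.2.1
    linear_combination l * this
  have hE : Real.cosh ((i : ℝ) * (l / D)) = Real.cosh (j * (l / D)) + Real.cosh (k * (l / D)) := by
    rw [ei, ej, ek]; exact heq
  have hL : Real.sinh ((i : ℝ) * (l / D)) + ((2 * q - 1 : ℤ) : ℝ) * Real.sinh (k * (l / D))
      = ((p - q : ℤ) : ℝ) * Real.sinh (j * (l / D)) := by
    rw [ei, ej, ek]; push_cast; exact hlag
  have hP : (((2 * q - 1 : ℤ) : ℝ) + 1) * ((j : ℝ) * (l / D)) =
      ((p - q : ℤ) : ℝ) * ((i : ℝ) * (l / D) - k * (l / D)) := by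
    rw [ei, ej, ek]; push_cast; linear_combination hplane
  have h := large_slope hr hji hki hE (show 0 < 2 * q - 1 by omega) hP hL
  push_cast at h
  have h1 : |(p : ℝ)| ≤ |(p : ℝ) - q| + |(q : ℝ)| := by
    have := abs_add_le ((p : ℝ) - q) q
    simpa using this
  rw [abs_of_pos (show (0 : ℝ) < q by linarith)] at h1
  have h2 : sbd * (2 * (q : ℝ) - 1 + 1) = 2 * sbd * q := by ring
  rw [h2] at h
  linarith

/-- only finitely many slopes have a rational minimum point -/
theorem finite_all : {pq : ℤ × ℤ | 2 ≤ pq.2 ∧ IsCoprime pq.1 pq.2 ∧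
    ∃ x y z : ℚ, IsMinPt pq.1 pq.2 x y z}.Finite := by
  refine (finite_exceptional (2 * sbd + 1)).subset ?_
  rintro ⟨p, q⟩ ⟨hq, hpq, x, y, z, hmin⟩
  exact ⟨hq, hpq, slope_le hq hmin, x, y, z, hmin⟩

end MPG.Large
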