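import Mathlib
import Pool.Agent.MPG.Defs

/-!
# MP_100167_gt: simultaneous Dehn fillings of several cusps, abstract form
-/

namespace MPG

variable {ι : Type} [Fintype ι]

/-- A Laurent polynomial `Θ = ∑_{g ∈ S} a_g g ∈ ℤ[ℤ^ι]` with the properties of a Teichmueller polynomial:
two opposite vertices `g₀, g₁` with coefficients `1` and `±1` cutting out the (fibered) cone, existence and
simplicity of the largest root on the cone, and strict concavity of `1 / entropy`. -/
structure Base (ι : Type) [Fintype ι] where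
  S : Finset (ι → ℤ)
  a : (ι → ℤ) → ℤ
  g₀ : ι → ℤ
  g₁ : ι → ℤ
  g₀_mem : g₀ ∈ S
  g₁_mem : g₁ ∈ S
  ne : g₀ ≠ g₁
  a₀ : a g₀ = 1
  a₁ : |a g₁| = 1
  /-- entropy exists on the cone -/
  ent : ∀ x ∈ Cone S g₀ g₁, ∃ s, IsEnt S a x s
  /-- the root is simple -/
  simple : ∀ x ∈ Cone S g₀ g₁, IsEnt S a x 1 → Phi S a x x ≠ 0
  /-- strict concavity of `1 / entropy` on the cone (Fried, Matsumoto, McMullen) -/
  convex : ∀ x ∈ Cone S g₀ g₁, ∀ y ∈ Cone S g₀ g₁, (∀ c : ℝ, y ≠ c • x) →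
    ∀ s t u, IsEnt S a x s → IsEnt S a y t → IsEnt S a (x + y) u → 1 / s + 1 / t < 1 / u

/-- the cone. -/
def Base.cone (D : Base ι) : Set (ι → ℝ) := Cone D.S D.g₀ D.g₁

/-- A `Base` together with the norm functional `e` and the classes `μ j, lam j` of bases of finitely many
peripheral tori, all linearly independent; no class of the cone vanishes on one of the tori. -/
structure MDatum (ι J : Type) [Fintype ι] extends Base ι where
  e : ι → ℤ
  μ : J → ι → ℤ
  lam : J → ι → ℤ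
  indep : LinearIndependent ℤ (Sum.elim (fun _ : Unit => e) (Sum.elim μ lam))
  torus : ∀ x ∈ Cone S g₀ g₁, ∀ j, pr (μ j) x ≠ 0 ∨ pr (lam j) x ≠ 0

variable {J : Type} [Fintype J] (D : MDatum ι J)

/-- The face of the filling along the slopes `p_j μ_j + q_j lam_j`, `s j = (p_j, q_j)`: the classes `x` of the
cone with `μ_j(x) = -q_j t_j`, `lam_j(x) = p_j t_j` for some real `t_j` and norm `e(x) - ∑ |t_j| = 1`. -/
def MDatum.Face (s : J → ℤ × ℤ) : Set (ι → ℝ) :=
  {x | x ∈ D.cone ∧ ∃ t : J → ℝ,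
    (∀ j, pr (D.μ j) x = -(s j).2 * t j ∧ pr (D.lam j) x = (s j).1 * t j) ∧
    pr D.e x - ∑ j, |t j| = 1}

/-- minimum point of the entropy on the face. -/
def MDatum.IsMinPt (s : J → ℤ × ℤ) (m : ι → ℝ) : Prop :=
  m ∈ D.Face s ∧ ∃ u, IsEnt D.S D.a m u ∧ ∀ m' ∈ D.Face s, ∀ u', IsEnt D.S D.a m' u' → u ≤ u'

/-- For every compact subset `K` of the cone only finitely many tuples of slopes have a rational minimum point
in `K`. -/
def MGoal : Prop :=
  ∀ K : Set (ι → ℝ), IsCompact K → K ⊆ D.cone →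
    {s : J → ℤ × ℤ | (∀ j, IsCoprime (s j).1 (s j).2) ∧ ∃ m ∈ K, Rational m ∧ D.IsMinPt s m}.Finite

end MPG
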