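import Mathlib
import Pool.Agent.MPG.Lag
import Pool.Agent.MPG.MDefs

/-!
Lagrange condition and uniqueness, several tori.
-/

open Finset Filter Topology

namespace MPG

variable {ι : Type} [Fintype ι]

namespace Base

variable (D : Base ι)

theorem phi_self_pos {X : ι → ℝ} (hX : X ∈ D.cone) (h1 : IsEnt D.S D.a X 1) :
    0 < Phi D.S D.a X X := by
  have h2 : 0 ≤ Phi D.S D.a X X := by
    refine phi_nonneg X X (by simpa using h1.2.1) ?_
    have h5 : ∀ᶠ τ in 𝓝[>] (0 : ℝ), 0 < τ := eventually_mem_nhdsWithin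
    filter_upwards [h5] with τ hτ
    have : X + τ • X = (1 + τ) • X := by rw [add_smul, one_smul]
    rw [this]
    exact (E_pos_beyond D.g₀_mem D.a₀ hX h1 (1 + τ) (by linarith)).le
  exact lt_of_le_of_ne h2 (Ne.symm (D.simple X hX h1))

/-- strict convexity along a segment. -/
theorem seg {X Y : ι → ℝ} (hX : X ∈ D.cone) (hY : Y ∈ D.cone) (h1 : IsEnt D.S D.a X 1)
    (h2 : IsEnt D.S D.a Y 1) (hne : X ≠ Y) (τ : ℝ) (hτ0 : 0 < τ) (hτ1 : τ < 1) :
    ∃ u, u < 1 ∧ IsEnt D.S D.a ((1 - τ) • X + τ • Y) u := by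
  have hx : (1 - τ) • X ∈ D.cone := cone_smul hX (by linarith)
  have hy : τ • Y ∈ D.cone := cone_smul hY hτ0
  obtain ⟨u, hu⟩ := D.ent _ (cone_add hx hy)
  refine ⟨u, ?_, hu⟩
  have hprop : ∀ c : ℝ, τ • Y ≠ c • ((1 - τ) • X) := by
    intro c hc
    have hY' : Y = (c * (1 - τ) / τ) • X := by
      have : τ⁻¹ • (τ • Y) = τ⁻¹ • (c • ((1 - τ) • X)) := by rw [hc]
      rw [smul_smul, inv_mul_cancel₀ hτ0.ne', one_smul, smul_smul, smul_smul] at this
      rw [this]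
      congr 1
      field_simp
    set c' := c * (1 - τ) / τ with hc'
    have hpos : 0 < c' := by
      have q1 := hX.2 D.g₀ D.g₀_mem D.ne
      have q2 := hY.2 D.g₀ D.g₀_mem D.ne
      rw [hY', pr_smul, pr_smul] at q2
      by_contra hle
      push Not at hle
      nlinarith
    have h3 := h1.smul hpos
    rw [← hY'] at h3
    have h4 := h3.unique h2
    have h5 : c' = 1 := by
      rw [div_eq_iff hpos.ne'] at h4; linarith
    apply hne
    rw [hY', h5, one_smul]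
  have h3 := D.convex _ hx _ hy hprop (1 / (1 - τ)) (1 / τ) u (h1.smul (by linarith)) (h2.smul hτ0) hu
  rw [one_div_one_div, one_div_one_div] at h3
  have h4 : 1 < 1 / u := by linarith
  rwa [lt_div_iff₀ hu.1, one_mul] at h4

theorem normal_ineq {X Y : ι → ℝ} (hX : X ∈ D.cone) (hY : Y ∈ D.cone) (h1 : IsEnt D.S D.a X 1)
    (h2 : IsEnt D.S D.a Y 1) : 0 ≤ Phi D.S D.a X (Y - X) := by
  by_cases hne : X = Y
  · rw [hne, sub_self]
    have : Phi D.S D.a Y ((0 : ℝ) • (0 : ι → ℝ)) = 0 := by rw [Phi_smul, zero_mul]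
    rw [zero_smul] at this
    rw [this]
  refine phi_nonneg X (Y - X) (by simpa using h1.2.1) ?_
  have h5 : ∀ᶠ τ in 𝓝[>] (0 : ℝ), 0 < τ := eventually_mem_nhdsWithin
  have h6 : ∀ᶠ τ in 𝓝[>] (0 : ℝ), τ < 1 :=
    (eventually_lt_nhds (show (0 : ℝ) < 1 by norm_num)).filter_mono nhdsWithin_le_nhds
  filter_upwards [h5, h6] with τ hτ0 hτ1
  obtain ⟨u, hu1, hu⟩ := D.seg hX hY h1 h2 hne τ hτ0 hτ1
  have hc : (1 - τ) • X + τ • Y ∈ D.cone := cone_add (cone_smul hX (by linarith)) (cone_smul hY hτ0)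
  have h7 := E_pos_beyond D.g₀_mem D.a₀ hc hu 1 hu1
  rw [one_smul] at h7
  have h8 : X + τ • (Y - X) = (1 - τ) • X + τ • Y := by
    rw [smul_sub, sub_smul, one_smul]; abel
  rw [h8]; exact h7.le

/-- the Gauss map is injective, also when the normals are only compared on a subspace containing the two
points. -/
theorem gauss_inj {X Y : ι → ℝ} (hX : X ∈ D.cone) (hY : Y ∈ D.cone) (h1 : IsEnt D.S D.a X 1)
    (h2 : IsEnt D.S D.a Y 1) (κ : ℝ) (hκ1 : Phi D.S D.a Y X = κ * Phi D.S D.a X X)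
    (hκ2 : Phi D.S D.a Y Y = κ * Phi D.S D.a X Y) : X = Y := by
  by_contra hne
  have n1 := D.normal_ineq hX hY h1 h2
  have n2 := D.normal_ineq hY hX h2 h1
  have p1 := D.phi_self_pos hX h1
  have p2 := D.phi_self_pos hY h2
  rw [Phi_sub] at n1 n2
  rw [hκ1, hκ2] at n2
  rw [hκ2] at p2
  set nX := Phi D.S D.a X X
  set nY := Phi D.S D.a X Y
  have hκpos : 0 < κ := by
    by_contra hle
    push Not at hle
    nlinarith
  have heq : nY = nX := by nlinarith
  obtain ⟨u, hu1, hu⟩ := D.seg hX hY h1 h2 hne (1 / 2) (by norm_num) (by norm_num)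
  have hc : (1 - (1 / 2 : ℝ)) • X + (1 / 2 : ℝ) • Y ∈ D.cone :=
    cone_add (cone_smul hX (by norm_num)) (cone_smul hY (by norm_num))
  have hu0 := hu.1
  have h3 := hu.smul hu0
  rw [div_self hu0.ne'] at h3
  have n3 := D.normal_ineq hX (cone_smul hc hu0) h1 h3
  rw [Phi_sub, Phi_smul, Phi_add, Phi_smul, Phi_smul] at n3
  change 0 ≤ u * ((1 - 1 / 2) * nX + 1 / 2 * nY) - nX at n3
  rw [heq] at n3
  nlinarith

end Base

variable {J : Type} [Fintype J] (D : MDatum ι J)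

theorem abs_local (t τ : ℝ) (ht : t ≠ 0) :
    ∀ᶠ ε in 𝓝 (0 : ℝ), |t + ε * τ| = |t| + ε * (SignType.sign t * τ) := by
  rcases lt_or_gt_of_ne ht with hneg | hpos
  · have hc : Continuous fun ε : ℝ => t + ε * τ := by fun_prop
    have : ∀ᶠ ε in 𝓝 (0 : ℝ), t + ε * τ < 0 :=
      hc.continuousAt.eventually_lt continuousAt_const (by simpa using hneg)
    filter_upwards [this] with ε hε
    rw [abs_of_neg hε, abs_of_neg hneg, sign_neg hneg]
    simp; ring
  · have hc : Continuous fun ε : ℝ => t + ε * τ := by fun_prop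
    have : ∀ᶠ ε in 𝓝 (0 : ℝ), 0 < t + ε * τ :=
      hc.continuousAt.eventually_const_lt (by simpa using hpos)
    filter_upwards [this] with ε hε
    rw [abs_of_pos hε, abs_of_pos hpos, sign_pos hpos]
    simp

/-- Lagrange condition. -/
theorem mlagrange {s : J → ℤ × ℤ} {m : ι → ℝ} (t : J → ℝ) (hm : m ∈ D.cone)
    (ht1 : ∀ j, pr (D.μ j) m = -(s j).2 * t j ∧ pr (D.lam j) m = (s j).1 * t j)
    (ht3 : pr D.e m - ∑ j, |t j| = 1) (ht : ∀ j, t j ≠ 0) {s₀ : ℝ}
    (hs : IsEnt D.S D.a m s₀)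
    (hmin : ∀ m' ∈ D.Face s, ∀ s', IsEnt D.S D.a m' s' → s₀ ≤ s')
    (v : ι → ℝ) (τ : J → ℝ)
    (hv1 : ∀ j, pr (D.μ j) v = -(s j).2 * τ j ∧ pr (D.lam j) v = (s j).1 * τ j)
    (hv3 : pr D.e v = ∑ j, (SignType.sign (t j) : ℝ) * τ j) : Phi D.S D.a (s₀ • m) v ≤ 0 := by
  by_contra hcon
  push Not at hcon
  have h1 := lagrange_one D.g₀_mem D.a₀ hm hs v hcon
  have h2 := eventually_cone hm v
  have h3 : ∀ᶠ ε in 𝓝 (0 : ℝ), ∀ j, |t j + ε * τ j| = |t j| + ε * (SignType.sign (t j) * τ j) := by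
    rw [Filter.eventually_all]
    intro j
    exact abs_local (t j) (τ j) (ht j)
  have h4 : ∀ᶠ ε in 𝓝[>] (0 : ℝ), False := by
    have h5 : ∀ᶠ ε in 𝓝[>] (0 : ℝ), 0 < ε := eventually_mem_nhdsWithin
    filter_upwards [h1.filter_mono nhdsWithin_le_nhds, h2.filter_mono nhdsWithin_le_nhds,
      h3.filter_mono nhdsWithin_le_nhds, h5] with ε a1 a2 a3 a4
    have hF : m + ε • v ∈ D.Face s := by
      refine ⟨a2, fun j => t j + ε * τ j, fun j => ⟨?_, ?_⟩, ?_⟩
      · rw [pr_add, pr_smul, (ht1 j).1, (hv1 j).1]; ring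
      · rw [pr_add, pr_smul, (ht1 j).2, (hv1 j).2]; ring
      · rw [pr_add, pr_smul, hv3]
        have : ∑ j, |t j + ε * τ j| = ∑ j, |t j| + ε * ∑ j, (SignType.sign (t j) : ℝ) * τ j := by
          rw [Finset.mul_sum, ← Finset.sum_add_distrib]
          exact Finset.sum_congr rfl fun j _ => a3 j
        rw [this]; linarith
    obtain ⟨s', hs'⟩ := D.ent _ a2
    have h6 := hmin _ hF s' hs'
    have h7 := a1 a4 s' h6
    rw [hs'.2.1] at h7
    exact lt_irrefl _ h7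
  exact (h4.exists).elim fun _ h => h

end MPG
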