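import Mathlib
import Pool.Agent.MPG.Lag
import Pool.Agent.MPG.Arith
import Pool.Agent.MPG.Conj

/-!
The general theorem for MP_100167_gt.
-/

open Finset Filter Topology Matrix

namespace MPG

variable {ι : Type} [Fintype ι]

/-- integral dual vectors. -/
theorem dual_vectors {k : ℕ} (M : Matrix (Fin k) ι ℤ) (h : LinearIndependent ℤ M) :
    ∃ κ : ℤ, κ ≠ 0 ∧ ∃ b : Fin k → ι → ℤ, ∀ i j, ∑ r, M i r * b j r = if i = j then κ else 0 := by
  classical
  let G := M * M.transpose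
  have hdet : G.det ≠ 0 := by
    intro h0
    obtain ⟨w, hw0, hw⟩ := Matrix.exists_vecMul_eq_zero_iff.mpr h0
    have e1 : (w ᵥ* M) ⬝ᵥ (w ᵥ* M) = 0 := by
      have : (w ᵥ* M) ⬝ᵥ (w ᵥ* M) = (w ᵥ* G) ⬝ᵥ w := by
        simp only [G]
        rw [← Matrix.vecMul_vecMul, Matrix.vecMul_transpose, dotProduct_comm _ w,
          Matrix.dotProduct_mulVec]
      rw [this, hw, zero_dotProduct]
    have e2 : w ᵥ* M = 0 := by
      rwa [dotProduct_self_eq_zero] at e1
    apply hw0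
    rw [Fintype.linearIndependent_iff] at h
    funext i
    refine h w ?_ i
    funext r
    have := congrFun e2 r
    rw [Matrix.vecMul, dotProduct] at this
    simpa [Finset.sum_apply] using this
  refine ⟨G.det, hdet, fun j r => (M.transpose * G.adjugate) r j, fun i j => ?_⟩
  have e : M * (M.transpose * G.adjugate) = G.det • (1 : Matrix (Fin k) (Fin k) ℤ) := by
    rw [← Matrix.mul_assoc]; exact Matrix.mul_adjugate G
  have e2 := congrFun (congrFun e i) j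
  rw [Matrix.mul_apply] at e2
  rw [e2, Matrix.smul_apply, Matrix.one_apply]
  simp

theorem unif_pos {α : Type*} (S : Finset α) (P : α → ℝ → Prop)
    (mono : ∀ g δ δ', δ' ≤ δ → P g δ → P g δ') (h : ∀ g ∈ S, ∃ δ > 0, P g δ) :
    ∃ δ > 0, ∀ g ∈ S, P g δ := by
  classical
  induction S using Finset.induction_on with
  | empty => exact ⟨1, one_pos, by simp⟩
  | insert g S _ ih =>
    obtain ⟨δ₁, h1, h2⟩ := ih fun g hg => h g (Finset.mem_insert_of_mem hg)
    obtain ⟨δ₂, h3, h4⟩ := h g (Finset.mem_insert_self _ _)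
    refine ⟨min δ₁ δ₂, lt_min h1 h3, fun g' hg' => ?_⟩
    rcases Finset.mem_insert.mp hg' with rfl | hg'
    · exact mono _ _ _ (min_le_right _ _) h4
    · exact mono _ _ _ (min_le_left _ _) (h2 _ hg')

theorem compact_gap {K : Set (ι → ℝ)} (hK : IsCompact K) (g h : ι → ℤ)
    (hlt : ∀ m ∈ K, pr g m < pr h m) : ∃ δ > 0, ∀ m ∈ K, pr g m + δ ≤ pr h m := by
  rcases K.eq_empty_or_nonempty with rfl | hne
  · exact ⟨1, one_pos, by simp⟩
  · have hc : ContinuousOn (fun m => pr h m - pr g m) K :=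
      ((continuous_pr h).sub (continuous_pr g)).continuousOn
    obtain ⟨m₀, hm₀, hmin⟩ := hK.exists_isMinOn hne hc
    refine ⟨pr h m₀ - pr g m₀, ?_, fun m hm => ?_⟩
    · have := hlt m₀ hm₀; linarith
    · have := hmin hm
      simp only [Set.mem_ofPred_eq] at this
      linarith

theorem compact_bound {K : Set (ι → ℝ)} (hK : IsCompact K) (S : Finset (ι → ℤ)) :
    ∃ G, ∀ m ∈ K, ∀ g ∈ S, |pr g m| ≤ G := by
  classical
  induction S using Finset.induction_on with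
  | empty => exact ⟨0, by simp⟩
  | insert g S _ ih =>
    obtain ⟨G₁, h1⟩ := ih
    obtain ⟨G₂, h2⟩ := hK.exists_bound_of_continuousOn (continuous_pr g).continuousOn
    refine ⟨max G₁ G₂, fun m hm g' hg' => ?_⟩
    rcases Finset.mem_insert.mp hg' with rfl | hg'
    · exact le_trans (h2 m hm) (le_max_right _ _)
    · exact le_trans (h1 m hm g' hg') (le_max_left _ _)

theorem clear_denominators (m : ι → ℝ) (hm : Rational m) :
    ∃ d : ℕ, 0 < d ∧ ∃ ξ : ι → ℤ, ∀ i, m i * d = ξ i := by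
  classical
  choose r hr using hm
  refine ⟨∏ i, (r i).den, Finset.prod_pos fun i _ => (r i).den_pos, ?_⟩
  have : ∀ i, ∃ z : ℤ, m i * ((∏ i, (r i).den : ℕ) : ℝ) = z := by
    intro i
    refine ⟨(r i).num * ((∏ j ∈ Finset.univ.erase i, (r j).den : ℕ) : ℤ), ?_⟩
    rw [← Finset.mul_prod_erase Finset.univ _ (Finset.mem_univ i), hr i]
    have h1 : ((r i : ℚ) : ℝ) * ((r i).den : ℝ) = (r i).num := by
      have := Rat.mul_den_eq_num (r i)
      exact_mod_cast this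
    push_cast
    rw [← mul_assoc, h1]
  choose ξ hξ using this
  exact ⟨ξ, hξ⟩

variable (D : Datum ι)

/-- slopes belonging to a given normal direction. -/
def Bad (k l c : ℤ) : Set (ℤ × ℤ) :=
  {s | IsCoprime s.1 s.2 ∧ ∃ X ∈ D.cone, IsEnt D.S D.a X 1 ∧
    (∃ ρ : ℝ, ρ ≠ 0 ∧ ∀ v, Phi D.S D.a X v = ρ * (c * pr D.e v + k * pr D.μ v + l * pr D.lam v)) ∧
    ∃ t : ℝ, t ≠ 0 ∧ pr D.μ X = -s.2 * t ∧ pr D.lam X = s.1 * t}

theorem box_finite (a b : ℤ) : {s : ℤ × ℤ | |s.1| ≤ a ∧ |s.2| ≤ b}.Finite := by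
  refine ((Set.finite_Icc (-a) a).prod (Set.finite_Icc (-b) b)).subset ?_
  rintro ⟨x, y⟩ ⟨h1, h2⟩
  exact ⟨abs_le.mp h1, abs_le.mp h2⟩

theorem bad_finite (k l c : ℤ) : (Bad D k l c).Finite := by
  rcases (Bad D k l c).eq_empty_or_nonempty with h | ⟨⟨p₀, q₀⟩, hc₀, X₀, hX₀, hE₀, ⟨ρ₀, hρ₀, hP₀⟩, t₀, ht₀, hm₀, hl₀⟩
  · rw [h]; exact Set.finite_empty
  refine (box_finite |p₀| |q₀|).subset ?_
  rintro ⟨p, q⟩ ⟨hc, X, hX, hE, ⟨ρ, hρ, hP⟩, t, ht, hm, hl⟩
  have hXX : X₀ = X := by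
    refine gauss_inj D hX₀ hX hE₀ hE (ρ / ρ₀) fun v => ?_
    rw [hP, hP₀]; field_simp
  subst hXX
  simp only at hm hl hm₀ hl₀ hc hc₀
  have e1 : (q : ℝ) * t = q₀ * t₀ := by linarith
  have e2 : (p : ℝ) * t = p₀ * t₀ := by linarith
  have e3 : p * q₀ = p₀ * q := by
    have h1 : ((p : ℝ) * q₀) * (t * t₀) = (p₀ * q) * (t * t₀) := by
      calc ((p : ℝ) * q₀) * (t * t₀) = (p * t) * (q₀ * t₀) := by ring
        _ = (p₀ * t₀) * (q * t) := by rw [e2, e1]
        _ = (p₀ * q) * (t * t₀) := by ring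
    have h2 := mul_right_cancel₀ (mul_ne_zero ht ht₀) h1
    exact_mod_cast h2
  constructor
  · show |p| ≤ |p₀|
    by_cases h0 : p₀ = 0
    · rw [h0] at e2
      have : (p : ℝ) = 0 := by
        rw [Int.cast_zero, zero_mul] at e2
        exact (mul_eq_zero.mp e2).resolve_right ht
      have : p = 0 := by exact_mod_cast this
      rw [this, h0]
    · have hd : p ∣ p₀ := hc.dvd_of_dvd_mul_right (by rw [← e3]; exact dvd_mul_right _ _)
      exact Int.le_of_dvd (abs_pos.mpr h0) ((abs_dvd_abs _ _).mpr hd)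
  · show |q| ≤ |q₀|
    by_cases h0 : q₀ = 0
    · rw [h0] at e1
      have : (q : ℝ) = 0 := by
        rw [Int.cast_zero, zero_mul] at e1
        exact (mul_eq_zero.mp e1).resolve_right ht
      have : q = 0 := by exact_mod_cast this
      rw [this, h0]
    · have hd : q ∣ q₀ := hc.symm.dvd_of_dvd_mul_left (by rw [e3]; exact dvd_mul_left _ _)
      exact Int.le_of_dvd (abs_pos.mpr h0) ((abs_dvd_abs _ _).mpr hd)

theorem main : Goal D := by
  classical
  intro K hK hKC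
  -- dual vectors
  obtain ⟨κ, hκ, b, hb⟩ := dual_vectors (Matrix.of ![D.e, D.μ, D.lam]) D.indep
  let w : Fin 3 → ι → ℝ := fun j i => (b j i : ℝ)
  let β : Fin 3 → (ι → ℤ) → ℤ := fun j g => ∑ i, g i * b j i
  have hβ : ∀ j g, pr g (w j) = (β j g : ℝ) := by
    intro j g; simp [pr, w, β]
  have hbe : ∀ j, β j D.e = if (0 : Fin 3) = j then κ else 0 := fun j => by simpa using hb 0 j
  have hbμ : ∀ j, β j D.μ = if (1 : Fin 3) = j then κ else 0 := fun j => by simpa using hb 1 j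
  have hbl : ∀ j, β j D.lam = if (2 : Fin 3) = j then κ else 0 := fun j => by simpa using hb 2 j
  have hκR : (κ : ℝ) ≠ 0 := by exact_mod_cast hκ
  -- constants
  obtain ⟨δ₀, hδ₀, hgap₀⟩ := unif_pos D.S
    (fun g δ => g ≠ D.g₀ → ∀ m ∈ K, pr g m + δ ≤ pr D.g₀ m)
    (fun g δ δ' hle h hne m hm => by have := h hne m hm; linarith)
    (fun g hg => by
      by_cases hne : g = D.g₀
      · exact ⟨1, one_pos, fun h => absurd hne h⟩
      · obtain ⟨δ, h1, h2⟩ := compact_gap hK g D.g₀ fun m hm => (hKC hm).1 g hg hne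
        exact ⟨δ, h1, fun _ => h2⟩)
  obtain ⟨δ₁, hδ₁, hgap₁⟩ := unif_pos D.S
    (fun g δ => g ≠ D.g₁ → ∀ m ∈ K, pr D.g₁ m + δ ≤ pr g m)
    (fun g δ δ' hle h hne m hm => by have := h hne m hm; linarith)
    (fun g hg => by
      by_cases hne : g = D.g₁
      · exact ⟨1, one_pos, fun h => absurd hne h⟩
      · obtain ⟨δ, h1, h2⟩ := compact_gap hK D.g₁ g fun m hm => (hKC hm).2 g hg hne
        exact ⟨δ, h1, fun _ => h2⟩)
  obtain ⟨G, hG⟩ := compact_bound hK D.S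
  let δ := min δ₀ δ₁
  have hδ : 0 < δ := lt_min hδ₀ hδ₁
  let B : ℝ := Real.exp (G * Real.log (∑ h ∈ D.S, |(D.a h : ℝ)|) / δ)
  let Cs : Fin 3 → ℝ := fun j => ∑ h ∈ D.S, |((D.a h * β j h : ℤ) : ℝ)| * B
  have hCs : ∀ j, 0 ≤ Cs j := fun j => Finset.sum_nonneg fun _ _ => by positivity
  let C : ℝ := Cs 0 + Cs 1 + Cs 2
  have hC : 0 ≤ C := by have := hCs 0; have := hCs 1; have := hCs 2; simp only [C]; linarith
  have hC0 : Cs 0 ≤ C := by have := hCs 1; have := hCs 2; simp only [C]; linarith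
  have hC1 : Cs 1 ≤ C := by have := hCs 0; have := hCs 2; simp only [C]; linarith
  have hC2 : Cs 2 ≤ C := by have := hCs 0; have := hCs 1; simp only [C]; linarith
  obtain ⟨N, hN⟩ := exists_nat_gt (2 * C)
  let M₀ : ℤ := ⌊2 * N * C⌋
  let M₁ : ℤ := ⌊N * C⌋
  let Box : Finset (ℤ × ℤ × ℤ) :=
    Finset.Icc (-(N + 1 : ℤ)) (N + 1) ×ˢ (Finset.Icc (-(N + 1 : ℤ)) (N + 1) ×ˢ Finset.Icc (-M₁) M₁)
  have hfin : ({s : ℤ × ℤ | |s.1| ≤ M₀ ∧ |s.2| ≤ M₀} ∪
      ⋃ x ∈ Box, Bad D x.1 x.2.1 x.2.2).Finite := by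
    refine (box_finite M₀ M₀).union ?_
    exact Set.Finite.biUnion (Finset.finite_toSet Box) fun x _ => bad_finite D _ _ _
  refine hfin.subset ?_
  rintro ⟨p, q⟩ ⟨hcop, m, hmK, hrat, ⟨hmc, t, ht1, ht2, ht3⟩, s₀, hs₀, hmin⟩
  simp only at hcop ht1 ht2 ht3
  by_cases hsmall : |p| ≤ M₀ ∧ |q| ≤ M₀
  · exact Or.inl hsmall
  right
  have hlarge : 2 * N * C < ((max |p| |q| : ℤ) : ℝ) := by
    by_contra hcon
    push Not at hcon
    have h1 : max |p| |q| ≤ M₀ := Int.le_floor.mpr hcon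
    exact hsmall ⟨le_trans (le_max_left _ _) h1, le_trans (le_max_right _ _) h1⟩
  -- t ≠ 0
  have htne : t ≠ 0 := by
    intro h
    rw [h, mul_zero] at ht1 ht2
    rcases D.torus m hmc with h1 | h1
    · exact h1 ht1
    · exact h1 ht2
  -- the point X
  have hs0 : 0 < s₀ := hs₀.1
  set X : ι → ℝ := s₀ • m with hX
  have hXc : X ∈ D.cone := cone_smul hmc hs0
  have hXE : IsEnt D.S D.a X 1 := by
    have := hs₀.smul hs0
    rwa [div_self hs0.ne'] at this
  -- Lagrange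
  obtain ⟨σ, hσ, hσt⟩ : ∃ σ : ℤ, (σ = 1 ∨ σ = -1) ∧ ((SignType.sign t : SignType) : ℝ) = σ := by
    rcases lt_or_gt_of_ne htne with h | h
    · exact ⟨-1, Or.inr rfl, by rw [sign_neg h]; simp⟩
    · exact ⟨1, Or.inl rfl, by rw [sign_pos h]; simp⟩
  have lag : ∀ (v : ι → ℝ) (τ : ℝ), pr D.μ v = -q * τ → pr D.lam v = p * τ → pr D.e v = σ * τ →
      Phi D.S D.a X v = 0 := by
    intro v τ h1 h2 h3
    refine le_antisymm (lagrange D t hmc ht1 ht2 ht3 htne hs₀ hmin v τ h1 h2 (by rw [hσt]; exact h3)) ?_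
    have := lagrange D t hmc ht1 ht2 ht3 htne hs₀ hmin ((-1 : ℝ) • v) (-τ)
      (by rw [pr_smul, h1]; ring) (by rw [pr_smul, h2]; ring) (by rw [pr_smul, h3, hσt]; ring)
    rw [Phi_smul] at this
    linarith
  -- decomposition
  set Φ : Fin 3 → ℝ := fun j => Phi D.S D.a X (w j) with hΦ
  have decomp : ∀ v, Phi D.S D.a X v =
      (pr D.e v * Φ 0 + pr D.μ v * Φ 1 + pr D.lam v * Φ 2) / κ := by
    intro v
    have h1 := lag (v - ((pr D.e v / κ) • w 0 + (pr D.μ v / κ) • w 1 + (pr D.lam v / κ) • w 2)) 0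
      (by
        simp only [pr_sub, pr_add, pr_smul, hβ, hbμ]
        simp; field_simp; ring)
      (by
        simp only [pr_sub, pr_add, pr_smul, hβ, hbl]
        simp; field_simp; ring)
      (by
        simp only [pr_sub, pr_add, pr_smul, hβ, hbe]
        simp; field_simp; ring)
    rw [Phi_sub, Phi_add, Phi_add, Phi_smul, Phi_smul, Phi_smul] at h1
    have h2 : Phi D.S D.a X v = pr D.e v / κ * Φ 0 + pr D.μ v / κ * Φ 1 + pr D.lam v / κ * Φ 2 := by
      simp only [hΦ]; linarith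
    rw [h2]; field_simp
  have hrel : (q : ℝ) * Φ 1 - p * Φ 2 = σ * Φ 0 := by
    have h1 := lag ((σ : ℝ) • w 0 - (q : ℝ) • w 1 + (p : ℝ) • w 2) κ
      (by simp only [pr_sub, pr_add, pr_smul, hβ, hbμ]; simp)
      (by simp only [pr_sub, pr_add, pr_smul, hβ, hbl]; simp)
      (by simp only [pr_sub, pr_add, pr_smul, hβ, hbe]; simp)
    rw [Phi_add, Phi_sub, Phi_smul, Phi_smul, Phi_smul] at h1
    simp only [hΦ]; linarith
  have hself := phi_self_pos D hXc hXE
  have hnz : ¬ (Φ 1 = 0 ∧ Φ 2 = 0) := by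
    rintro ⟨h1, h2⟩
    rw [h1, h2] at hrel
    have h0 : Φ 0 = 0 := by
      rcases hσ with h | h <;> rw [h] at hrel <;> push_cast at hrel <;> linarith
    rw [decomp X, h0, h1, h2] at hself
    simp at hself
  -- rational structure
  obtain ⟨d, hd, ξ, hξ⟩ := clear_denominators m hrat
  have hdR : (0 : ℝ) < d := by exact_mod_cast hd
  let n : (ι → ℤ) → ℤ := fun g => ∑ i, g i * ξ i
  have hn : ∀ g, (n g : ℝ) = d * pr g m := by
    intro g
    simp only [n, pr, Finset.mul_sum]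
    push_cast
    refine Finset.sum_congr rfl fun i _ => ?_
    rw [← hξ i]; ring
  let T : ℝ := Real.exp (s₀ / d)
  have hT : 0 < T := Real.exp_pos _
  have hTn : ∀ g, T ^ (n g) = Real.exp (pr g X) := by
    intro g
    rw [← Real.rpow_intCast, ← Real.exp_mul, hn, hX, pr_smul]
    congr 1
    field_simp
  have hsum : ∀ β' : (ι → ℤ) → ℤ, ∑ h ∈ D.S, ((D.a h * β' h : ℤ) : ℝ) * T ^ (n h) =
      ∑ h ∈ D.S, (D.a h : ℝ) * (β' h : ℝ) * Real.exp (pr h X) := by
    intro β'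
    refine Finset.sum_congr rfl fun h _ => ?_
    rw [hTn]; push_cast; ring
  have hΦsum : ∀ j, ∑ h ∈ D.S, ((D.a h * β j h : ℤ) : ℝ) * T ^ (n h) = Φ j := by
    intro j
    rw [hsum, hΦ]
    simp only [Phi, hβ]
  have a0' : |D.a D.g₀| = 1 := by rw [D.a₀]; simp
  have hmc' : m ∈ Cone D.S D.g₀ D.g₁ := hmc
  have key := arith_main D.S D.a n D.g₀ D.g₁ D.g₀_mem D.g₁_mem a0' D.a₁
    (fun h hh hne => by
      have h1 := mul_lt_mul_of_pos_left (hmc'.1 h hh hne) hdR
      rw [← hn, ← hn] at h1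
      exact_mod_cast h1)
    (fun h hh hne => by
      have h1 := mul_lt_mul_of_pos_left (hmc'.2 h hh hne) hdR
      rw [← hn, ← hn] at h1
      exact_mod_cast h1)
    T hT
    (by
      have h1 : E D.S D.a X = 0 := by
        have := hXE.2.1; rwa [one_smul] at this
      rw [← h1, E]
      exact Finset.sum_congr rfl fun g _ => by rw [hTn])
    B
    (conj_bound D.S D.a n D.g₀ D.g₁ D.g₀_mem D.g₁_mem a0' D.a₁ d δ G hdR hδ
      (fun h hh hne => by
        rw [hn, hn]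
        have h1 := hgap₀ h hh hne m hmK
        have h2 : δ ≤ δ₀ := min_le_left _ _
        nlinarith)
      (fun h hh hne => by
        rw [hn, hn]
        have h1 := hgap₁ h hh hne m hmK
        have h2 : δ ≤ δ₁ := min_le_right _ _
        nlinarith)
      (fun h hh => by
        rw [hn, abs_mul, abs_of_pos hdR]
        have := hG m hmK h hh
        gcongr))
    (β 1) (β 2) (fun g => σ * β 0 g) C hC hC1 hC2
    (by
      refine le_trans (le_of_eq ?_) hC0
      refine Finset.sum_congr rfl fun h _ => ?_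
      rcases hσ with h1 | h1 <;> rw [h1] <;> simp)
    N hN p q hlarge
    (by
      rw [hΦsum, hΦsum, hrel, ← hΦsum 0, Finset.mul_sum]
      refine Finset.sum_congr rfl fun h _ => ?_
      push_cast; ring)
    (by rw [hΦsum, hΦsum]; exact hnz)
  obtain ⟨k, l, c, hk, hl, hc, ρ, e1, e2, e3⟩ := key
  rw [hΦsum] at e1 e2
  have e3' : σ * Φ 0 = c * ρ := by
    rw [← e3, ← hΦsum 0, Finset.mul_sum]
    refine Finset.sum_congr rfl fun h _ => ?_
    push_cast; ring
  have hσ2 : (σ : ℝ) * σ = 1 := by rcases hσ with h | h <;> rw [h] <;> norm_num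
  have hΦ0 : Φ 0 = (σ * c : ℤ) * ρ := by
    push_cast
    calc Φ 0 = (σ * σ) * Φ 0 := by rw [hσ2, one_mul]
      _ = σ * (σ * Φ 0) := by ring
      _ = σ * (c * ρ) := by rw [e3']
      _ = σ * c * ρ := by ring
  have hρ : ρ ≠ 0 := by
    intro h
    apply hnz
    rw [e1, e2, h]; simp
  have hcabs : |c| ≤ M₁ := by
    have : ((|c| : ℤ) : ℝ) ≤ N * C := by push_cast; exact hc
    exact Int.le_floor.mpr this
  have hσc : |σ * c| ≤ M₁ := by
    rw [abs_mul]
    rcases hσ with h | h <;> rw [h] <;> simpa using hcabs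
  refine Set.mem_biUnion (x := ((k, l, σ * c) : ℤ × ℤ × ℤ)) ?_ ?_
  · simp only [Box, Finset.coe_product, Set.mem_prod, Finset.coe_Icc, Set.mem_Icc]
    exact ⟨abs_le.mp hk, abs_le.mp hl, abs_le.mp hσc⟩
  · refine ⟨hcop, X, hXc, hXE, ⟨ρ / κ, div_ne_zero hρ hκR, fun v => ?_⟩, s₀ * t,
      mul_ne_zero hs0.ne' htne, ?_, ?_⟩
    · rw [decomp, e1, e2, hΦ0]
      field_simp
    · rw [hX, pr_smul, ht1]; ring
    · rw [hX, pr_smul, ht2]; ring

end MPG
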