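import Mathlib
import Pool.Agent.MPG.MLag
import Pool.Agent.MPG.Main

/-!
The general theorem for MP_100167_gt, several cusps.
-/

open Finset Filter Topology Matrix

namespace MPG

variable {ι : Type} [Fintype ι]

/-- integral dual vectors. -/
theorem dual_vectors' {I : Type*} [Fintype I] [DecidableEq I] (M : Matrix I ι ℤ)
    (h : LinearIndependent ℤ M) :
    ∃ κ : ℤ, κ ≠ 0 ∧ ∃ b : I → ι → ℤ, ∀ i j, ∑ r, M i r * b j r = if i = j then κ else 0 := by
  classical
  let G := M * M.transpose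
  have hdet : G.det ≠ 0 := by
    intro h0
    obtain ⟨w, hw0, hw⟩ := Matrix.exists_vecMul_eq_zero_iff.mpr h0
    have e1 : (w ᵥ* M) ⬝ᵥ (w ᵥ* M) = 0 := by
      have : (w ᵥ* M) ⬝ᵥ (w ᵥ* M) = (w ᵥ* G) ⬝ᵥ w := by
        simp only [G]
        rw [← Matrix.vecMul_vecMul, Matrix.vecMul_transpose, dotProduct_comm _ w,
          Matrix.dotProduct_mulVec]
      rw [this, hw, zero_dotProduct]
    have e2 : w ᵥ* M = 0 := by
      rwa [dotProduct_self_eq_zero] at e1
    apply hw0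
    rw [Fintype.linearIndependent_iff] at h
    funext i
    refine h w ?_ i
    funext r
    have := congrFun e2 r
    rw [Matrix.vecMul, dotProduct] at this
    simpa [Finset.sum_apply] using this
  refine ⟨G.det, hdet, fun j r => (M.transpose * G.adjugate) r j, fun i j => ?_⟩
  have e : M * (M.transpose * G.adjugate) = G.det • (1 : Matrix I I ℤ) := by
    rw [← Matrix.mul_assoc]; exact Matrix.mul_adjugate G
  have e2 := congrFun (congrFun e i) j
  rw [Matrix.mul_apply] at e2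
  rw [e2, Matrix.smul_apply, Matrix.one_apply]
  simp

theorem pr_sum {A : Type*} (s : Finset A) (g : ι → ℤ) (f : A → ι → ℝ) :
    pr g (∑ i ∈ s, f i) = ∑ i ∈ s, pr g (f i) := by
  classical
  induction s using Finset.induction_on with
  | empty => simp [pr_zero]
  | insert i s hi ih => rw [Finset.sum_insert hi, Finset.sum_insert hi, pr_add, ih]

theorem Phi_sum {A : Type*} (S : Finset (ι → ℤ)) (a : (ι → ℤ) → ℤ) (X : ι → ℝ) (s : Finset A)
    (f : A → ι → ℝ) : Phi S a X (∑ i ∈ s, f i) = ∑ i ∈ s, Phi S a X (f i) := by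
  classical
  induction s using Finset.induction_on with
  | empty => simp [Phi, pr_zero]
  | insert i s hi ih => rw [Finset.sum_insert hi, Finset.sum_insert hi, Phi_add, ih]

theorem slope_le {p q p₀ q₀ : ℤ} (hc : IsCoprime p q) {t t₀ : ℝ} (ht : t ≠ 0) (ht₀ : t₀ ≠ 0)
    (e1 : (q : ℝ) * t = q₀ * t₀) (e2 : (p : ℝ) * t = p₀ * t₀) : |p| ≤ |p₀| ∧ |q| ≤ |q₀| := by
  have e3 : p * q₀ = p₀ * q := by
    have h1 : ((p : ℝ) * q₀) * (t * t₀) = (p₀ * q) * (t * t₀) := by
      calc ((p : ℝ) * q₀) * (t * t₀) = (p * t) * (q₀ * t₀) := by ring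
        _ = (p₀ * t₀) * (q * t) := by rw [e2, e1]
        _ = (p₀ * q) * (t * t₀) := by ring
    have h2 := mul_right_cancel₀ (mul_ne_zero ht ht₀) h1
    exact_mod_cast h2
  constructor
  · by_cases h0 : p₀ = 0
    · rw [h0] at e2
      have : (p : ℝ) = 0 := by
        rw [Int.cast_zero, zero_mul] at e2
        exact (mul_eq_zero.mp e2).resolve_right ht
      have : p = 0 := by exact_mod_cast this
      rw [this, h0]
    · have hd : p ∣ p₀ := hc.dvd_of_dvd_mul_right (by rw [← e3]; exact dvd_mul_right _ _)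
      exact Int.le_of_dvd (abs_pos.mpr h0) ((abs_dvd_abs _ _).mpr hd)
  · by_cases h0 : q₀ = 0
    · rw [h0] at e1
      have : (q : ℝ) = 0 := by
        rw [Int.cast_zero, zero_mul] at e1
        exact (mul_eq_zero.mp e1).resolve_right ht
      have : q = 0 := by exact_mod_cast this
      rw [this, h0]
    · have hd : q ∣ q₀ := hc.symm.dvd_of_dvd_mul_left (by rw [e3]; exact dvd_mul_left _ _)
      exact Int.le_of_dvd (abs_pos.mpr h0) ((abs_dvd_abs _ _).mpr hd)

variable {J : Type} [Fintype J] (D : MDatum ι J)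

/-- Code of a torus: `inl (p, q, σ)` for a small slope, `inr (k, l, c)` for a large one. -/
abbrev Code := (ℤ × ℤ × ℤ) ⊕ (ℤ × ℤ × ℤ)

def InV (code : J → Code) (v : ι → ℝ) : Prop :=
  ∀ j p q σ, code j = Sum.inl (p, q, σ) → (p : ℝ) * pr (D.μ j) v + q * pr (D.lam j) v = 0

noncomputable def term (x : Code) (u w : ℝ) : ℝ :=
  match x with
  | Sum.inl (p, q, σ) => -(σ : ℝ) * ((p * w - q * u) / (p ^ 2 + q ^ 2))
  | Sum.inr (k, l, c) => (k : ℝ) / c * u + (l : ℝ) / c * w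

noncomputable def Lf (code : J → Code) (v : ι → ℝ) : ℝ :=
  pr D.e v + ∑ j, term (code j) (pr (D.μ j) v) (pr (D.lam j) v)

def MBad (code : J → Code) : Set (J → ℤ × ℤ) :=
  {s | ∃ X ∈ D.cone, IsEnt D.S D.a X 1 ∧
    (∀ j, IsCoprime (s j).1 (s j).2 ∧ ∃ t : ℝ, t ≠ 0 ∧ pr (D.μ j) X = -(s j).2 * t ∧
      pr (D.lam j) X = (s j).1 * t) ∧ InV D code X ∧
    ∃ ρ : ℝ, ρ ≠ 0 ∧ ∀ v, InV D code v → Phi D.S D.a X v = ρ * Lf D code v}

theorem mbad_finite (code : J → Code) : (MBad D code).Finite := by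
  rcases (MBad D code).eq_empty_or_nonempty with h | ⟨s₀, X₀, hX₀, hE₀, hs₀, hV₀, ρ₀, hρ₀, hP₀⟩
  · rw [h]; exact Set.finite_empty
  have hbox : (Set.pi Set.univ fun j : J => {x : ℤ × ℤ | |x.1| ≤ |(s₀ j).1| ∧ |x.2| ≤ |(s₀ j).2|}).Finite :=
    Set.Finite.pi fun j => box_finite _ _
  refine hbox.subset ?_
  rintro s ⟨X, hX, hE, hs, hV, ρ, hρ, hP⟩
  have hXX : X₀ = X := by
    refine D.gauss_inj hX₀ hX hE₀ hE (ρ / ρ₀) ?_ ?_
    · rw [hP _ hV₀, hP₀ _ hV₀]; field_simp
    · rw [hP _ hV, hP₀ _ hV]; field_simp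
  subst hXX
  intro j _
  obtain ⟨hc, t, ht, hm, hl⟩ := hs j
  obtain ⟨hc₀, t₀, ht₀, hm₀, hl₀⟩ := hs₀ j
  exact slope_le hc ht ht₀ (by linarith) (by linarith)

/-- the finite set of codes. -/
def CB (M₀ M₁ M₂ : ℤ) : Set Code :=
  Sum.inl '' {x : ℤ × ℤ × ℤ | |x.1| ≤ M₀ ∧ |x.2.1| ≤ M₀ ∧ |x.2.2| ≤ 1} ∪
    Sum.inr '' {x : ℤ × ℤ × ℤ | |x.1| ≤ M₂ ∧ |x.2.1| ≤ M₂ ∧ |x.2.2| ≤ M₁}

theorem box3_finite (a b c : ℤ) : {x : ℤ × ℤ × ℤ | |x.1| ≤ a ∧ |x.2.1| ≤ b ∧ |x.2.2| ≤ c}.Finite := by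
  refine ((Set.finite_Icc (-a) a).prod ((Set.finite_Icc (-b) b).prod (Set.finite_Icc (-c) c))).subset ?_
  rintro ⟨x, y, z⟩ ⟨h1, h2, h3⟩
  exact ⟨abs_le.mp h1, abs_le.mp h2, abs_le.mp h3⟩

theorem CB_finite (M₀ M₁ M₂ : ℤ) : (CB M₀ M₁ M₂).Finite :=
  ((box3_finite _ _ _).image _).union ((box3_finite _ _ _).image _)

theorem mmain : MGoal D := by
  classical
  intro K hK hKC
  -- dual vectors
  let Mx : Unit ⊕ (J ⊕ J) → ι → ℤ := Sum.elim (fun _ : Unit => D.e) (Sum.elim D.μ D.lam)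
  obtain ⟨κ, hκ, b, hb⟩ := dual_vectors' (I := Unit ⊕ (J ⊕ J)) (Matrix.of Mx) D.indep
  let w : Unit ⊕ (J ⊕ J) → ι → ℝ := fun j i => (b j i : ℝ)
  let β : Unit ⊕ (J ⊕ J) → (ι → ℤ) → ℤ := fun j g => ∑ i, g i * b j i
  have hβ : ∀ j g, pr g (w j) = (β j g : ℝ) := by
    intro j g; simp [pr, w, β]
  have hβM : ∀ i j, β j (Mx i) = if i = j then κ else 0 := fun i j => by simpa using hb i j
  have hκR : (κ : ℝ) ≠ 0 := by exact_mod_cast hκ
  -- constants
  obtain ⟨δ₀, hδ₀, hgap₀⟩ := unif_pos D.S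
    (fun g δ => g ≠ D.g₀ → ∀ m ∈ K, pr g m + δ ≤ pr D.g₀ m)
    (fun g δ δ' hle h hne m hm => by have := h hne m hm; linarith)
    (fun g hg => by
      by_cases hne : g = D.g₀
      · exact ⟨1, one_pos, fun h => absurd hne h⟩
      · obtain ⟨δ, h1, h2⟩ := compact_gap hK g D.g₀ fun m hm => (hKC hm).1 g hg hne
        exact ⟨δ, h1, fun _ => h2⟩)
  obtain ⟨δ₁, hδ₁, hgap₁⟩ := unif_pos D.S
    (fun g δ => g ≠ D.g₁ → ∀ m ∈ K, pr D.g₁ m + δ ≤ pr g m)
    (fun g δ δ' hle h hne m hm => by have := h hne m hm; linarith)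
    (fun g hg => by
      by_cases hne : g = D.g₁
      · exact ⟨1, one_pos, fun h => absurd hne h⟩
      · obtain ⟨δ, h1, h2⟩ := compact_gap hK D.g₁ g fun m hm => (hKC hm).2 g hg hne
        exact ⟨δ, h1, fun _ => h2⟩)
  obtain ⟨G, hG⟩ := compact_bound hK D.S
  let δ := min δ₀ δ₁
  have hδ : 0 < δ := lt_min hδ₀ hδ₁
  let B : ℝ := Real.exp (G * Real.log (∑ h ∈ D.S, |(D.a h : ℝ)|) / δ)
  let Cs : Unit ⊕ (J ⊕ J) → ℝ := fun j => ∑ h ∈ D.S, |((D.a h * β j h : ℤ) : ℝ)| * B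
  have hCs : ∀ j, 0 ≤ Cs j := fun j => Finset.sum_nonneg fun _ _ => by positivity
  let C : ℝ := ∑ j, Cs j
  have hCj : ∀ j, Cs j ≤ C := fun j =>
    Finset.single_le_sum (f := Cs) (fun i _ => hCs i) (Finset.mem_univ j)
  have hC : 0 ≤ C := Finset.sum_nonneg fun i _ => hCs i
  obtain ⟨N, hN⟩ := exists_nat_gt (2 * C)
  let M₀ : ℤ := ⌊2 * N * C⌋
  let M₁ : ℤ := ⌊N * C⌋
  have hfin : (⋃ code ∈ Set.pi (Set.univ : Set J) (fun _ => CB M₀ M₁ (N + 1)), MBad D code).Finite :=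
    (Set.Finite.pi fun _ => CB_finite _ _ _).biUnion fun code _ => mbad_finite D code
  refine hfin.subset ?_
  rintro s ⟨hcop, m, hmK, hrat, ⟨hmc, t, ht1, ht3⟩, s₀, hs₀, hmin⟩
  -- t ≠ 0
  have htne : ∀ j, t j ≠ 0 := by
    intro j h
    rcases D.torus m hmc j with h1 | h1
    · apply h1; rw [(ht1 j).1, h, mul_zero]
    · apply h1; rw [(ht1 j).2, h, mul_zero]
  -- the point X
  have hs0 : 0 < s₀ := hs₀.1
  set X : ι → ℝ := s₀ • m with hX
  have hXc : X ∈ D.cone := cone_smul hmc hs0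
  have hXE : IsEnt D.S D.a X 1 := by
    have := hs₀.smul hs0
    rwa [div_self hs0.ne'] at this
  -- Lagrange
  have hσex : ∀ j, ∃ σ : ℤ, (σ = 1 ∨ σ = -1) ∧ ((SignType.sign (t j) : SignType) : ℝ) = σ := by
    intro j
    rcases lt_or_gt_of_ne (htne j) with h | h
    · exact ⟨-1, Or.inr rfl, by rw [sign_neg h]; simp⟩
    · exact ⟨1, Or.inl rfl, by rw [sign_pos h]; simp⟩
  choose σ hσ hσt using hσex
  have lag : ∀ (v : ι → ℝ) (τ : J → ℝ),
      (∀ j, pr (D.μ j) v = -(s j).2 * τ j ∧ pr (D.lam j) v = (s j).1 * τ j) →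
      pr D.e v = ∑ j, (σ j : ℝ) * τ j → Phi D.S D.a X v = 0 := by
    intro v τ h1 h3
    refine le_antisymm (mlagrange D t hmc ht1 ht3 htne hs₀ hmin v τ h1 ?_) ?_
    · rw [h3]; exact Finset.sum_congr rfl fun j _ => by rw [hσt]
    have := mlagrange D t hmc ht1 ht3 htne hs₀ hmin ((-1 : ℝ) • v) (fun j => -τ j)
      (fun j => ⟨by rw [pr_smul, (h1 j).1]; ring, by rw [pr_smul, (h1 j).2]; ring⟩)
      (by
        rw [pr_smul, h3, Finset.mul_sum]
        exact Finset.sum_congr rfl fun j _ => by rw [hσt]; ring)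
    rw [Phi_smul] at this
    linarith
  -- decomposition
  set Φ : Unit ⊕ (J ⊕ J) → ℝ := fun j => Phi D.S D.a X (w j) with hΦ
  have decomp0 : ∀ v, Phi D.S D.a X v = ∑ i, pr (Mx i) v / κ * Φ i := by
    intro v
    have hpair : ∀ i', pr (Mx i') (v - ∑ i, (pr (Mx i) v / κ) • w i) = 0 := by
      intro i'
      rw [pr_sub, pr_sum]
      have : ∑ i, pr (Mx i') ((pr (Mx i) v / κ) • w i) = pr (Mx i') v := by
        rw [Finset.sum_eq_single i']
        · rw [pr_smul, hβ, hβM, if_pos rfl]; field_simp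
        · intro i _ hne
          rw [pr_smul, hβ, hβM, if_neg (Ne.symm hne)]; simp
        · intro h; exact absurd (Finset.mem_univ _) h
      rw [this, sub_self]
    have h1 := lag (v - ∑ i, (pr (Mx i) v / κ) • w i) (fun _ => 0)
      (fun j => ⟨by
        have := hpair (Sum.inr (Sum.inl j))
        simp only [Mx, Sum.elim_inr, Sum.elim_inl] at this ⊢
        rw [this]; ring, by
        have := hpair (Sum.inr (Sum.inr j))
        simp only [Mx, Sum.elim_inr] at this ⊢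
        rw [this]; ring⟩)
      (by
        have := hpair (Sum.inl ())
        simp only [Mx, Sum.elim_inl] at this ⊢
        rw [this]; simp)
    rw [Phi_sub, Phi_sum] at h1
    have h2 : Phi D.S D.a X v = ∑ i, Phi D.S D.a X ((pr (Mx i) v / κ) • w i) := by linarith
    rw [h2]
    exact Finset.sum_congr rfl fun i _ => by rw [Phi_smul]
  let Φe := Φ (Sum.inl ())
  let Φμ : J → ℝ := fun j => Φ (Sum.inr (Sum.inl j))
  let Φl : J → ℝ := fun j => Φ (Sum.inr (Sum.inr j))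
  have decomp : ∀ v, Phi D.S D.a X v =
      (pr D.e v * Φe + ∑ j, (pr (D.μ j) v * Φμ j + pr (D.lam j) v * Φl j)) / κ := by
    intro v
    rw [decomp0, Fintype.sum_sum_type, Fintype.sum_sum_type, Finset.sum_add_distrib, add_div, add_div,
      Finset.sum_div, Finset.sum_div]
    simp only [Finset.univ_unique, Finset.sum_singleton, Mx, Sum.elim_inl, Sum.elim_inr, Φe, Φμ, Φl]
    congr 1
    · ring
    · congr 1 <;> exact Finset.sum_congr rfl fun j _ => by ring
  have hrel : ∀ j, ((s j).2 : ℝ) * Φμ j - (s j).1 * Φl j = σ j * Φe := by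
    intro j
    have h1 := lag ((σ j : ℝ) • w (Sum.inl ()) - ((s j).2 : ℝ) • w (Sum.inr (Sum.inl j)) +
        ((s j).1 : ℝ) • w (Sum.inr (Sum.inr j))) (fun i => if i = j then (κ : ℝ) else 0)
      (fun i => by
        have a1 := hβM (Sum.inr (Sum.inl i)) (Sum.inl ())
        have a2 := hβM (Sum.inr (Sum.inl i)) (Sum.inr (Sum.inl j))
        have a3 := hβM (Sum.inr (Sum.inl i)) (Sum.inr (Sum.inr j))
        have c1 := hβM (Sum.inr (Sum.inr i)) (Sum.inl ())
        have c2 := hβM (Sum.inr (Sum.inr i)) (Sum.inr (Sum.inl j))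
        have c3 := hβM (Sum.inr (Sum.inr i)) (Sum.inr (Sum.inr j))
        simp only [Mx, Sum.elim_inr, Sum.elim_inl] at a1 a2 a3 c1 c2 c3
        constructor
        · rw [pr_add, pr_sub, pr_smul, pr_smul, pr_smul, hβ, hβ, hβ, a1, a2, a3]
          by_cases hij : i = j
          · subst hij; simp
          · simp [hij]
        · rw [pr_add, pr_sub, pr_smul, pr_smul, pr_smul, hβ, hβ, hβ, c1, c2, c3]
          by_cases hij : i = j
          · subst hij; simp
          · simp [hij])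
      (by
        have a1 := hβM (Sum.inl ()) (Sum.inl ())
        have a2 := hβM (Sum.inl ()) (Sum.inr (Sum.inl j))
        have a3 := hβM (Sum.inl ()) (Sum.inr (Sum.inr j))
        simp only [Mx, Sum.elim_inl] at a1 a2 a3
        rw [pr_add, pr_sub, pr_smul, pr_smul, pr_smul, hβ, hβ, hβ, a1, a2, a3]
        simp)
    rw [Phi_add, Phi_sub, Phi_smul, Phi_smul, Phi_smul] at h1
    simp only [Φμ, Φl, Φe, hΦ]; linarith
  have hself := D.phi_self_pos hXc hXE
  have hΦe : Φe ≠ 0 := by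
    intro h0
    rw [decomp X, h0, mul_zero, zero_add] at hself
    have : ∑ j, (pr (D.μ j) X * Φμ j + pr (D.lam j) X * Φl j) = 0 := by
      refine Finset.sum_eq_zero fun j _ => ?_
      have h1 := hrel j
      rw [h0, mul_zero] at h1
      rw [hX, pr_smul, pr_smul, (ht1 j).1, (ht1 j).2]
      linear_combination (-(s₀ * t j)) * h1
    rw [this, zero_div] at hself
    exact lt_irrefl _ hself
  -- rational structure
  obtain ⟨d, hd, ξ, hξ⟩ := clear_denominators m hrat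
  have hdR : (0 : ℝ) < d := by exact_mod_cast hd
  let n : (ι → ℤ) → ℤ := fun g => ∑ i, g i * ξ i
  have hn : ∀ g, (n g : ℝ) = d * pr g m := by
    intro g
    simp only [n, pr, Finset.mul_sum]
    push_cast
    refine Finset.sum_congr rfl fun i _ => ?_
    rw [← hξ i]; ring
  let T : ℝ := Real.exp (s₀ / d)
  have hT : 0 < T := Real.exp_pos _
  have hTn : ∀ g, T ^ (n g) = Real.exp (pr g X) := by
    intro g
    rw [← Real.rpow_intCast, ← Real.exp_mul, hn, hX, pr_smul]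
    congr 1
    field_simp
  have hsum : ∀ β' : (ι → ℤ) → ℤ, ∑ h ∈ D.S, ((D.a h * β' h : ℤ) : ℝ) * T ^ (n h) =
      ∑ h ∈ D.S, (D.a h : ℝ) * (β' h : ℝ) * Real.exp (pr h X) := by
    intro β'
    refine Finset.sum_congr rfl fun h _ => ?_
    rw [hTn]; push_cast; ring
  have hΦsum : ∀ j, ∑ h ∈ D.S, ((D.a h * β j h : ℤ) : ℝ) * T ^ (n h) = Φ j := by
    intro j
    rw [hsum, hΦ]
    simp only [Phi, hβ]
  have a0' : |D.a D.g₀| = 1 := by rw [D.a₀]; simp
  have hmc' : m ∈ Cone D.S D.g₀ D.g₁ := hmc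
  have key : ∀ j, ¬ (|(s j).1| ≤ M₀ ∧ |(s j).2| ≤ M₀) → ∃ k l c : ℤ, |k| ≤ N + 1 ∧ |l| ≤ N + 1 ∧
      |c| ≤ M₁ ∧ ∃ ρ : ℝ, Φμ j = k * ρ ∧ Φl j = l * ρ ∧ Φe = c * ρ := by
    intro j hj
    have hlarge : 2 * N * C < ((max |(s j).1| |(s j).2| : ℤ) : ℝ) := by
      by_contra hcon
      push Not at hcon
      have h1 : max |(s j).1| |(s j).2| ≤ M₀ := Int.le_floor.mpr hcon
      exact hj ⟨le_trans (le_max_left _ _) h1, le_trans (le_max_right _ _) h1⟩
    obtain ⟨k, l, c, hk, hl, hc, ρ, e1, e2, e3⟩ :=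
      arith_main D.S D.a n D.g₀ D.g₁ D.g₀_mem D.g₁_mem a0' D.a₁
      (fun h hh hne => by
        have h1 := mul_lt_mul_of_pos_left (hmc'.1 h hh hne) hdR
        rw [← hn, ← hn] at h1
        exact_mod_cast h1)
      (fun h hh hne => by
        have h1 := mul_lt_mul_of_pos_left (hmc'.2 h hh hne) hdR
        rw [← hn, ← hn] at h1
        exact_mod_cast h1)
      T hT
      (by
        have h1 : E D.S D.a X = 0 := by
          have := hXE.2.1; rwa [one_smul] at this
        rw [← h1, E]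
        exact Finset.sum_congr rfl fun g _ => by rw [hTn])
      B
      (conj_bound D.S D.a n D.g₀ D.g₁ D.g₀_mem D.g₁_mem a0' D.a₁ d δ G hdR hδ
        (fun h hh hne => by
          rw [hn, hn]
          have h1 := hgap₀ h hh hne m hmK
          have h2 : δ ≤ δ₀ := min_le_left _ _
          nlinarith)
        (fun h hh hne => by
          rw [hn, hn]
          have h1 := hgap₁ h hh hne m hmK
          have h2 : δ ≤ δ₁ := min_le_right _ _
          nlinarith)
        (fun h hh => by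
          rw [hn, abs_mul, abs_of_pos hdR]
          have := hG m hmK h hh
          gcongr))
      (β (Sum.inr (Sum.inl j))) (β (Sum.inr (Sum.inr j))) (fun g => σ j * β (Sum.inl ()) g) C hC
      (hCj _) (hCj _)
      (by
        refine le_trans (le_of_eq ?_) (hCj (Sum.inl ()))
        refine Finset.sum_congr rfl fun h _ => ?_
        rcases hσ j with h1 | h1 <;> rw [h1] <;> simp)
      N hN (s j).1 (s j).2 hlarge
      (by
        rw [hΦsum, hΦsum]
        have h1 := hrel j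
        simp only [Φμ, Φl, Φe] at h1
        rw [h1, ← hΦsum (Sum.inl ()), Finset.mul_sum]
        refine Finset.sum_congr rfl fun h _ => ?_
        push_cast; ring)
      (by
        rw [hΦsum, hΦsum]
        rintro ⟨h1, h2⟩
        have h3 := hrel j
        simp only [Φμ, Φl] at h3
        rw [h1, h2] at h3
        apply hΦe
        rcases hσ j with h | h <;> rw [h] at h3 <;> push_cast at h3 <;> linarith)
    rw [hΦsum] at e1 e2
    have e3' : σ j * Φe = c * ρ := by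
      rw [← e3]
      simp only [Φe]
      rw [← hΦsum (Sum.inl ()), Finset.mul_sum]
      refine Finset.sum_congr rfl fun h _ => ?_
      push_cast; ring
    have hσ2 : (σ j : ℝ) * σ j = 1 := by rcases hσ j with h | h <;> rw [h] <;> norm_num
    refine ⟨k, l, σ j * c, by exact_mod_cast hk, by exact_mod_cast hl, ?_, ρ, e1, e2, ?_⟩
    · have hcabs : |c| ≤ M₁ := by
        have : ((|c| : ℤ) : ℝ) ≤ N * C := by push_cast; exact hc
        exact Int.le_floor.mpr this
      rw [abs_mul]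
      rcases hσ j with h | h <;> rw [h] <;> simpa using hcabs
    · push_cast
      calc Φe = (σ j * σ j) * Φe := by rw [hσ2, one_mul]
        _ = σ j * (σ j * Φe) := by ring
        _ = σ j * (c * ρ) := by rw [e3']
        _ = σ j * c * ρ := by ring
  -- the code
  have hcode : ∀ j, ∃ x ∈ CB M₀ M₁ (N + 1), (∀ p q σ', x = Sum.inl (p, q, σ') → p = (s j).1 ∧ q = (s j).2) ∧
      ∀ v, (∀ p q σ', x = Sum.inl (p, q, σ') → (p : ℝ) * pr (D.μ j) v + q * pr (D.lam j) v = 0) →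
        pr (D.μ j) v * Φμ j + pr (D.lam j) v * Φl j =
          Φe * term x (pr (D.μ j) v) (pr (D.lam j) v) := by
    intro j
    by_cases hsm : |(s j).1| ≤ M₀ ∧ |(s j).2| ≤ M₀
    · refine ⟨Sum.inl ((s j).1, (s j).2, σ j), Or.inl ⟨_, ⟨hsm.1, hsm.2, ?_⟩, rfl⟩, ?_, ?_⟩
      · rcases hσ j with h | h <;> simp [h]
      · rintro p q σ' h
        simp only [Sum.inl.injEq, Prod.mk.injEq] at h
        exact ⟨h.1.symm, h.2.1.symm⟩
      · intro v hv
        have h1 := hv _ _ _ rfl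
        simp only [term]
        have hpq : ((s j).1 : ℝ) ^ 2 + ((s j).2 : ℝ) ^ 2 ≠ 0 := by
          intro h0
          have h2 : ((s j).1 : ℝ) = 0 := by nlinarith [sq_nonneg ((s j).1 : ℝ), sq_nonneg ((s j).2 : ℝ)]
          have h3 : ((s j).2 : ℝ) = 0 := by nlinarith [sq_nonneg ((s j).1 : ℝ), sq_nonneg ((s j).2 : ℝ)]
          have h2' : (s j).1 = 0 := by exact_mod_cast h2
          have h3' : (s j).2 = 0 := by exact_mod_cast h3
          have h4 := hcop j
          rw [h2', h3'] at h4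
          exact not_isCoprime_zero_zero h4
        have h5 := hrel j
        rw [mul_div_assoc', mul_div_assoc', eq_div_iff hpq]
        linear_combination ((s j).1 * Φμ j + (s j).2 * Φl j) * h1 +
          ((s j).1 * pr (D.lam j) v - (s j).2 * pr (D.μ j) v) * (-1) * h5
    · obtain ⟨k, l, c, hk, hl, hc, ρ, e1, e2, e3⟩ := key j hsm
      refine ⟨Sum.inr (k, l, c), Or.inr ⟨_, ⟨hk, hl, hc⟩, rfl⟩, ?_, ?_⟩
      · rintro p q σ' h; exact absurd h (by simp)
      · intro v _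
        have hc0 : (c : ℝ) ≠ 0 := by
          intro h; apply hΦe; rw [e3, h, zero_mul]
        simp only [term]
        rw [e1, e2, e3]
        field_simp
  choose code hcodeB hcode1 hcode2 using hcode
  refine Set.mem_biUnion (x := code) (fun j _ => hcodeB j) ?_
  refine ⟨X, hXc, hXE, fun j => ⟨hcop j, s₀ * t j, mul_ne_zero hs0.ne' (htne j), ?_, ?_⟩, ?_, Φe / κ,
    div_ne_zero hΦe hκR, ?_⟩
  · rw [hX, pr_smul, (ht1 j).1]; ring
  · rw [hX, pr_smul, (ht1 j).2]; ring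
  · intro j p q σ' h
    obtain ⟨h1, h2⟩ := hcode1 j p q σ' h
    rw [h1, h2, hX, pr_smul, pr_smul, (ht1 j).1, (ht1 j).2]; ring
  · intro v hv
    rw [decomp, Lf]
    have : ∑ j, (pr (D.μ j) v * Φμ j + pr (D.lam j) v * Φl j) =
        Φe * ∑ j, term (code j) (pr (D.μ j) v) (pr (D.lam j) v) := by
      rw [Finset.mul_sum]
      exact Finset.sum_congr rfl fun j _ => hcode2 j v (hv j)
    rw [this]; ring

end MPG
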