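import Mathlib
import Pool.Agent.MPG.MMain

/-!
The magic manifold: the Teichmueller polynomial
`t^(x+y-z) - t^x - t^y - t^(x-z) - t^(y-z) + 1` of its fibered face is a `Datum`.
-/

open Finset Filter Topology

namespace MPG

namespace Magic

def S : Finset (Fin 3 → ℤ) :=
  {![1, 1, -1], ![1, 0, 0], ![0, 1, 0], ![1, 0, -1], ![0, 1, -1], ![0, 0, 0]}

def a (g : Fin 3 → ℤ) : ℤ := if g = ![1, 1, -1] ∨ g = ![0, 0, 0] then 1 else -1

theorem sum_S (f : (Fin 3 → ℤ) → ℝ) : ∑ g ∈ S, f g =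
    f ![1, 1, -1] + f ![1, 0, 0] + f ![0, 1, 0] + f ![1, 0, -1] + f ![0, 1, -1] + f ![0, 0, 0] := by
  rw [S, Finset.sum_insert (by decide), Finset.sum_insert (by decide), Finset.sum_insert (by decide),
    Finset.sum_insert (by decide), Finset.sum_insert (by decide), Finset.sum_singleton]
  ring

theorem pr_vec (i j k : ℤ) (x : Fin 3 → ℝ) : pr ![i, j, k] x = i * x 0 + j * x 1 + k * x 2 := by
  simp [pr, Fin.sum_univ_three]

theorem a1 : a ![1, 1, -1] = 1 := by decide
theorem a2 : a ![1, 0, 0] = -1 := by decide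
theorem a3 : a ![0, 1, 0] = -1 := by decide
theorem a4 : a ![1, 0, -1] = -1 := by decide
theorem a5 : a ![0, 1, -1] = -1 := by decide
theorem a6 : a ![0, 0, 0] = 1 := by decide

theorem E_eq (x : Fin 3 → ℝ) : E S a x = Real.exp (x 0 + x 1 - x 2) - Real.exp (x 0) - Real.exp (x 1) -
    Real.exp (x 0 - x 2) - Real.exp (x 1 - x 2) + 1 := by
  rw [E, sum_S, a1, a2, a3, a4, a5, a6]
  simp only [pr_vec]
  simp
  ring_nf

theorem Phi_eq (x : Fin 3 → ℝ) : Phi S a x x =
    (x 0 + x 1 - x 2) * Real.exp (x 0 + x 1 - x 2) - x 0 * Real.exp (x 0) - x 1 * Real.exp (x 1) -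
    (x 0 - x 2) * Real.exp (x 0 - x 2) - (x 1 - x 2) * Real.exp (x 1 - x 2) := by
  rw [Phi, sum_S, a1, a2, a3, a4, a5, a6]
  simp only [pr_vec]
  simp
  ring_nf

theorem mem_cone (x : Fin 3 → ℝ) : x ∈ Cone S ![1, 1, -1] ![0, 0, 0] ↔
    0 < x 0 ∧ 0 < x 1 ∧ x 2 < x 0 ∧ x 2 < x 1 := by
  have hS : ∀ g, g ∈ S ↔ g = ![1, 1, -1] ∨ g = ![1, 0, 0] ∨ g = ![0, 1, 0] ∨ g = ![1, 0, -1] ∨
      g = ![0, 1, -1] ∨ g = ![0, 0, 0] := by
    intro g; simp [S]
  constructor
  · rintro ⟨h1, h2⟩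
    have q1 := h1 ![1, 0, 0] (by decide) (by decide)
    have q2 := h1 ![0, 1, 0] (by decide) (by decide)
    have q3 := h1 ![1, 0, -1] (by decide) (by decide)
    have q4 := h1 ![0, 1, -1] (by decide) (by decide)
    simp only [pr_vec] at q1 q2 q3 q4
    push_cast at q1 q2 q3 q4
    refine ⟨by linarith, by linarith, by linarith, by linarith⟩
  · rintro ⟨h1, h2, h3, h4⟩
    constructor
    · intro g hg hne
      rcases (hS g).mp hg with h | h | h | h | h | h
      · exact absurd h hne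
      all_goals
        subst h
        simp only [pr_vec]
        push_cast
        linarith
    · intro g hg hne
      rcases (hS g).mp hg with h | h | h | h | h | h
      · subst h; simp only [pr_vec]; push_cast; linarith
      · subst h; simp only [pr_vec]; push_cast; linarith
      · subst h; simp only [pr_vec]; push_cast; linarith
      · subst h; simp only [pr_vec]; push_cast; linarith
      · subst h; simp only [pr_vec]; push_cast; linarith
      · exact absurd h hne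

/-- the normalised equation. -/
noncomputable def F (x : Fin 3 → ℝ) : ℝ :=
  (1 - Real.exp (-x 0)) * (1 - Real.exp (-(x 1 - x 2))) - Real.exp (-x 1) - Real.exp (-(x 0 - x 2))

theorem E_eq_F (x : Fin 3 → ℝ) : E S a x = Real.exp (x 0 + x 1 - x 2) * F x := by
  rw [E_eq, F]
  have e1 : Real.exp (x 0 + x 1 - x 2) * Real.exp (-x 0) = Real.exp (x 1 - x 2) := by
    rw [← Real.exp_add]; congr 1; ring
  have e2 : Real.exp (x 0 + x 1 - x 2) * Real.exp (-(x 1 - x 2)) = Real.exp (x 0) := by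
    rw [← Real.exp_add]; congr 1; ring
  have e3 : Real.exp (x 0 + x 1 - x 2) * Real.exp (-x 1) = Real.exp (x 0 - x 2) := by
    rw [← Real.exp_add]; congr 1; ring
  have e4 : Real.exp (x 0 + x 1 - x 2) * Real.exp (-(x 0 - x 2)) = Real.exp (x 1) := by
    rw [← Real.exp_add]; congr 1; ring
  have e5 : Real.exp (x 0 + x 1 - x 2) * (Real.exp (-x 0) * Real.exp (-(x 1 - x 2))) = 1 := by
    rw [← mul_assoc, e1, ← Real.exp_add]; simp
  have : Real.exp (x 0 + x 1 - x 2) * ((1 - Real.exp (-x 0)) * (1 - Real.exp (-(x 1 - x 2))) -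
      Real.exp (-x 1) - Real.exp (-(x 0 - x 2))) = Real.exp (x 0 + x 1 - x 2) -
      Real.exp (x 0 + x 1 - x 2) * Real.exp (-(x 1 - x 2)) -
      Real.exp (x 0 + x 1 - x 2) * Real.exp (-x 0) +
      Real.exp (x 0 + x 1 - x 2) * (Real.exp (-x 0) * Real.exp (-(x 1 - x 2))) -
      Real.exp (x 0 + x 1 - x 2) * Real.exp (-x 1) -
      Real.exp (x 0 + x 1 - x 2) * Real.exp (-(x 0 - x 2)) := by ring
  rw [this, e1, e2, e3, e4, e5]; ring

theorem F_mono {x : Fin 3 → ℝ} (h0 : 0 < x 0) (h1 : 0 < x 1) (h2 : x 2 < x 0) (h3 : x 2 < x 1)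
    {s s' : ℝ} (hs : 0 < s) (hss : s < s') : F (s • x) < F (s' • x) := by
  simp only [F, Pi.smul_apply, smul_eq_mul]
  have key : ∀ u : ℝ, 0 < u → Real.exp (-(s' * u)) < Real.exp (-(s * u)) := by
    intro u hu
    rw [Real.exp_lt_exp]
    nlinarith
  have k1 := key (x 0) h0
  have k2 := key (x 1) h1
  have k3 := key (x 0 - x 2) (by linarith)
  have k4 := key (x 1 - x 2) (by linarith)
  have l0 : Real.exp (-(s * x 0)) < 1 := by
    rw [Real.exp_lt_one_iff]; nlinarith
  have l1 : Real.exp (-(s * (x 1 - x 2))) < 1 := by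
    rw [Real.exp_lt_one_iff]; nlinarith
  rw [show s * x 1 - s * x 2 = s * (x 1 - x 2) by ring, show s' * x 1 - s' * x 2 = s' * (x 1 - x 2) by ring,
    show s * x 0 - s * x 2 = s * (x 0 - x 2) by ring, show s' * x 0 - s' * x 2 = s' * (x 0 - x 2) by ring]
  have m1 : (1 - Real.exp (-(s * x 0))) * (1 - Real.exp (-(s * (x 1 - x 2)))) <
      (1 - Real.exp (-(s' * x 0))) * (1 - Real.exp (-(s' * (x 1 - x 2)))) := by
    apply mul_lt_mul'' <;> linarith
  linarith

theorem isEnt_of {x : Fin 3 → ℝ} (hx : x ∈ Cone S ![1, 1, -1] ![0, 0, 0]) {s : ℝ} (hs : 0 < s)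
    (hE : E S a (s • x) = 0) : IsEnt S a x s := by
  rw [mem_cone] at hx
  obtain ⟨h0, h1, h2, h3⟩ := hx
  refine ⟨hs, hE, fun s' hs' h => ?_⟩
  have hF : F (s • x) = 0 := by
    rw [E_eq_F] at hE
    exact (mul_eq_zero.mp hE).resolve_left (Real.exp_pos _).ne'
  have hF' : F (s' • x) = 0 := by
    rw [E_eq_F] at h
    exact (mul_eq_zero.mp h).resolve_left (Real.exp_pos _).ne'
  have := F_mono h0 h1 h2 h3 hs hs'
  linarith

/-- if `E` is positive at `s` then the entropy is smaller than `s`. -/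
theorem ent_lt {x : Fin 3 → ℝ} (hx : x ∈ Cone S ![1, 1, -1] ![0, 0, 0]) {s u : ℝ} (hs : 0 < s)
    (hE : 0 < E S a (s • x)) (hu : IsEnt S a x u) : u < s := by
  by_contra hle
  push Not at hle
  rcases eq_or_lt_of_le hle with h | h
  · rw [h, hu.2.1] at hE; exact lt_irrefl _ hE
  · rw [mem_cone] at hx
    obtain ⟨h0, h1, h2, h3⟩ := hx
    have h4 := F_mono h0 h1 h2 h3 hs h
    rw [E_eq_F] at hE
    have hF : 0 < F (s • x) := pos_of_mul_pos_right hE (Real.exp_pos _).le
    have h5 := hu.2.1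
    rw [E_eq_F] at h5
    have := (mul_eq_zero.mp h5).resolve_left (Real.exp_pos _).ne'
    linarith

theorem ent_exists {x : Fin 3 → ℝ} (hx : x ∈ Cone S ![1, 1, -1] ![0, 0, 0]) : ∃ s, IsEnt S a x s := by
  obtain ⟨δ, hδ, hd⟩ := gap_point x hx.1
  set A := Real.log (∑ g ∈ S, |(a g : ℝ)|) with hA
  let M := (|A| + 1) / δ
  have hM0 : 0 ≤ M := by positivity
  have hM : 0 < E S a (M • x) := by
    refine E_pos_of (by decide) (by decide) x δ hd M hM0 ?_
    have h1 : M * δ = |A| + 1 := by simp only [M]; field_simp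
    rw [h1]
    have := le_abs_self A
    linarith
  have hcont : ContinuousOn (fun r : ℝ => E S a (r • x)) (Set.Icc 0 M) :=
    ((continuous_E S a).comp (by fun_prop)).continuousOn
  have h0 : E S a ((0 : ℝ) • x) = -2 := by
    rw [zero_smul, E_eq]; simp; norm_num
  obtain ⟨r, hr, hr0⟩ := intermediate_value_Icc hM0 hcont ⟨by rw [h0]; norm_num, hM.le⟩
  have hrpos : 0 < r := by
    rcases eq_or_lt_of_le hr.1 with h | h
    · rw [← h] at hr0
      simp only at hr0
      rw [h0] at hr0; norm_num at hr0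
    · exact h
  exact ⟨r, isEnt_of hx hrpos hr0⟩

theorem simple_root {x : Fin 3 → ℝ} (hx : x ∈ Cone S ![1, 1, -1] ![0, 0, 0]) (h : IsEnt S a x 1) :
    Phi S a x x ≠ 0 := by
  rw [mem_cone] at hx
  obtain ⟨h0, h1, h2, h3⟩ := hx
  have hE := h.2.1
  rw [one_smul, E_eq] at hE
  rw [Phi_eq]
  have e : Real.exp (x 0 + x 1 - x 2) = Real.exp (x 0) + Real.exp (x 1) + Real.exp (x 0 - x 2) +
      Real.exp (x 1 - x 2) - 1 := by linarith
  rw [e]
  have p0 : 1 < Real.exp (x 0) := by rw [Real.one_lt_exp_iff]; exact h0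
  have p1 : 1 < Real.exp (x 1) := by rw [Real.one_lt_exp_iff]; exact h1
  have p2 : 1 < Real.exp (x 0 - x 2) := by rw [Real.one_lt_exp_iff]; linarith
  have p3 : 1 < Real.exp (x 1 - x 2) := by rw [Real.one_lt_exp_iff]; linarith
  have : 0 < (x 1 - x 2) * (Real.exp (x 0) - 1) + x 0 * (Real.exp (x 1 - x 2) - 1) +
      (x 0 - x 2) * Real.exp (x 1) + x 1 * Real.exp (x 0 - x 2) := by
    have q1 : 0 < (x 1 - x 2) * (Real.exp (x 0) - 1) := mul_pos (by linarith) (by linarith)
    have q2 : 0 < x 0 * (Real.exp (x 1 - x 2) - 1) := mul_pos h0 (by linarith)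
    have q3 : 0 < (x 0 - x 2) * Real.exp (x 1) := mul_pos (by linarith) (by linarith)
    have q4 : 0 < x 1 * Real.exp (x 0 - x 2) := mul_pos h1 (by linarith)
    linarith
  apply ne_of_gt
  calc (0 : ℝ) < _ := this
    _ = _ := by ring


/-! strict convexity -/

noncomputable def sp (r : ℝ) : ℝ := Real.log (1 + Real.exp r)

noncomputable def lf (u : ℝ) : ℝ := Real.log (1 - Real.exp (-u))

theorem sp_strict : StrictConvexOn ℝ Set.univ sp := by
  have hd : ∀ r, HasDerivAt sp (Real.exp r / (1 + Real.exp r)) r := by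
    intro r
    have h1 : HasDerivAt (fun r : ℝ => 1 + Real.exp r) (Real.exp r) r := (Real.hasDerivAt_exp r).const_add 1
    exact h1.log (by positivity)
  refine StrictMono.strictConvexOn_univ_of_deriv ?_ ?_
  · exact continuous_iff_continuousAt.mpr fun r => (hd r).continuousAt
  · intro x y hxy
    rw [(hd x).deriv, (hd y).deriv]
    have h := Real.exp_lt_exp.mpr hxy
    have hx := Real.exp_pos x
    have hy := Real.exp_pos y
    rw [div_lt_div_iff₀ (by positivity) (by positivity)]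
    nlinarith

theorem lf_strict : StrictConcaveOn ℝ (Set.Ioi 0) lf := by
  have hpos : ∀ u : ℝ, 0 < u → 0 < 1 - Real.exp (-u) := by
    intro u hu
    have : Real.exp (-u) < 1 := by rw [Real.exp_lt_one_iff]; linarith
    linarith
  have hd : ∀ u, 0 < u → HasDerivAt lf (Real.exp (-u) / (1 - Real.exp (-u))) u := by
    intro u hu
    have h1 : HasDerivAt (fun u : ℝ => 1 - Real.exp (-u)) (Real.exp (-u)) u := by
      have h2 : HasDerivAt (fun u : ℝ => Real.exp (-u)) (Real.exp (-u) * (-1)) u :=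
        (hasDerivAt_neg u).exp
      have h3 := h2.const_sub 1
      simpa using h3
    exact h1.log (hpos u hu).ne'
  refine StrictAntiOn.strictConcaveOn_of_deriv (convex_Ioi 0) ?_ ?_
  · exact fun u hu => (hd u hu).continuousAt.continuousWithinAt
  · rw [interior_Ioi]
    intro x hx y hy hxy
    rw [(hd x hx).deriv, (hd y hy).deriv]
    have h : Real.exp (-y) < Real.exp (-x) := by rw [Real.exp_lt_exp]; linarith
    have h1 := hpos x hx
    have h2 := hpos y hy
    have h3 := Real.exp_pos (-x)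
    have h4 := Real.exp_pos (-y)
    rw [div_lt_div_iff₀ h2 h1]
    nlinarith

noncomputable def H (x : Fin 3 → ℝ) : ℝ := -x 1 + sp (x 1 - x 0 + x 2) - lf (x 0) - lf (x 1 - x 2)

theorem F_sign {x : Fin 3 → ℝ} (h0 : 0 < x 0) (h3 : x 2 < x 1) :
    (F x = 0 → H x = 0) ∧ (H x < 0 → 0 < F x) := by
  have p0 : 0 < 1 - Real.exp (-x 0) := by
    have : Real.exp (-x 0) < 1 := by rw [Real.exp_lt_one_iff]; linarith
    linarith
  have p1 : 0 < 1 - Real.exp (-(x 1 - x 2)) := by
    have : Real.exp (-(x 1 - x 2)) < 1 := by rw [Real.exp_lt_one_iff]; linarith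
    linarith
  have q : Real.exp (-x 1) + Real.exp (-(x 0 - x 2)) = Real.exp (-x 1 + sp (x 1 - x 0 + x 2)) := by
    rw [Real.exp_add, sp, Real.exp_log (by positivity), mul_add, mul_one, ← Real.exp_add]
    congr 2; ring
  have r : (1 - Real.exp (-x 0)) * (1 - Real.exp (-(x 1 - x 2))) =
      Real.exp (lf (x 0) + lf (x 1 - x 2)) := by
    rw [Real.exp_add, lf, lf, Real.exp_log p0, Real.exp_log p1]
  have hF : F x = Real.exp (lf (x 0) + lf (x 1 - x 2)) - Real.exp (-x 1 + sp (x 1 - x 0 + x 2)) := by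
    rw [F, r, ← q]; ring
  rw [hF, H]
  constructor
  · intro h
    have h1 := Real.exp_injective (sub_eq_zero.mp h)
    linarith
  · intro h
    rw [sub_pos, Real.exp_lt_exp]
    linarith

theorem H_strict {X Y : Fin 3 → ℝ} (hX0 : 0 < X 0) (hX3 : X 2 < X 1) (hY0 : 0 < Y 0) (hY3 : Y 2 < Y 1)
    (hX : H X = 0) (hY : H Y = 0) (hne : X ≠ Y) {θ η : ℝ} (hθ : 0 < θ) (hη : 0 < η) (hsum : θ + η = 1) :
    H (θ • X + η • Y) < 0 := by
  have c1 : sp (θ * (X 1 - X 0 + X 2) + η * (Y 1 - Y 0 + Y 2)) ≤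
      θ * sp (X 1 - X 0 + X 2) + η * sp (Y 1 - Y 0 + Y 2) :=
    sp_strict.convexOn.2 (Set.mem_univ _) (Set.mem_univ _) hθ.le hη.le hsum
  have c2 : θ * lf (X 0) + η * lf (Y 0) ≤ lf (θ * X 0 + η * Y 0) :=
    lf_strict.concaveOn.2 hX0 hY0 hθ.le hη.le hsum
  have c3 : θ * lf (X 1 - X 2) + η * lf (Y 1 - Y 2) ≤ lf (θ * (X 1 - X 2) + η * (Y 1 - Y 2)) :=
    lf_strict.concaveOn.2 (Set.mem_Ioi.mpr (by linarith)) (Set.mem_Ioi.mpr (by linarith)) hθ.le hη.le hsum
  have s1 : X 1 - X 0 + X 2 ≠ Y 1 - Y 0 + Y 2 → sp (θ * (X 1 - X 0 + X 2) + η * (Y 1 - Y 0 + Y 2)) <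
      θ * sp (X 1 - X 0 + X 2) + η * sp (Y 1 - Y 0 + Y 2) := fun h =>
    sp_strict.2 (Set.mem_univ _) (Set.mem_univ _) h hθ hη hsum
  have s2 : X 0 ≠ Y 0 → θ * lf (X 0) + η * lf (Y 0) < lf (θ * X 0 + η * Y 0) := fun h =>
    lf_strict.2 hX0 hY0 h hθ hη hsum
  have s3 : X 1 - X 2 ≠ Y 1 - Y 2 →
      θ * lf (X 1 - X 2) + η * lf (Y 1 - Y 2) < lf (θ * (X 1 - X 2) + η * (Y 1 - Y 2)) := fun h =>
    lf_strict.2 (Set.mem_Ioi.mpr (by linarith)) (Set.mem_Ioi.mpr (by linarith)) h hθ hη hsum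
  have e : H (θ • X + η • Y) = -(θ * X 1 + η * Y 1) +
      sp (θ * (X 1 - X 0 + X 2) + η * (Y 1 - Y 0 + Y 2)) - lf (θ * X 0 + η * Y 0) -
      lf (θ * (X 1 - X 2) + η * (Y 1 - Y 2)) := by
    simp only [H, Pi.add_apply, Pi.smul_apply, smul_eq_mul]
    congr 1
    · congr 1
      congr 2
      ring
    · congr 1; ring
  have e2 : θ * H X + η * H Y = 0 := by rw [hX, hY]; ring
  rw [H, H] at e2
  rw [e]
  by_cases h1 : X 1 - X 0 + X 2 = Y 1 - Y 0 + Y 2
  · by_cases h2 : X 0 = Y 0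
    · have h3 : X 1 - X 2 ≠ Y 1 - Y 2 := by
        intro h3
        apply hne
        funext i
        fin_cases i
        · exact h2
        · show X 1 = Y 1; linarith
        · show X 2 = Y 2; linarith
      have := s3 h3
      linarith
    · have := s2 h2
      linarith
  · have := s1 h1
    linarith

theorem convex_field (x : Fin 3 → ℝ) (hx : x ∈ Cone S ![1, 1, -1] ![0, 0, 0]) (y : Fin 3 → ℝ)
    (hy : y ∈ Cone S ![1, 1, -1] ![0, 0, 0]) (hne : ∀ c : ℝ, y ≠ c • x) (s t u : ℝ)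
    (hs : IsEnt S a x s) (ht : IsEnt S a y t) (hu : IsEnt S a (x + y) u) :
    1 / s + 1 / t < 1 / u := by
  have hs0 := hs.1
  have ht0 := ht.1
  have hu0 := hu.1
  have hX := cone_smul hx hs0
  have hY := cone_smul hy ht0
  have hxy := cone_add hx hy
  have hXF : F (s • x) = 0 := by
    have h := hs.2.1
    rw [E_eq_F] at h
    exact (mul_eq_zero.mp h).resolve_left (Real.exp_pos _).ne'
  have hYF : F (t • y) = 0 := by
    have h := ht.2.1
    rw [E_eq_F] at h
    exact (mul_eq_zero.mp h).resolve_left (Real.exp_pos _).ne'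
  rw [mem_cone] at hX hY
  have hXY : s • x ≠ t • y := by
    intro h
    apply hne (t⁻¹ * s)
    rw [← smul_smul, h, smul_smul, inv_mul_cancel₀ ht0.ne', one_smul]
  have hst : 0 < s + t := by linarith
  have key := H_strict hX.1 hX.2.2.2 hY.1 hY.2.2.2 ((F_sign hX.1 hX.2.2.2).1 hXF)
    ((F_sign hY.1 hY.2.2.2).1 hYF) hXY (θ := t / (s + t)) (η := s / (s + t)) (by positivity)
    (by positivity) (by field_simp; ring)
  have e : (t / (s + t)) • (s • x) + (s / (s + t)) • (t • y) = (s * t / (s + t)) • (x + y) := by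
    rw [smul_smul, smul_smul, smul_add]
    congr 2 <;> ring
  rw [e] at key
  have hc : (s * t / (s + t)) • (x + y) ∈ Cone S ![1, 1, -1] ![0, 0, 0] :=
    cone_smul hxy (by positivity)
  have hc' := hc
  rw [mem_cone] at hc'
  have hF := (F_sign hc'.1 hc'.2.2.2).2 key
  have hE : 0 < E S a ((s * t / (s + t)) • (x + y)) := by
    rw [E_eq_F]; exact mul_pos (Real.exp_pos _) hF
  have hlt := ent_lt hxy (by positivity) hE hu
  have h1 : 1 / s + 1 / t = 1 / (s * t / (s + t)) := by field_simp; ring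
  rw [h1]
  exact one_div_lt_one_div_of_lt hu0 hlt

/-- The magic manifold with one of its cusps: `e = (1,1,-1)`, `μ = (0,-1,0)`, `lam = (1,0,1)`; the slope
`(p, q)` gives the plane `q (x + z) = p y` and the norm `x + y - z - |y/q|`. -/
def magic : Datum (Fin 3) where
  S := S
  a := a
  g₀ := ![1, 1, -1]
  g₁ := ![0, 0, 0]
  e := ![1, 1, -1]
  μ := ![0, -1, 0]
  lam := ![1, 0, 1]
  g₀_mem := by decide
  g₁_mem := by decide
  ne := by decide
  a₀ := by decide
  a₁ := by decide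
  ent := fun x hx => ent_exists hx
  simple := fun x hx h => simple_root hx h
  convex := convex_field
  indep := by
    rw [Fintype.linearIndependent_iff]
    intro g hg
    have h0 := congrFun hg 0
    have h1 := congrFun hg 1
    have h2 := congrFun hg 2
    simp [Fin.sum_univ_three] at h0 h1 h2
    intro i
    fin_cases i
    · show g 0 = 0; linarith
    · show g 1 = 0; linarith
    · show g 2 = 0; linarith
  torus := by
    intro x hx
    rw [mem_cone] at hx
    left
    rw [pr_vec]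
    have := hx.2.1
    simp
    linarith

end Magic

/-- A datum with one torus as a datum with a family of tori. -/
def Datum.toM {ι : Type} [Fintype ι] (D : Datum ι) : MDatum ι Unit where
  S := D.S
  a := D.a
  g₀ := D.g₀
  g₁ := D.g₁
  g₀_mem := D.g₀_mem
  g₁_mem := D.g₁_mem
  ne := D.ne
  a₀ := D.a₀
  a₁ := D.a₁
  ent := D.ent
  simple := D.simple
  convex := D.convex
  e := D.e
  μ := fun _ => D.μ
  lam := fun _ => D.lam
  indep := by
    have h := D.indep
    rw [Fintype.linearIndependent_iff] at h ⊢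
    intro g hg
    rw [Fintype.sum_sum_type, Fintype.sum_sum_type] at hg
    simp only [Finset.univ_unique, Finset.sum_singleton, Sum.elim_inl, Sum.elim_inr] at hg
    have h1 := h ![g (Sum.inl default), g (Sum.inr (Sum.inl default)), g (Sum.inr (Sum.inr default))] (by
      rw [Fin.sum_univ_three]
      simp only [Matrix.cons_val_zero, Matrix.cons_val_one, Matrix.cons_val]
      rw [← hg]; abel)
    rintro (⟨⟩ | ⟨⟩ | ⟨⟩)
    · exact h1 0
    · exact h1 1
    · exact h1 2
  torus := fun x hx _ => D.torus x hx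

end MPG
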